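import Pool.Agent.H534.SZ.Bad2

/-! Products over primes. -/

set_option autoImplicit false

namespace Pool.Agent.H534.SZ

open Finset
open Pool.Agent.E8helper22.SZ
open Pool.Agent.Helper112.LP (Gj)

theorem sum_biU {f : ℕ → ℝ} (hf : ∀ n, 0 ≤ f n) (s : Finset ℕ) (t : ℕ → Finset ℕ) :
    ∑ n ∈ s.biUnion t, f n ≤ ∑ i ∈ s, ∑ n ∈ t i, f n := by
  classical
  induction s using Finset.induction_on with
  | empty => simp
  | insert i s hi ih =>
    rw [Finset.biUnion_insert, Finset.sum_insert hi]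
    have h1 := Finset.sum_union_inter (s₁ := t i) (s₂ := s.biUnion t) (f := f)
    have h2 : 0 ≤ ∑ n ∈ t i ∩ s.biUnion t, f n := Finset.sum_nonneg fun n _ => hf n
    linarith

theorem mert : ∃ C : ℝ, 0 < C ∧ ∀ (J t : ℕ) (Q : Finset ℕ), (∀ p ∈ Q, p.Prime ∧ 2 ^ 2 ^ J < p ∧ p ≤ 2 ^ 2 ^ (J + t)) →
    ∑ p ∈ Q, (1 : ℝ) / p ≤ t * Real.log 2 + C := by
  obtain ⟨C, hC, hM⟩ := Pool.Agent.Helper112.LP.mertens_group
  refine ⟨C, hC, ?_⟩
  intro J t Q hQ
  have hsub : Q ⊆ (Ico (J + 1) (J + t + 1)).biUnion Gj := by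
    intro p hp
    obtain ⟨h1, h2, h3⟩ := hQ p hp
    have hlt : p < 2 ^ 2 ^ (J + t) := by
      rcases lt_or_eq_of_le h3 with h | h
      · exact h
      · exfalso
        have h4 : 2 ∣ p := by rw [h]; exact dvd_pow_self 2 (by positivity)
        have h5 : p = 2 := ((Nat.prime_dvd_prime_iff_eq Nat.prime_two h1).1 h4).symm
        have h6 : 2 ≤ 2 ^ 2 ^ J := by
          calc 2 = 2 ^ 1 := rfl
            _ ≤ 2 ^ 2 ^ J := Nat.pow_le_pow_right (by norm_num) (Nat.one_le_two_pow)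
        omega
    have hex : ∃ i, p < 2 ^ 2 ^ i := ⟨J + t, hlt⟩
    classical
    have k1 := Nat.find_spec hex
    have k2 : Nat.find hex ≤ J + t := Nat.find_min' hex hlt
    have k3 : J < Nat.find hex := by
      by_contra hle
      push Not at hle
      have : 2 ^ 2 ^ Nat.find hex ≤ 2 ^ 2 ^ J :=
        Nat.pow_le_pow_right (by norm_num) (Nat.pow_le_pow_right (by norm_num) hle)
      omega
    have k4 : ¬ p < 2 ^ 2 ^ (Nat.find hex - 1) := Nat.find_min hex (by omega)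
    rw [mem_biUnion]
    refine ⟨Nat.find hex, mem_Ico.2 ⟨by omega, by omega⟩, ?_⟩
    unfold Gj
    rw [mem_filter, mem_Ico]
    exact ⟨⟨by omega, k1⟩, h1⟩
  calc ∑ p ∈ Q, (1 : ℝ) / p ≤ ∑ p ∈ (Ico (J + 1) (J + t + 1)).biUnion Gj, (1 : ℝ) / p :=
        Finset.sum_le_sum_of_subset_of_nonneg hsub fun _ _ _ => by positivity
    _ ≤ ∑ i ∈ Ico (J + 1) (J + t + 1), ∑ p ∈ Gj i, (1 : ℝ) / p :=
        sum_biU (fun _ => by positivity) _ _
    _ ≤ ∑ i ∈ Ico (J + 1) (J + t + 1), (Real.log 2 + C / 2 ^ i) := by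
        apply sum_le_sum
        intro i hi
        rw [mem_Ico] at hi
        have := (abs_le.1 (hM i (by omega))).2
        linarith
    _ ≤ t * Real.log 2 + C := by
        rw [sum_add_distrib, sum_const, Nat.card_Ico]
        have e : J + t + 1 - (J + 1) = t := by omega
        rw [e, nsmul_eq_mul]
        have h5 : ∑ i ∈ Ico (J + 1) (J + t + 1), C / (2 : ℝ) ^ i ≤ C := by
          rw [Finset.sum_Ico_eq_sum_range, e]
          have h6 : ∀ i ∈ range t, C / (2 : ℝ) ^ (J + 1 + i) ≤ C / 2 * (1 / 2) ^ i := by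
            intro i _
            have h7 : (2 : ℝ) ^ (J + 1 + i) = 2 ^ J * (2 * 2 ^ i) := by ring
            have h8 : (1 : ℝ) ≤ 2 ^ J := one_le_pow₀ (by norm_num)
            rw [h7, one_div_pow]
            rw [div_mul_div_comm, mul_one]
            apply div_le_div_of_nonneg_left hC.le (by positivity)
            nlinarith [show (0 : ℝ) < 2 * 2 ^ i by positivity]
          refine (sum_le_sum h6).trans ?_
          rw [← Finset.mul_sum]
          have h9 := geom_sum_eq (x := (1 / 2 : ℝ)) (by norm_num) t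
          rw [h9]
          have h10 : (0 : ℝ) ≤ (1 / 2) ^ t := by positivity
          have h11 : ((1 / 2 : ℝ) ^ t - 1) / (1 / 2 - 1) = 2 * (1 - (1 / 2) ^ t) := by ring
          rw [h11]
          nlinarith
        linarith

/-- sums of inverse squares -/
theorem sum_inv_sq (Q : Finset ℕ) (hQ : ∀ p ∈ Q, 1 ≤ p) : ∑ p ∈ Q, (1 : ℝ) / (p : ℝ) ^ 2 ≤ 2 := by
  obtain ⟨n, hn⟩ : ∃ n, ∀ p ∈ Q, p ≤ n := ⟨Q.sup id, fun p hp => Finset.le_sup (f := id) hp⟩
  have hsub : Q ⊆ insert 1 (Ioc 1 (max 1 n)) := by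
    intro p hp
    have h1 := hQ p hp
    have h2 := hn p hp
    rw [mem_insert, mem_Ioc]
    rcases eq_or_ne p 1 with h | h
    · exact Or.inl h
    · right; constructor
      · omega
      · exact h2.trans (le_max_right _ _)
  have h1 : ∑ i ∈ Ioc 1 (max 1 n), ((i : ℝ) ^ 2)⁻¹ ≤ ((1 : ℕ) : ℝ)⁻¹ - ((max 1 n : ℕ) : ℝ)⁻¹ :=
    sum_Ioc_inv_sq_le_sub one_ne_zero (le_max_left _ _)
  have h2 : (0 : ℝ) ≤ ((max 1 n : ℕ) : ℝ)⁻¹ := by positivity
  calc ∑ p ∈ Q, (1 : ℝ) / (p : ℝ) ^ 2 ≤ ∑ p ∈ insert 1 (Ioc 1 (max 1 n)), (1 : ℝ) / (p : ℝ) ^ 2 :=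
        Finset.sum_le_sum_of_subset_of_nonneg hsub fun _ _ _ => by positivity
    _ = 1 + ∑ p ∈ Ioc 1 (max 1 n), (1 : ℝ) / (p : ℝ) ^ 2 := by
        rw [Finset.sum_insert (by simp)]
        simp
    _ ≤ 2 := by
        have e : ∑ p ∈ Ioc 1 (max 1 n), (1 : ℝ) / (p : ℝ) ^ 2 = ∑ i ∈ Ioc 1 (max 1 n), ((i : ℝ) ^ 2)⁻¹ :=
          sum_congr rfl fun i _ => one_div _
        rw [e]
        simp only [Nat.cast_one, inv_one] at h1
        linarith

/-- lower bound for the sieve products -/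
theorem prod_lower (Q : Finset ℕ) (hQ : ∀ p ∈ Q, p.Prime ∧ 10 ≤ p) :
    Real.exp (-(∑ p ∈ Q, (1 : ℝ) / p) - 6) ≤ ∏ p ∈ Q, (1 - 1 / ((p : ℝ) - 1)) := by
  have h1 : ∀ p ∈ Q, Real.exp (-((1 : ℝ) / p + 3 * (1 / (p : ℝ) ^ 2))) ≤ 1 - 1 / ((p : ℝ) - 1) := by
    intro p hp
    have hp10 : (10 : ℝ) ≤ p := by exact_mod_cast (hQ p hp).2
    have hpos : 0 < 1 - 1 / ((p : ℝ) - 1) := by
      rw [sub_pos, div_lt_one (by linarith)]; linarith
    rw [← Real.le_log_iff_exp_le hpos]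
    have h2 := Real.one_sub_inv_le_log_of_pos hpos
    refine le_trans ?_ h2
    have h3 : 1 - (1 - 1 / ((p : ℝ) - 1))⁻¹ = -(1 / ((p : ℝ) - 2)) := by
      have e1 : (p : ℝ) - 1 ≠ 0 := by linarith
      have e2 : (p : ℝ) - 2 ≠ 0 := by linarith
      have e3 : 1 - 1 / ((p : ℝ) - 1) = (p - 2) / (p - 1) := by field_simp; ring
      rw [e3, inv_div]
      field_simp
      ring
    rw [h3, neg_le_neg_iff]
    rw [div_add' _ _ _ (by positivity), div_le_div_iff₀ (by linarith) (by positivity)]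
    field_simp
    nlinarith
  have h2 : ∏ p ∈ Q, Real.exp (-((1 : ℝ) / p + 3 * (1 / (p : ℝ) ^ 2))) ≤ ∏ p ∈ Q, (1 - 1 / ((p : ℝ) - 1)) :=
    Finset.prod_le_prod (fun _ _ => (Real.exp_pos _).le) h1
  refine le_trans ?_ h2
  rw [← Real.exp_sum]
  apply Real.exp_le_exp.2
  rw [Finset.sum_neg_distrib, sum_add_distrib, ← Finset.mul_sum]
  have h3 := sum_inv_sq Q (fun p hp => (hQ p hp).1.one_lt.le)
  linarith

/-- the sum over the integers with all their prime factors in `Q` -/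
theorem sum_rough (Q : Finset ℕ) (hQ : ∀ p ∈ Q, p.Prime) (E : Finset ℕ) (hE : ∀ e ∈ E, 0 < e ∧ e.primeFactors ⊆ Q) :
    ∑ e ∈ E, (1 : ℝ) / e ≤ Real.exp (2 * ∑ p ∈ Q, (1 : ℝ) / p) := by
  let f : ℕ →* ℝ := { toFun := fun n => (n : ℝ)⁻¹, map_one' := by simp, map_mul' := fun m n => by push_cast; rw [mul_inv] }
  have hf : ∀ {p : ℕ}, p.Prime → ‖f p‖ < 1 := by
    intro p hp
    simp only [f, MonoidHom.coe_mk, OneHom.coe_mk, norm_inv, Real.norm_natCast]
    exact inv_lt_one_of_one_lt₀ (by exact_mod_cast hp.one_lt)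
  obtain ⟨h1, h2⟩ := EulerProduct.summable_and_hasSum_factoredNumbers_prod_filter_prime_geometric hf Q
  have h3 : Q.filter (fun p => p.Prime) = Q := Finset.filter_true_of_mem hQ
  rw [h3] at h2
  have hmem : ∀ e ∈ E, e ∈ Nat.factoredNumbers Q := by
    intro e he
    rw [Nat.mem_factoredNumbers']
    intro p hp hpe
    exact (hE e he).2 (Nat.mem_primeFactors.2 ⟨hp, hpe, (hE e he).1.ne'⟩)
  have h4 : ∑ e ∈ E.attach, f e.1 ≤ ∏ p ∈ Q, (1 - f p)⁻¹ := by
    have h5 : ∑ e ∈ E.attach.map ⟨fun e => (⟨e.1, hmem e.1 e.2⟩ : Nat.factoredNumbers Q), by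
        intro a b hab
        simp only [Subtype.mk.injEq] at hab
        exact Subtype.ext hab⟩, f e.1 ≤ ∏ p ∈ Q, (1 - f p)⁻¹ := by
      apply sum_le_hasSum _ _ h2
      intro e _
      simp only [f, MonoidHom.coe_mk, OneHom.coe_mk]
      positivity
    rw [Finset.sum_map] at h5
    exact h5
  rw [Finset.sum_attach E (fun e => f e)] at h4
  have h6 : ∑ e ∈ E, (1 : ℝ) / e = ∑ e ∈ E, f e := by
    apply sum_congr rfl
    intro e _
    simp only [f, MonoidHom.coe_mk, OneHom.coe_mk, one_div]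
  rw [h6]
  refine h4.trans ?_
  have h7 : ∀ p ∈ Q, (1 - f p)⁻¹ ≤ Real.exp (2 * ((1 : ℝ) / p)) := by
    intro p hp
    have hp2 : (2 : ℝ) ≤ p := by exact_mod_cast (hQ p hp).two_le
    simp only [f, MonoidHom.coe_mk, OneHom.coe_mk]
    have h8 : (1 - (p : ℝ)⁻¹)⁻¹ = 1 + 1 / ((p : ℝ) - 1) := by
      have e1 : (p : ℝ) - 1 ≠ 0 := by linarith
      have e2 : (p : ℝ) ≠ 0 := by linarith
      have e3 : 1 - (p : ℝ)⁻¹ = (p - 1) / p := by field_simp
      rw [e3, inv_div]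
      field_simp
      ring
    rw [h8]
    have h9 := Real.add_one_le_exp (2 * ((1 : ℝ) / p))
    have h10 : 1 / ((p : ℝ) - 1) ≤ 2 * (1 / p) := by
      rw [← div_eq_mul_one_div, div_le_div_iff₀ (by linarith) (by linarith)]
      linarith
    linarith
  calc ∏ p ∈ Q, (1 - f p)⁻¹ ≤ ∏ p ∈ Q, Real.exp (2 * ((1 : ℝ) / p)) := by
        apply Finset.prod_le_prod _ h7
        intro p hp
        have := (hf (hQ p hp))
        rw [Real.norm_eq_abs, abs_lt] at this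
        apply inv_nonneg.2
        linarith
    _ = Real.exp (2 * ∑ p ∈ Q, (1 : ℝ) / p) := by rw [← Real.exp_sum, Finset.mul_sum]

end Pool.Agent.H534.SZ
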