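import Pool.Agent.H534.SZ.Mn

/-! For an exceptional character and `N` divisible by `q`, `μ(N - n)` is constant for almost all primes `n` with
`N - n` without small prime factors. -/

set_option autoImplicit false

namespace Pool.Agent.H534.SZ

open Finset
open Pool.Agent.E8helper22.SZ
open ArithmeticFunction (vonMangoldt moebius)

theorem mu_prod (T : Finset ℕ) (hT : ∀ p ∈ T, p.Prime) : moebius (∏ p ∈ T, p) = ∏ p ∈ T, (-1 : ℤ) := by
  classical
  induction T using Finset.induction_on with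
  | empty => simp
  | insert p T hpT ih =>
    have hp : p.Prime := hT p (mem_insert_self _ _)
    have hT' : ∀ r ∈ T, r.Prime := fun r hr => hT r (mem_insert_of_mem hr)
    have hcop : p.Coprime (∏ p ∈ T, p) := by
      apply Nat.Coprime.prod_right
      intro r hr
      rw [Nat.coprime_primes hp (hT' r hr)]
      rintro rfl
      exact hpT hr
    rw [Finset.prod_insert hpT, Finset.prod_insert hpT, ArithmeticFunction.isMultiplicative_moebius.map_mul_of_coprime hcop,
      ih hT', ArithmeticFunction.moebius_apply_prime hp]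

theorem cv_prod {q : ℕ} {χ : DirichletCharacter ℂ q} (h : RealPrim q χ) (T : Finset ℕ) :
    cv χ (∏ p ∈ T, p) = ∏ p ∈ T, cv χ p := by
  classical
  induction T using Finset.induction_on with
  | empty => simp [cv_one]
  | insert p T hpT ih => rw [Finset.prod_insert hpT, Finset.prod_insert hpT, cv_mul h, ih]

/-- if all prime factors of the squarefree `m` have the value `-1` then `μ(m) = χ(m)` -/
theorem mu_eq_cv {q : ℕ} {χ : DirichletCharacter ℂ q} (h : RealPrim q χ) (m : ℕ) (hm : Squarefree m)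
    (hall : ∀ r : ℕ, r.Prime → r ∣ m → cv χ r = -1) : ((moebius m : ℤ) : ℝ) = cv χ m := by
  have h1 := Nat.prod_primeFactors_of_squarefree hm
  have h2 := mu_prod m.primeFactors (fun p hp => Nat.prime_of_mem_primeFactors hp)
  have h3 := cv_prod h m.primeFactors
  rw [h1] at h2 h3
  rw [h2, h3]
  push_cast
  apply prod_congr rfl
  intro p hp
  exact (hall p (Nat.prime_of_mem_primeFactors hp) (Nat.dvd_of_mem_primeFactors hp)).symm

theorem cv_neg {q : ℕ} {χ : DirichletCharacter ℂ q} (h : RealPrim q χ) (hq : 1 < q) (N n : ℕ) (hqN : q ∣ N) (hn : n ≤ N) :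
    cv χ (N - n) = cv χ (q - 1) * cv χ n := by
  rw [← cv_mul h, ← cv_mod χ (N - n), ← cv_mod χ ((q - 1) * n)]
  congr 1
  have h1 : (N - n) + n ≡ (q - 1) * n + n [MOD q] := by
    rw [Nat.sub_add_cancel hn]
    have e : (q - 1) * n + n = q * n := by
      have : q = (q - 1) + 1 := by omega
      conv_rhs => rw [this]
      ring
    rw [e]
    have h2 : N ≡ 0 [MOD q] := (Nat.modEq_zero_iff_dvd).2 hqN
    have h3 : q * n ≡ 0 [MOD q] := (Nat.modEq_zero_iff_dvd).2 (dvd_mul_right _ _)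
    exact h2.trans h3.symm
  exact Nat.ModEq.add_right_cancel' n h1

/-- the good `n` -/
def Good {q : ℕ} (χ : DirichletCharacter ℂ q) (N n : ℕ) : Prop :=
  n.Prime ∧ ¬ n ∣ N ∧ cv χ n = -1 ∧ Squarefree (N - n) ∧ ∀ r : ℕ, r.Prime → r ∣ N - n → cv χ r = -1

theorem good_mu {q : ℕ} {χ : DirichletCharacter ℂ q} (h : RealPrim q χ) (hq : 1 < q) (N n : ℕ) (hqN : q ∣ N) (hn : n ≤ N)
    (hg : Good χ N n) : ((moebius (N - n) : ℤ) : ℝ) = -cv χ (q - 1) := by
  obtain ⟨_, _, g3, g4, g5⟩ := hg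
  rw [mu_eq_cv h _ g4 g5, cv_neg h hq N n hqN hn, g3]
  ring

open Classical in
theorem split_good {q : ℕ} {χ : DirichletCharacter ℂ q} (h : RealPrim q χ) (hq : 1 < q) (N : ℕ) (hqN : q ∣ N)
    (S : Finset ℕ) (hS : ∀ n ∈ S, n ≤ N) :
    ∑ n ∈ S, vonMangoldt n ≤ |∑ n ∈ S, vonMangoldt n * ((moebius (N - n) : ℤ) : ℝ)| +
      2 * ∑ n ∈ S.filter (fun n => ¬ Good χ N n), vonMangoldt n := by
  obtain ⟨s, hs⟩ : ∃ s, s = -cv χ (q - 1) := ⟨_, rfl⟩
  have hs1 : |s| = 1 := by
    have h1 : cv χ (q - 1) ≠ 0 := by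
      rw [Ne, cv_zero_iff h]
      rw [not_not]
      have := (Nat.coprime_self_sub_right (m := 1) (n := q) (by omega)).2 (Nat.coprime_one_right q)
      exact this.symm
    rcases cv_vals h (q - 1) with h2 | h2 | h2
    · exact absurd h2 h1
    · rw [hs, h2]; simp
    · rw [hs, h2]; simp
  have h1 : ∑ n ∈ S, vonMangoldt n * (1 - s * ((moebius (N - n) : ℤ) : ℝ)) ≤
      2 * ∑ n ∈ S.filter (fun n => ¬ Good χ N n), vonMangoldt n := by
    rw [← Finset.sum_filter_add_sum_filter_not S (fun n => Good χ N n)]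
    have h2 : ∑ n ∈ S.filter (fun n => Good χ N n), vonMangoldt n * (1 - s * ((moebius (N - n) : ℤ) : ℝ)) = 0 := by
      apply sum_eq_zero
      intro n hn
      rw [mem_filter] at hn
      rw [good_mu h hq N n hqN (hS n hn.1) hn.2, ← hs]
      have h3 : s * s = 1 := by
        have : |s| * |s| = 1 := by rw [hs1]; norm_num
        rwa [abs_mul_abs_self] at this
      rw [h3]
      ring
    rw [h2, zero_add, Finset.mul_sum]
    apply sum_le_sum
    intro n _
    have h3 : |((moebius (N - n) : ℤ) : ℝ)| ≤ 1 := by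
      have := ArithmeticFunction.abs_moebius_le_one (n := N - n)
      exact_mod_cast this
    have h4 : -(s * ((moebius (N - n) : ℤ) : ℝ)) ≤ 1 := by
      have h5 := neg_abs_le (s * ((moebius (N - n) : ℤ) : ℝ))
      rw [abs_mul, hs1, one_mul] at h5
      linarith
    have h5 : (0 : ℝ) ≤ vonMangoldt n := ArithmeticFunction.vonMangoldt_nonneg
    nlinarith
  have h2 : ∑ n ∈ S, vonMangoldt n * (1 - s * ((moebius (N - n) : ℤ) : ℝ)) =
      ∑ n ∈ S, vonMangoldt n - s * ∑ n ∈ S, vonMangoldt n * ((moebius (N - n) : ℤ) : ℝ) := by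
    rw [Finset.mul_sum, ← sum_sub_distrib]
    apply sum_congr rfl
    intro n _
    ring
  rw [h2] at h1
  have h3 : s * ∑ n ∈ S, vonMangoldt n * ((moebius (N - n) : ℤ) : ℝ) ≤
      |∑ n ∈ S, vonMangoldt n * ((moebius (N - n) : ℤ) : ℝ)| := by
    have h4 := le_abs_self (s * ∑ n ∈ S, vonMangoldt n * ((moebius (N - n) : ℤ) : ℝ))
    rw [abs_mul, hs1, one_mul] at h4
    exact h4
  linarith

/-- the residues `N / e` -/
noncomputable def res (N e p : ℕ) : ℕ := ((N : ZMod p) * (e : ZMod p)⁻¹).val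

theorem res_modEq (N e p d : ℕ) (hp : p.Prime) (he : ¬ p ∣ e) (h : d ≡ res N e p [MOD p]) : d * e ≡ N [MOD p] := by
  have hF : Fact p.Prime := ⟨hp⟩
  rw [← ZMod.natCast_eq_natCast_iff] at h ⊢
  unfold res at h
  rw [ZMod.natCast_zmod_val] at h
  have he0 : (e : ZMod p) ≠ 0 := by rw [Ne, ZMod.natCast_eq_zero_iff]; exact he
  push_cast
  rw [h]
  field_simp

theorem res_dvd (N e p : ℕ) (hp : p.Prime) (he : ¬ p ∣ e) : p ∣ res N e p ↔ p ∣ N := by
  have hF : Fact p.Prime := ⟨hp⟩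
  rw [← ZMod.natCast_eq_zero_iff, ← ZMod.natCast_eq_zero_iff]
  unfold res
  rw [ZMod.natCast_zmod_val]
  have he0 : (e : ZMod p) ≠ 0 := by rw [Ne, ZMod.natCast_eq_zero_iff]; exact he
  constructor
  · intro h
    rcases mul_eq_zero.1 h with h1 | h1
    · exact h1
    · exact absurd (inv_eq_zero.1 h1) he0
  · intro h
    rw [h, zero_mul]

/-- the sieved sums of the weights -/
noncomputable def U {q : ℕ} (χ : DirichletCharacter ℂ q) (N : ℕ) (P' : Finset ℕ) (e : ℕ) : ℝ :=
  ∑ n ∈ (Icc 1 (N / e)).filter (fun n => ∀ p ∈ P', ¬ hitp (res N e) p n), wt χ n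

/-- the cofactors -/
def EE (N z : ℕ) : Finset ℕ := (Icc 1 (N / z)).filter (fun e => ∀ p ∈ e.primeFactors, z < p)

theorem U_nonneg {q : ℕ} {χ : DirichletCharacter ℂ q} (hq : 0 < q) (h : RealPrim q χ) (N : ℕ) (P' : Finset ℕ) (e : ℕ) :
    0 ≤ U χ N P' e := by
  apply Finset.sum_nonneg
  intro n hn
  rw [mem_filter, mem_Icc] at hn
  exact wt_nonneg hq h n (by omega)

theorem one_le_wt {q : ℕ} {χ : DirichletCharacter ℂ q} (hq : 0 < q) (h : RealPrim q χ) (r : ℕ) (hr : r.Prime)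
    (hrq : ¬ r ∣ q) (hc : cv χ r ≠ -1) : 1 ≤ wt χ r := by
  unfold wt
  rw [if_pos (hr.coprime_iff_not_dvd.2 hrq)]
  exact (Pool.Agent.E8helper63.SZ.t_POS q χ hq h r hr.pos).2 hr hc

section
variable {q : ℕ} {χ : DirichletCharacter ℂ q} (h : RealPrim q χ) (hq : 1 < q) (N z z0 : ℕ) (hqN : q ∣ N)
  (P P' : Finset ℕ) (hP : ∀ p : ℕ, p ∈ P ↔ p.Prime ∧ z0 < p ∧ p ≤ z ∧ ¬ p ∣ N) (hz0 : ∀ p : ℕ, p.Prime → p ≤ z0 → p ∣ N)
  (hP' : ∀ p ∈ P', p.Prime ∧ z0 < p ∧ p ≤ z) (hz : 0 < z) (hzN : z ≤ N)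
include h hq hqN hP hz0 hP' hz hzN

/-- prime factors of `N - n` are large -/
theorem large_factor (n : ℕ) (hn : n ∈ Rg N P) (hp : n.Prime) (hnN : ¬ n ∣ N) (r : ℕ) (hr : r.Prime) (hrd : r ∣ N - n) :
    z < r ∧ ¬ r ∣ N := by
  unfold Rg at hn
  rw [mem_filter, mem_Ico] at hn
  have h1 : ¬ r ∣ N := by
    intro hrN
    have h2 : r ∣ n := by
      have h3 := Nat.dvd_sub hrN hrd
      have h4 : N - (N - n) = n := by omega
      rwa [h4] at h3
    have h3 := (Nat.prime_dvd_prime_iff_eq hr hp).1 h2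
    rw [h3] at hrN
    exact hnN hrN
  refine ⟨?_, h1⟩
  by_contra hrz
  push Not at hrz
  rcases Nat.lt_or_ge z0 r with h2 | h2
  · exact hn.2 r ((hP r).2 ⟨hr, h2, hrz, h1⟩) hrd
  · exact h1 (hz0 r hr h2)

open Classical in
theorem count5 : (((Rg N P).filter (fun n => n.Prime ∧ z < n ∧ ¬ n ∣ N ∧ cv χ n ≠ -1)).card : ℝ) ≤ U χ N P' 1 := by
  rw [← nsmul_one, ← Finset.sum_const]
  unfold U
  rw [Nat.div_one]
  have hsub : (Rg N P).filter (fun n => n.Prime ∧ z < n ∧ ¬ n ∣ N ∧ cv χ n ≠ -1) ⊆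
      (Icc 1 N).filter (fun n => ∀ p ∈ P', ¬ hitp (res N 1) p n) := by
    intro n hn
    rw [mem_filter] at hn
    obtain ⟨hn1, hn2, hn3, hn4, hn5⟩ := hn
    have hn1' := hn1
    unfold Rg at hn1'
    rw [mem_filter, mem_Ico] at hn1'
    rw [mem_filter, mem_Icc]
    refine ⟨by omega, ?_⟩
    intro p hp hit
    obtain ⟨g1, g2, g3⟩ := hP' p hp
    rcases hit with h1 | h1
    · have := (Nat.prime_dvd_prime_iff_eq g1 hn2).1 h1
      omega
    · have h2 := res_modEq N 1 p n g1 (by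
        intro h3
        exact g1.one_lt.ne' (Nat.dvd_one.1 h3)) h1
      rw [mul_one] at h2
      have h3 : p ∣ N - n := (Nat.modEq_iff_dvd' (by omega)).1 h2
      have h4 := large_factor h hq N z z0 hqN P P' hP hz0 hP' hz hzN n hn1 hn2 hn4 p g1 h3
      omega
  calc ∑ _n ∈ (Rg N P).filter (fun n => n.Prime ∧ z < n ∧ ¬ n ∣ N ∧ cv χ n ≠ -1), (1 : ℝ) ≤
        ∑ n ∈ (Rg N P).filter (fun n => n.Prime ∧ z < n ∧ ¬ n ∣ N ∧ cv χ n ≠ -1), wt χ n := by
        apply sum_le_sum
        intro n hn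
        rw [mem_filter] at hn
        obtain ⟨_, hn2, _, hn4, hn5⟩ := hn
        exact one_le_wt (by omega) h n hn2 (fun h1 => hn4 (h1.trans hqN)) hn5
    _ ≤ _ := Finset.sum_le_sum_of_subset_of_nonneg hsub fun n hn _ => by
        rw [mem_filter, mem_Icc] at hn
        exact wt_nonneg (by omega) h n (by omega)

open Classical in
theorem count6 : (((Rg N P).filter (fun n => n.Prime ∧ z < n ∧ ¬ n ∣ N ∧
    ∃ r : ℕ, r.Prime ∧ r ∣ N - n ∧ cv χ r ≠ -1)).card : ℝ) ≤ ∑ e ∈ EE N z, U χ N P' e := by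
  set A := (Rg N P).filter (fun n => n.Prime ∧ z < n ∧ ¬ n ∣ N ∧ ∃ r : ℕ, r.Prime ∧ r ∣ N - n ∧ cv χ r ≠ -1) with hA
  have hch : ∀ n ∈ A, ∃ r : ℕ, r.Prime ∧ r ∣ N - n ∧ cv χ r ≠ -1 := by
    intro n hn
    rw [hA, mem_filter] at hn
    exact hn.2.2.2.2
  choose! r hr using hch
  -- the image
  set B : Finset (Σ _ : ℕ, ℕ) := (EE N z).sigma (fun e => (Icc 1 (N / e)).filter
    (fun n => (∀ p ∈ P', ¬ hitp (res N e) p n) ∧ n.Prime ∧ ¬ n ∣ q ∧ cv χ n ≠ -1)) with hB
  have hcard : A.card ≤ B.card := by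
    apply Finset.card_le_card_of_injOn (fun n => (⟨(N - n) / r n, r n⟩ : Σ _ : ℕ, ℕ))
    · intro n hn
      rw [Finset.mem_coe] at hn
      obtain ⟨r1, r2, r3⟩ := hr n hn
      rw [hA, mem_filter] at hn
      obtain ⟨hn1, hn2, hn3, hn4, _⟩ := hn
      have hn1' := hn1
      unfold Rg at hn1'
      rw [mem_filter, mem_Ico] at hn1'
      obtain ⟨l1, l2⟩ := large_factor h hq N z z0 hqN P P' hP hz0 hP' hz hzN n hn1 hn2 hn4 (r n) r1 r2
      obtain ⟨e, he⟩ := r2
      have hr0 : 0 < r n := r1.pos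
      have hediv : (N - n) / r n = e := by rw [he]; exact Nat.mul_div_cancel_left e hr0
      have he0 : 0 < e := by
        rcases Nat.eq_zero_or_pos e with h1 | h1
        · rw [h1, mul_zero] at he; omega
        · exact h1
      simp only [Finset.mem_coe, hB, mem_sigma]
      rw [hediv]
      have heN : e * r n ≤ N := by rw [mul_comm]; omega
      have hfac : ∀ p ∈ e.primeFactors, z < p := by
        intro p hp
        have hp1 := Nat.prime_of_mem_primeFactors hp
        have hp2 := Nat.dvd_of_mem_primeFactors hp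
        exact (large_factor h hq N z z0 hqN P P' hP hz0 hP' hz hzN n hn1 hn2 hn4 p hp1
          (by rw [he]; exact hp2.mul_left _)).1
      refine ⟨?_, ?_⟩
      · unfold EE
        rw [mem_filter, mem_Icc]
        refine ⟨⟨he0, ?_⟩, hfac⟩
        rw [Nat.le_div_iff_mul_le hz]
        exact (Nat.mul_le_mul_left e l1.le).trans heN
      · rw [mem_filter, mem_Icc]
        refine ⟨⟨r1.pos, ?_⟩, ?_, r1, fun h1 => l2 (h1.trans hqN), r3⟩
        · rw [Nat.le_div_iff_mul_le he0, mul_comm]; exact heN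
        · intro p hp hit
          obtain ⟨g1, g2, g3⟩ := hP' p hp
          rcases hit with h1 | h1
          · have := (Nat.prime_dvd_prime_iff_eq g1 r1).1 h1
            omega
          · have hpe : ¬ p ∣ e := by
              intro h3
              have := hfac p (Nat.mem_primeFactors.2 ⟨g1, h3, he0.ne'⟩)
              omega
            have h2 := res_modEq N e p (r n) g1 hpe h1
            rw [← he] at h2
            -- N - n ≡ N mod p, so p ∣ n
            have h3 : p ∣ N - (N - n) := (Nat.modEq_iff_dvd' (by omega)).1 h2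
            have h4 : N - (N - n) = n := by omega
            rw [h4] at h3
            have := (Nat.prime_dvd_prime_iff_eq g1 hn2).1 h3
            omega
    · intro n hn n' hn' heq
      rw [Finset.mem_coe] at hn hn'
      simp only [Sigma.mk.injEq, heq_eq_eq] at heq
      obtain ⟨h1, h2⟩ := heq
      have r2 := (hr n hn).2.1
      have r2' := (hr n' hn').2.1
      rw [hA, mem_filter] at hn hn'
      have k1 := hn.1
      have k2 := hn'.1
      unfold Rg at k1 k2
      rw [mem_filter, mem_Ico] at k1 k2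
      have e1 := Nat.div_mul_cancel r2
      have e2 := Nat.div_mul_cancel r2'
      rw [h1, h2, e2] at e1
      omega
  have h1 : (B.card : ℝ) ≤ ∑ e ∈ EE N z, U χ N P' e := by
    rw [hB, Finset.card_sigma]
    push_cast
    apply sum_le_sum
    intro e _
    rw [← nsmul_one, ← Finset.sum_const]
    unfold U
    calc ∑ _n ∈ (Icc 1 (N / e)).filter (fun n => (∀ p ∈ P', ¬ hitp (res N e) p n) ∧ n.Prime ∧ ¬ n ∣ q ∧ cv χ n ≠ -1), (1 : ℝ) ≤
          ∑ n ∈ (Icc 1 (N / e)).filter (fun n => (∀ p ∈ P', ¬ hitp (res N e) p n) ∧ n.Prime ∧ ¬ n ∣ q ∧ cv χ n ≠ -1), wt χ n := by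
          apply sum_le_sum
          intro n hn
          rw [mem_filter] at hn
          obtain ⟨_, _, hn2, hn4, hn5⟩ := hn
          exact one_le_wt (by omega) h n hn2 hn4 hn5
      _ ≤ _ := Finset.sum_le_sum_of_subset_of_nonneg (by
          intro n hn
          rw [mem_filter] at hn ⊢
          exact ⟨hn.1, hn.2.1⟩) fun n hn _ => by
          rw [mem_filter, mem_Icc] at hn
          exact wt_nonneg (by omega) h n (by omega)
  have h2 : (A.card : ℝ) ≤ B.card := by exact_mod_cast hcard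
  exact h2.trans h1

end

end Pool.Agent.H534.SZ
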