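import Pool.Agent.H534.SZ.Bad

/-! The total contribution of the bad `n`. -/

set_option autoImplicit false

namespace Pool.Agent.H534.SZ

open Finset
open Pool.Agent.E8helper22.SZ
open ArithmeticFunction (vonMangoldt moebius)

section
variable {q : ℕ} {χ : DirichletCharacter ℂ q} (h : RealPrim q χ) (hq : 1 < q) (N z z0 : ℕ) (hqN : q ∣ N)
  (P P' : Finset ℕ) (hP : ∀ p : ℕ, p ∈ P ↔ p.Prime ∧ z0 < p ∧ p ≤ z ∧ ¬ p ∣ N) (hz0 : ∀ p : ℕ, p.Prime → p ≤ z0 → p ∣ N)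
  (hP' : ∀ p ∈ P', p.Prime ∧ z0 < p ∧ p ≤ z) (hz : 0 < z) (hzN : z ≤ N)
include h hq hqN hP hz0 hP' hz hzN

open Classical in
theorem count4 : (((Rg N P).filter (fun n => n.Prime ∧ z < n ∧ ¬ n ∣ N ∧ ¬ Squarefree (N - n))).card : ℝ) ≤ N / z := by
  have hzR : (0 : ℝ) < z := by exact_mod_cast hz
  have hsub : (Rg N P).filter (fun n => n.Prime ∧ z < n ∧ ¬ n ∣ N ∧ ¬ Squarefree (N - n)) ⊆
      (Ioc z N).biUnion (fun r => (Ico 1 N).filter (fun n => r * r ∣ N - n)) := by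
    intro n hn
    rw [mem_filter] at hn
    obtain ⟨hn1, hn2, hn3, hn4, hn5⟩ := hn
    have hn1' := hn1
    unfold Rg at hn1'
    rw [mem_filter, mem_Ico] at hn1'
    rw [Nat.squarefree_iff_prime_squarefree] at hn5
    push Not at hn5
    obtain ⟨r, r1, r2⟩ := hn5
    have h1 := large_factor h hq N z z0 hqN P P' hP hz0 hP' hz hzN n hn1 hn2 hn4 r r1 ((dvd_mul_right r r).trans r2)
    have h2 : r ≤ N := by
      have := Nat.le_of_dvd (by omega) ((dvd_mul_right r r).trans r2)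
      omega
    rw [mem_biUnion]
    exact ⟨r, mem_Ioc.2 ⟨h1.1, h2⟩, mem_filter.2 ⟨mem_Ico.2 (by omega), r2⟩⟩
  have h1 := (Finset.card_le_card hsub).trans Finset.card_biUnion_le
  have h2 : (((Rg N P).filter (fun n => n.Prime ∧ z < n ∧ ¬ n ∣ N ∧ ¬ Squarefree (N - n))).card : ℝ) ≤
      ∑ r ∈ Ioc z N, (((Ico 1 N).filter (fun n => r * r ∣ N - n)).card : ℝ) := by exact_mod_cast h1
  refine h2.trans ?_
  have h3 : ∀ r ∈ Ioc z N, (((Ico 1 N).filter (fun n => r * r ∣ N - n)).card : ℝ) ≤ N * ((r : ℝ) ^ 2)⁻¹ := by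
    intro r hr
    rw [mem_Ioc] at hr
    have h4 : ((Ico 1 N).filter (fun n => r * r ∣ N - n)).card ≤ ((Ioc 0 N).filter (fun n => r * r ∣ n)).card := by
      apply Finset.card_le_card_of_injOn (fun n => N - n)
      · intro n hn
        rw [Finset.mem_coe, mem_filter, mem_Ico] at hn
        rw [Finset.mem_coe, mem_filter, mem_Ioc]
        exact ⟨⟨Nat.sub_pos_of_lt hn.1.2, Nat.sub_le _ _⟩, hn.2⟩
      · intro n hn n' hn' heq
        rw [Finset.mem_coe, mem_filter, mem_Ico] at hn hn'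
        simp only at heq
        omega
    rw [Nat.Ioc_filter_dvd_card_eq_div] at h4
    have h5 : ((N / (r * r) : ℕ) : ℝ) ≤ (N : ℝ) / ((r * r : ℕ) : ℝ) := Nat.cast_div_le
    have h6 : (((Ico 1 N).filter (fun n => r * r ∣ N - n)).card : ℝ) ≤ ((N / (r * r) : ℕ) : ℝ) := by exact_mod_cast h4
    refine h6.trans (h5.trans (le_of_eq ?_))
    push_cast
    rw [div_eq_mul_inv, pow_two]
  calc _ ≤ ∑ r ∈ Ioc z N, (N : ℝ) * ((r : ℝ) ^ 2)⁻¹ := sum_le_sum h3
    _ = N * ∑ r ∈ Ioc z N, ((r : ℝ) ^ 2)⁻¹ := by rw [Finset.mul_sum]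
    _ ≤ N * ((z : ℝ)⁻¹ - (N : ℝ)⁻¹) := by
        gcongr
        exact sum_Ioc_inv_sq_le_sub hz.ne' hzN
    _ ≤ N * (z : ℝ)⁻¹ := by
        gcongr
        have : 0 ≤ ((N : ℝ)⁻¹) := by positivity
        linarith
    _ = N / z := by rw [div_eq_mul_inv]

open Classical in
theorem bad_total : ∑ n ∈ (Rg N P).filter (fun n => ¬ Good χ N n), vonMangoldt n ≤
    Real.log N * (2 * √(N : ℝ) + 1 + z + N / z + 2 * ∑ e ∈ EE N z, U χ N P' e) := by
  have hN0 : 0 < N := by omega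
  have hNR : (1 : ℝ) ≤ N := by exact_mod_cast hN0
  have hlog : 0 ≤ Real.log N := Real.log_nonneg hNR
  have hL : ∀ n ∈ Ico 1 N, vonMangoldt n ≤ Real.log N := by
    intro n hn
    rw [mem_Ico] at hn
    refine ArithmeticFunction.vonMangoldt_le_log.trans (Real.log_le_log (by exact_mod_cast hn.1) (by exact_mod_cast hn.2.le))
  have hsubR : Rg N P ⊆ Ico 1 N := by unfold Rg; exact filter_subset _ _
  -- the six parts
  have c1 : ∑ n ∈ (Rg N P).filter (fun n => ¬ n.Prime), vonMangoldt n ≤ 2 * √(N : ℝ) * Real.log N := by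
    have h1 := Chebyshev.psi_sub_theta_le hNR
    rw [Chebyshev.psi_sub_theta_eq_sum_not_prime, Nat.floor_natCast] at h1
    refine le_trans ?_ h1
    apply Finset.sum_le_sum_of_subset_of_nonneg
    · intro n hn
      rw [mem_filter] at hn ⊢
      have := hsubR hn.1
      rw [mem_Ico] at this
      rw [mem_Ioc]
      exact ⟨by omega, hn.2⟩
    · intro n _ _
      exact ArithmeticFunction.vonMangoldt_nonneg
  have c2 : ∑ n ∈ (Rg N P).filter (fun n => n.Prime ∧ n ∣ N), vonMangoldt n ≤ Real.log N := by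
    have h1 : ∑ n ∈ (Rg N P).filter (fun n => n.Prime ∧ n ∣ N), vonMangoldt n ≤ ∑ n ∈ N.primeFactors, vonMangoldt n := by
      apply Finset.sum_le_sum_of_subset_of_nonneg
      · intro n hn
        rw [mem_filter] at hn
        exact Nat.mem_primeFactors.2 ⟨hn.2.1, hn.2.2, hN0.ne'⟩
      · intro n _ _
        exact ArithmeticFunction.vonMangoldt_nonneg
    refine h1.trans ?_
    have h2 : ∑ n ∈ N.primeFactors, vonMangoldt n = Real.log (∏ n ∈ N.primeFactors, (n : ℝ)) := by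
      rw [Real.log_prod (fun n hn => by
        have := (Nat.prime_of_mem_primeFactors hn).pos
        positivity)]
      apply sum_congr rfl
      intro n hn
      exact ArithmeticFunction.vonMangoldt_apply_prime (Nat.prime_of_mem_primeFactors hn)
    rw [h2]
    apply Real.log_le_log
    · apply Finset.prod_pos
      intro n hn
      exact_mod_cast (Nat.prime_of_mem_primeFactors hn).pos
    · have h3 := Nat.le_of_dvd hN0 (Nat.prod_primeFactors_dvd N)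
      have h4 : ((∏ n ∈ N.primeFactors, n : ℕ) : ℝ) ≤ N := by exact_mod_cast h3
      rwa [Nat.cast_prod] at h4
  have cgen : ∀ (S : Finset ℕ), S ⊆ Rg N P → ∑ n ∈ S, vonMangoldt n ≤ S.card * Real.log N := by
    intro S hS
    calc ∑ n ∈ S, vonMangoldt n ≤ ∑ n ∈ S, Real.log N := sum_le_sum fun n hn => hL n (hsubR (hS hn))
      _ = S.card * Real.log N := by rw [sum_const, nsmul_eq_mul]
  have c3 : ∑ n ∈ (Rg N P).filter (fun n => n ≤ z), vonMangoldt n ≤ z * Real.log N := by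
    refine (cgen _ (filter_subset _ _)).trans ?_
    have h1 : ((Rg N P).filter (fun n => n ≤ z)).card ≤ (Icc 1 z).card := by
      apply Finset.card_le_card
      intro n hn
      rw [mem_filter] at hn
      have := hsubR hn.1
      rw [mem_Ico] at this
      rw [mem_Icc]
      omega
    rw [Nat.card_Icc, Nat.add_sub_cancel] at h1
    have h2 : (((Rg N P).filter (fun n => n ≤ z)).card : ℝ) ≤ z := by exact_mod_cast h1
    gcongr
  have c4 : ∑ n ∈ (Rg N P).filter (fun n => n.Prime ∧ z < n ∧ ¬ n ∣ N ∧ ¬ Squarefree (N - n)), vonMangoldt n ≤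
      N / z * Real.log N := by
    refine (cgen _ (filter_subset _ _)).trans ?_
    have := count4 h hq N z z0 hqN P P' hP hz0 hP' hz hzN
    gcongr
  have c5 : ∑ n ∈ (Rg N P).filter (fun n => n.Prime ∧ z < n ∧ ¬ n ∣ N ∧ cv χ n ≠ -1), vonMangoldt n ≤
      (∑ e ∈ EE N z, U χ N P' e) * Real.log N := by
    refine (cgen _ (filter_subset _ _)).trans ?_
    have h1 := count5 h hq N z z0 hqN P P' hP hz0 hP' hz hzN
    have h2 : U χ N P' 1 ≤ ∑ e ∈ EE N z, U χ N P' e := by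
      apply Finset.single_le_sum (f := fun e => U χ N P' e) (fun e _ => U_nonneg (by omega) h N P' e)
      unfold EE
      rw [mem_filter, mem_Icc]
      refine ⟨⟨le_rfl, Nat.div_pos hzN hz⟩, ?_⟩
      simp
    have h3 := h1.trans h2
    gcongr
  have c6 : ∑ n ∈ (Rg N P).filter (fun n => n.Prime ∧ z < n ∧ ¬ n ∣ N ∧ ∃ r : ℕ, r.Prime ∧ r ∣ N - n ∧ cv χ r ≠ -1),
      vonMangoldt n ≤ (∑ e ∈ EE N z, U χ N P' e) * Real.log N := by
    refine (cgen _ (filter_subset _ _)).trans ?_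
    have h1 := count6 h hq N z z0 hqN P P' hP hz0 hP' hz hzN
    gcongr
  -- the cover
  have hcov : ∑ n ∈ (Rg N P).filter (fun n => ¬ Good χ N n), vonMangoldt n ≤
      ∑ n ∈ (Rg N P).filter (fun n => ¬ n.Prime), vonMangoldt n +
      ∑ n ∈ (Rg N P).filter (fun n => n.Prime ∧ n ∣ N), vonMangoldt n +
      ∑ n ∈ (Rg N P).filter (fun n => n ≤ z), vonMangoldt n +
      ∑ n ∈ (Rg N P).filter (fun n => n.Prime ∧ z < n ∧ ¬ n ∣ N ∧ ¬ Squarefree (N - n)), vonMangoldt n +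
      ∑ n ∈ (Rg N P).filter (fun n => n.Prime ∧ z < n ∧ ¬ n ∣ N ∧ cv χ n ≠ -1), vonMangoldt n +
      ∑ n ∈ (Rg N P).filter (fun n => n.Prime ∧ z < n ∧ ¬ n ∣ N ∧ ∃ r : ℕ, r.Prime ∧ r ∣ N - n ∧ cv χ r ≠ -1),
        vonMangoldt n := by
    simp only [Finset.sum_filter]
    rw [← sum_add_distrib, ← sum_add_distrib, ← sum_add_distrib, ← sum_add_distrib, ← sum_add_distrib]
    apply sum_le_sum
    intro n _
    have hv : (0 : ℝ) ≤ vonMangoldt n := ArithmeticFunction.vonMangoldt_nonneg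
    by_cases hg : Good χ N n
    · rw [if_neg (not_not.2 hg)]
      positivity
    · rw [if_pos hg]
      have i0 : ∀ (p : Prop) [Decidable p], 0 ≤ (if p then vonMangoldt n else 0) := by
        intro p _; split_ifs
        · exact hv
        · exact le_rfl
      by_cases k1 : n.Prime
      swap
      · rw [if_pos k1]
        have := i0 (n.Prime ∧ n ∣ N)
        have := i0 (n ≤ z)
        have := i0 (n.Prime ∧ z < n ∧ ¬ n ∣ N ∧ ¬ Squarefree (N - n))
        have := i0 (n.Prime ∧ z < n ∧ ¬ n ∣ N ∧ cv χ n ≠ -1)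
        have := i0 (n.Prime ∧ z < n ∧ ¬ n ∣ N ∧ ∃ r : ℕ, r.Prime ∧ r ∣ N - n ∧ cv χ r ≠ -1)
        linarith
      have j1 := i0 (¬ n.Prime)
      by_cases k2 : n ∣ N
      · rw [if_pos (⟨k1, k2⟩ : n.Prime ∧ n ∣ N)]
        have := i0 (n ≤ z)
        have := i0 (n.Prime ∧ z < n ∧ ¬ n ∣ N ∧ ¬ Squarefree (N - n))
        have := i0 (n.Prime ∧ z < n ∧ ¬ n ∣ N ∧ cv χ n ≠ -1)
        have := i0 (n.Prime ∧ z < n ∧ ¬ n ∣ N ∧ ∃ r : ℕ, r.Prime ∧ r ∣ N - n ∧ cv χ r ≠ -1)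
        linarith
      have j2 := i0 (n.Prime ∧ n ∣ N)
      by_cases k3 : n ≤ z
      · rw [if_pos k3]
        have := i0 (n.Prime ∧ z < n ∧ ¬ n ∣ N ∧ ¬ Squarefree (N - n))
        have := i0 (n.Prime ∧ z < n ∧ ¬ n ∣ N ∧ cv χ n ≠ -1)
        have := i0 (n.Prime ∧ z < n ∧ ¬ n ∣ N ∧ ∃ r : ℕ, r.Prime ∧ r ∣ N - n ∧ cv χ r ≠ -1)
        linarith
      have j3 := i0 (n ≤ z)
      have k3' : z < n := by omega
      by_cases k4 : Squarefree (N - n)
      swap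
      · rw [if_pos (⟨k1, k3', k2, k4⟩ : n.Prime ∧ z < n ∧ ¬ n ∣ N ∧ ¬ Squarefree (N - n))]
        have := i0 (n.Prime ∧ z < n ∧ ¬ n ∣ N ∧ cv χ n ≠ -1)
        have := i0 (n.Prime ∧ z < n ∧ ¬ n ∣ N ∧ ∃ r : ℕ, r.Prime ∧ r ∣ N - n ∧ cv χ r ≠ -1)
        linarith
      have j4 := i0 (n.Prime ∧ z < n ∧ ¬ n ∣ N ∧ ¬ Squarefree (N - n))
      by_cases k5 : cv χ n = -1
      swap
      · rw [if_pos (⟨k1, k3', k2, k5⟩ : n.Prime ∧ z < n ∧ ¬ n ∣ N ∧ cv χ n ≠ -1)]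
        have := i0 (n.Prime ∧ z < n ∧ ¬ n ∣ N ∧ ∃ r : ℕ, r.Prime ∧ r ∣ N - n ∧ cv χ r ≠ -1)
        linarith
      have j5 := i0 (n.Prime ∧ z < n ∧ ¬ n ∣ N ∧ cv χ n ≠ -1)
      have k6 : ∃ r : ℕ, r.Prime ∧ r ∣ N - n ∧ cv χ r ≠ -1 := by
        by_contra hno
        push Not at hno
        exact hg ⟨k1, k2, k5, k4, hno⟩
      rw [if_pos (⟨k1, k3', k2, k6⟩ : n.Prime ∧ z < n ∧ ¬ n ∣ N ∧ ∃ r : ℕ, r.Prime ∧ r ∣ N - n ∧ cv χ r ≠ -1)]
      linarith
  refine hcov.trans ?_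
  nlinarith

end

end Pool.Agent.H534.SZ
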