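import Pool.Agent.H534.SZ.Per

/-! The distribution of `∑_{d ∣ n} χ(d)` over the integers `n` coprime to `q` with a periodic condition. -/

set_option autoImplicit false

namespace Pool.Agent.H534.SZ

open Finset
open Pool.Agent.E8helper22.SZ

/-- divisor sums as double sums -/
theorem dsum (x : ℕ) (F : ℕ → ℕ → ℝ) :
    ∑ n ∈ Icc 1 x, ∑ d ∈ n.divisors, F d (n / d) = ∑ d ∈ Icc 1 x, ∑ e ∈ Icc 1 (x / d), F d e := by
  rw [Finset.sum_sigma', Finset.sum_sigma']
  refine Finset.sum_nbij' (fun p => ⟨p.2, p.1 / p.2⟩) (fun p => ⟨p.1 * p.2, p.1⟩) ?_ ?_ ?_ ?_ ?_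
  · rintro ⟨n, d⟩ h
    simp only [mem_sigma, mem_Icc, Nat.mem_divisors] at h ⊢
    obtain ⟨⟨h1, h2⟩, h3, h4⟩ := h
    have hd : 0 < d := Nat.pos_of_dvd_of_pos h3 (by omega)
    refine ⟨⟨hd, (Nat.le_of_dvd (by omega) h3).trans h2⟩, ?_, Nat.div_le_div_right h2⟩
    exact Nat.div_pos (Nat.le_of_dvd (by omega) h3) hd
  · rintro ⟨d, e⟩ h
    simp only [mem_sigma, mem_Icc, Nat.mem_divisors] at h ⊢
    obtain ⟨⟨h1, h2⟩, h3, h4⟩ := h
    have h5 : d * e ≤ x := by
      rw [Nat.le_div_iff_mul_le (by omega)] at h4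
      rw [mul_comm]; exact h4
    have h6 : 0 < d * e := Nat.mul_pos (by omega) (by omega)
    exact ⟨⟨h6, h5⟩, dvd_mul_right _ _, by omega⟩
  · rintro ⟨n, d⟩ h
    simp only [mem_sigma, mem_Icc, Nat.mem_divisors] at h
    obtain ⟨⟨h1, h2⟩, h3, h4⟩ := h
    simp only [Nat.mul_div_cancel' h3]
  · rintro ⟨d, e⟩ h
    simp only [mem_sigma, mem_Icc] at h
    have hd : 0 < d := by omega
    simp only [Nat.mul_div_cancel_left _ hd]
  · rintro ⟨n, d⟩ _
    rfl

theorem hyp_split (x Y : ℕ) (hY : 0 < Y) (hYx : Y ≤ x) (F : ℕ → ℕ → ℝ) :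
    ∑ d ∈ Icc 1 x, ∑ e ∈ Icc 1 (x / d), F d e =
      ∑ d ∈ Icc 1 Y, ∑ e ∈ Icc 1 (x / d), F d e + ∑ e ∈ Icc 1 (x / Y), ∑ d ∈ Ioc Y (x / e), F d e := by
  have h1 : Icc 1 x = Icc 1 Y ∪ Ioc Y x := by
    ext d; simp only [mem_union, mem_Icc, mem_Ioc]; omega
  have h2 : Disjoint (Icc 1 Y) (Ioc Y x) := by
    rw [Finset.disjoint_left]
    intro d h3 h4
    rw [mem_Icc] at h3
    rw [mem_Ioc] at h4
    omega
  rw [h1, Finset.sum_union h2]
  congr 1
  apply Finset.sum_comm'
  intro d e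
  simp only [mem_Icc, mem_Ioc]
  constructor
  · rintro ⟨⟨h3, h4⟩, h5, h6⟩
    have hd : 0 < d := by omega
    rw [Nat.le_div_iff_mul_le hd] at h6
    refine ⟨⟨h3, ?_⟩, h5, ?_⟩
    · rw [Nat.le_div_iff_mul_le (by omega), mul_comm]; exact h6
    · rw [Nat.le_div_iff_mul_le hY]
      exact (Nat.mul_le_mul_left e h3.le).trans h6
  · rintro ⟨⟨h3, h4⟩, h5, h6⟩
    rw [Nat.le_div_iff_mul_le (by omega)] at h4
    have hd : 0 < d := by omega
    refine ⟨⟨h3, ?_⟩, h5, ?_⟩
    · exact le_trans (Nat.le_mul_of_pos_right d (by omega)) h4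
    · rw [Nat.le_div_iff_mul_le hd, mul_comm]; exact h4

/-- the weight -/
noncomputable def wt {q : ℕ} (χ : DirichletCharacter ℂ q) (n : ℕ) : ℝ := if n.Coprime q then tau χ n else 0

theorem wt_nonneg {q : ℕ} {χ : DirichletCharacter ℂ q} (hq : 0 < q) (h : RealPrim q χ) (n : ℕ) (hn : 0 < n) :
    0 ≤ wt χ n := by
  unfold wt
  split_ifs
  · exact (Pool.Agent.E8helper63.SZ.t_POS q χ hq h n hn).1
  · exact le_rfl

theorem wt_eq {q : ℕ} {χ : DirichletCharacter ℂ q} (h : RealPrim q χ) (n : ℕ) :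
    wt χ n = ∑ d ∈ n.divisors, cv χ d * (if (n / d).Coprime q then 1 else 0) := by
  unfold wt tau
  split_ifs with hc
  · apply sum_congr rfl
    intro d hd
    have h1 : (n / d).Coprime q := Nat.Coprime.coprime_dvd_left (Nat.div_dvd_of_dvd (Nat.dvd_of_mem_divisors hd)) hc
    rw [if_pos h1, mul_one]
  · symm
    apply sum_eq_zero
    intro d hd
    by_cases h1 : (n / d).Coprime q
    · have h2 : ¬ d.Coprime q := by
        intro h3
        apply hc
        have h4 := Nat.Coprime.mul_left h3 h1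
        rwa [Nat.mul_div_cancel' (Nat.dvd_of_mem_divisors hd)] at h4
      rw [(cv_zero_iff h d).2 h2, zero_mul]
    · rw [if_neg h1, mul_zero]

/-- the number of `e` modulo `u q`, prime to `q`, with the condition at `d e` -/
noncomputable def cnt (q u : ℕ) (R : ℕ → Prop) [DecidablePred R] (d : ℕ) : ℝ :=
  ∑ e ∈ range (u * q), (if e.Coprime q then 1 else 0) * (if R (d * e) then 1 else 0)

theorem dist (q : ℕ) [NeZero q] (χ : DirichletCharacter ℂ q) (hq : 1 < q) (hχ : RealPrim q χ) (u : ℕ) (hu : 0 < u)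
    (huq : u.Coprime q) (R : ℕ → Prop) [DecidablePred R] (hR : ∀ n n' : ℕ, n ≡ n' [MOD u] → (R n ↔ R n'))
    (x Y : ℕ) (hY : 0 < Y) (hYx : Y ≤ x) :
    |∑ n ∈ (Icc 1 x).filter R, wt χ n - ∑ d ∈ Icc 1 Y, cv χ d * ((x : ℝ) / d) * (cnt q u R d / (u * q : ℕ))| ≤
      3 * (u * q : ℕ) * Y + 2 * (u * q : ℕ) * ((x : ℝ) / Y) := by
  set m := u * q with hm
  have hq0 : 0 < q := by omega
  have hm0 : 0 < m := Nat.mul_pos hu hq0
  have hmR : (0 : ℝ) < m := by exact_mod_cast hm0
  set F : ℕ → ℕ → ℝ := fun d e => cv χ d * ((if e.Coprime q then 1 else 0) * (if R (d * e) then 1 else 0)) with hF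
  have e1 : ∑ n ∈ (Icc 1 x).filter R, wt χ n = ∑ n ∈ Icc 1 x, ∑ d ∈ n.divisors, F d (n / d) := by
    rw [Finset.sum_filter]
    apply sum_congr rfl
    intro n _
    rw [wt_eq hχ]
    split_ifs with hRn
    · apply sum_congr rfl
      intro d hd
      simp only [hF]
      rw [Nat.mul_div_cancel' (Nat.dvd_of_mem_divisors hd), if_pos hRn, mul_one]
    · symm
      apply sum_eq_zero
      intro d hd
      simp only [hF]
      rw [Nat.mul_div_cancel' (Nat.dvd_of_mem_divisors hd), if_neg hRn, mul_zero, mul_zero]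
  rw [e1, dsum, hyp_split x Y hY hYx]
  have hcop : ∀ e : ℕ, (e + m).Coprime q ↔ e.Coprime q := by
    intro e
    rw [hm]
    simp [Nat.coprime_add_mul_left_left, Nat.coprime_add_mul_right_left]
  -- first part
  have A : |∑ d ∈ Icc 1 Y, ∑ e ∈ Icc 1 (x / d), F d e - ∑ d ∈ Icc 1 Y, cv χ d * ((x : ℝ) / d) * (cnt q u R d / m)| ≤
      3 * m * Y := by
    rw [← Finset.sum_sub_distrib]
    refine (Finset.abs_sum_le_sum_abs _ _).trans ?_
    have h1 : ∀ d ∈ Icc 1 Y, |∑ e ∈ Icc 1 (x / d), F d e - cv χ d * ((x : ℝ) / d) * (cnt q u R d / m)| ≤ 3 * m := by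
      intro d hd
      rw [mem_Icc] at hd
      have hdR : (0 : ℝ) < d := by exact_mod_cast (by omega : 0 < d)
      set f : ℕ → ℝ := fun e => (if e.Coprime q then 1 else 0) * (if R (d * e) then 1 else 0) with hf
      have hf1 : ∀ n, |f n| ≤ 1 := by
        intro n; simp only [hf]; split_ifs <;> simp
      have hf2 : ∀ n, f (n + m) = f n := by
        intro n
        simp only [hf]
        have h3 : R (d * (n + m)) ↔ R (d * n) := by
          apply hR
          have h4 : d * (n + m) = d * n + u * (d * q) := by rw [hm]; ring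
          rw [h4]
          simp [Nat.ModEq]
        have h5 := hcop n
        simp only [h3, h5]
      have h2 := per_sum m hm0 f hf1 hf2 0 (x / d) (Nat.zero_le _)
      have h3 : Ioc 0 (x / d) = Icc 1 (x / d) := by
        ext e; simp only [mem_Ioc, mem_Icc]; omega
      rw [h3, Nat.cast_zero, sub_zero] at h2
      have h4 : cnt q u R d = ∑ i ∈ range m, f i := rfl
      rw [← h4] at h2
      have h5 : ∑ e ∈ Icc 1 (x / d), F d e = cv χ d * ∑ e ∈ Icc 1 (x / d), f e := by
        rw [Finset.mul_sum]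
      have h6 : |cnt q u R d / m| ≤ 1 := by
        rw [h4, abs_div, abs_of_pos hmR, div_le_one hmR]
        calc |∑ i ∈ range m, f i| ≤ ∑ i ∈ range m, |f i| := Finset.abs_sum_le_sum_abs _ _
          _ ≤ ∑ i ∈ range m, (1 : ℝ) := sum_le_sum fun i _ => hf1 i
          _ = m := by simp
      have h7 : |((x / d : ℕ) : ℝ) - (x : ℝ) / d| ≤ 1 := by
        have h8 : ((x / d : ℕ) : ℝ) ≤ (x : ℝ) / d := Nat.cast_div_le
        have h9 : (x : ℝ) / d < ((x / d : ℕ) : ℝ) + 1 := by
          rw [← Nat.floor_div_eq_div (K := ℝ)]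
          exact Nat.lt_floor_add_one _
        rw [abs_le]
        constructor <;> linarith
      rw [h5]
      have h8 : cv χ d * ∑ e ∈ Icc 1 (x / d), f e - cv χ d * ((x : ℝ) / d) * (cnt q u R d / m) =
          cv χ d * ((∑ e ∈ Icc 1 (x / d), f e - ((x / d : ℕ) : ℝ) * (cnt q u R d / m)) +
            (((x / d : ℕ) : ℝ) - (x : ℝ) / d) * (cnt q u R d / m)) := by ring
      rw [h8, abs_mul]
      have h9 : |(∑ e ∈ Icc 1 (x / d), f e - ((x / d : ℕ) : ℝ) * (cnt q u R d / m)) +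
            (((x / d : ℕ) : ℝ) - (x : ℝ) / d) * (cnt q u R d / m)| ≤ 2 * m + 1 * 1 := by
        refine (abs_add_le _ _).trans (add_le_add h2 ?_)
        rw [abs_mul]
        exact mul_le_mul h7 h6 (abs_nonneg _) (by norm_num)
      have hm1 : (1 : ℝ) ≤ m := by exact_mod_cast hm0
      calc |cv χ d| * _ ≤ 1 * (2 * m + 1 * 1) := mul_le_mul (cv_abs hχ d) h9 (abs_nonneg _) (by norm_num)
        _ ≤ 3 * m := by linarith
    calc _ ≤ ∑ d ∈ Icc 1 Y, 3 * (m : ℝ) := sum_le_sum h1
      _ = 3 * m * Y := by rw [sum_const, Nat.card_Icc, nsmul_eq_mul]; simp; ring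
  -- second part
  have B : |∑ e ∈ Icc 1 (x / Y), ∑ d ∈ Ioc Y (x / e), F d e| ≤ 2 * m * ((x : ℝ) / Y) := by
    refine (Finset.abs_sum_le_sum_abs _ _).trans ?_
    have h1 : ∀ e ∈ Icc 1 (x / Y), |∑ d ∈ Ioc Y (x / e), F d e| ≤ 2 * m := by
      intro e he
      rw [mem_Icc] at he
      have hYe : Y ≤ x / e := by
        rw [Nat.le_div_iff_mul_le (by omega)]
        have := he.2
        rw [Nat.le_div_iff_mul_le hY] at this
        rw [mul_comm]; exact this
      set f : ℕ → ℝ := fun d => F d e with hf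
      have hf1 : ∀ n, |f n| ≤ 1 := by
        intro n; simp only [hf, hF]
        rw [abs_mul]
        have := cv_abs hχ n
        split_ifs <;> simp [this]
      have hf2 : ∀ n, f (n + m) = f n := by
        intro n
        simp only [hf, hF]
        have h3 : R ((n + m) * e) ↔ R (n * e) := by
          apply hR
          have h4 : (n + m) * e = n * e + u * (q * e) := by rw [hm]; ring
          rw [h4]
          simp [Nat.ModEq]
        have h5 : cv χ (n + m) = cv χ n := by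
          rw [← cv_mod, hm, Nat.add_mul_mod_self_right, cv_mod]
        simp only [h3, h5]
      have h2 := per_sum m hm0 f hf1 hf2 Y (x / e) hYe
      have h3 : ∑ i ∈ range m, f i = 0 := by
        have h4 : ∀ i, f i = (if R (i % u * e) then 1 else 0) * ((if e.Coprime q then 1 else 0) * cv χ (i % q)) := by
          intro i
          simp only [hf, hF]
          have h3 : R (i % u * e) ↔ R (i * e) := by
            apply hR
            exact Nat.ModEq.mul_right e (Nat.mod_modEq _ _)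
          rw [cv_mod]
          simp only [h3]
          ring
        rw [sum_congr rfl (fun i _ => h4 i), hm]
        rw [crt_sum u q hu hq0 huq (fun i => if R (i * e) then 1 else 0)
          (fun i => (if e.Coprime q then 1 else 0) * cv χ i)]
        rw [← Finset.mul_sum, sum_cv hq hχ]
        simp
      rw [h3] at h2
      simpa using h2
    have h2 : ((x / Y : ℕ) : ℝ) ≤ (x : ℝ) / Y := Nat.cast_div_le
    calc _ ≤ ∑ e ∈ Icc 1 (x / Y), 2 * (m : ℝ) := sum_le_sum h1
      _ = 2 * m * ((x / Y : ℕ) : ℝ) := by rw [sum_const, Nat.card_Icc, nsmul_eq_mul]; simp; ring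
      _ ≤ 2 * m * ((x : ℝ) / Y) := by gcongr
  have e2 : ∀ a b c : ℝ, a + b - c = (a - c) + b := by intros; ring
  rw [e2]
  refine (abs_add_le _ _).trans (add_le_add A B)

end Pool.Agent.H534.SZ
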