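import Pool.Agent.H534.SZ.ZerC

/-! The core inequality. -/

set_option autoImplicit false

namespace Pool.Agent.H534.SZ

open Finset
open Pool.Agent.E8helper22.SZ
open ArithmeticFunction (vonMangoldt moebius)
open Pool.Agent.Y889.PN (PS)

/-- the constant of Mertens' theorem -/
def Mert (C : ℝ) : Prop := 0 < C ∧ ∀ (J t : ℕ) (Q : Finset ℕ), (∀ p ∈ Q, p.Prime ∧ 2 ^ 2 ^ J < p ∧ p ≤ 2 ^ 2 ^ (J + t)) →
    ∑ p ∈ Q, (1 : ℝ) / p ≤ t * Real.log 2 + C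

/-- the primes for the main sieve -/
def PP (z0 z N : ℕ) : Finset ℕ := (Icc 1 z).filter (fun p => p.Prime ∧ z0 < p ∧ ¬ p ∣ N)

theorem mem_PP (z0 z N p : ℕ) : p ∈ PP z0 z N ↔ p.Prime ∧ z0 < p ∧ p ≤ z ∧ ¬ p ∣ N := by
  unfold PP
  rw [mem_filter, mem_Icc]
  constructor
  · rintro ⟨⟨_, h2⟩, h3, h4, h5⟩
    exact ⟨h3, h4, h2, h5⟩
  · rintro ⟨h3, h4, h2, h5⟩
    exact ⟨⟨h3.pos, h2⟩, h3, h4, h5⟩

/-- the product of the main sieve -/
noncomputable def VV (z0 z N : ℕ) : ℝ := ∏ p ∈ PP z0 z N, (1 - 1 / ((p : ℝ) - 1))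

/-- the product with the character -/
noncomputable def HH {q : ℕ} (χ : DirichletCharacter ℂ q) (z0 z : ℕ) : ℝ := ∏ p ∈ PP z0 z q, ((1 - cv χ p / p) * (1 - 1 / (p : ℝ)))

theorem HH_nonneg {q : ℕ} {χ : DirichletCharacter ℂ q} (hχ : RealPrim q χ) (z0 z : ℕ) : 0 ≤ HH χ z0 z ∧ HH χ z0 z ≤ 1 := by
  have h : ∀ p ∈ PP z0 z q, 0 ≤ (1 - cv χ p / p) * (1 - 1 / (p : ℝ)) ∧ (1 - cv χ p / p) * (1 - 1 / (p : ℝ)) ≤ 1 := by
    intro p hp
    rw [mem_PP] at hp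
    have hp2 : (2 : ℝ) ≤ p := by exact_mod_cast hp.1.two_le
    have h1 := abs_le.1 (cv_abs hχ p)
    have h5 : 1 / (p : ℝ) ≤ 1 / 2 := by gcongr
    have h6 : cv χ p / p ≤ 1 / p := by gcongr; exact h1.2
    have h7 : -(1 / (p : ℝ)) ≤ cv χ p / p := by
      rw [neg_div', div_le_div_iff_of_pos_right (by linarith)]; exact h1.1
    have h8 : 0 ≤ 1 / (p : ℝ) := by positivity
    constructor
    · apply mul_nonneg <;> linarith
    · calc (1 - cv χ p / p) * (1 - 1 / (p : ℝ)) ≤ (1 + 1 / p) * (1 - 1 / p) := by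
            apply mul_le_mul_of_nonneg_right _ (by linarith)
            linarith
        _ = 1 - (1 / p) * (1 / p) := by ring
        _ ≤ 1 := by nlinarith
  constructor
  · exact Finset.prod_nonneg fun p hp => (h p hp).1
  · exact Finset.prod_le_one (fun p hp => (h p hp).1) fun p hp => (h p hp).2

theorem VV_pos (z0 z N : ℕ) (hz0 : 10 ≤ z0) : 0 < VV z0 z N := by
  apply Finset.prod_pos
  intro p hp
  rw [mem_PP] at hp
  have : (10 : ℝ) < p := by exact_mod_cast (by omega : 10 < p)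
  rw [sub_pos, div_lt_one (by linarith)]
  linarith

/-- the local factors -/
theorem W_eq {q : ℕ} (χ : DirichletCharacter ℂ q) (N z0 z' e : ℕ) (hqN : q ∣ N) (he : ∀ p ∈ e.primeFactors, z' < p) (he0 : 0 < e) :
    ∏ p ∈ PP z0 z' q, (1 - gd χ (res N e) p) = HH χ z0 z' * VV z0 z' N := by
  have h1 : VV z0 z' N = ∏ p ∈ PP z0 z' q, (if p ∣ N then 1 else (1 - 1 / ((p : ℝ) - 1))) := by
    unfold VV
    have h2 : PP z0 z' N = (PP z0 z' q).filter (fun p => ¬ p ∣ N) := by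
      ext p
      rw [mem_filter, mem_PP, mem_PP]
      constructor
      · rintro ⟨a1, a2, a3, a4⟩
        exact ⟨⟨a1, a2, a3, fun h => a4 (h.trans hqN)⟩, a4⟩
      · rintro ⟨⟨a1, a2, a3, _⟩, a4⟩
        exact ⟨a1, a2, a3, a4⟩
    rw [h2, Finset.prod_filter]
    apply prod_congr rfl
    intro p _
    split_ifs <;> rfl
  rw [h1]
  unfold HH
  rw [← Finset.prod_mul_distrib]
  apply prod_congr rfl
  intro p hp
  rw [mem_PP] at hp
  obtain ⟨hp1, hp2, hp3, hp4⟩ := hp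
  rw [one_sub_gd χ _ p hp1]
  have hpe : ¬ p ∣ e := by
    intro h
    have := he p (Nat.mem_primeFactors.2 ⟨hp1, h, he0.ne'⟩)
    omega
  have hpR : (2 : ℝ) ≤ p := by exact_mod_cast hp1.two_le
  unfold cc
  rw [mul_assoc]
  congr 1
  have hdv := res_dvd N e p hp1 hpe
  by_cases h3 : p ∣ N
  · rw [if_pos (hdv.2 h3), if_pos h3]
    push_cast
    ring
  · rw [if_neg (fun h => h3 (hdv.1 h)), if_neg h3]
    have e1 : (p : ℝ) - 1 ≠ 0 := by linarith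
    have e2 : (p : ℝ) ≠ 0 := by linarith
    push_cast
    field_simp
    ring

theorem V_ratio {C : ℝ} (hC : Mert C) (z0 N J j0 : ℕ) (hj : j0 ≤ J) (hz0 : 10 ≤ z0) :
    VV z0 (2 ^ 2 ^ (J - j0)) N * Real.exp (-(j0 * Real.log 2 + C) - 6) ≤ VV z0 (2 ^ 2 ^ J) N := by
  have hle : 2 ^ 2 ^ (J - j0) ≤ 2 ^ 2 ^ J := Nat.pow_le_pow_right (by norm_num) (Nat.pow_le_pow_right (by norm_num) (by omega))
  set Q := (PP z0 (2 ^ 2 ^ J) N).filter (fun p => 2 ^ 2 ^ (J - j0) < p) with hQ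
  have h1 : VV z0 (2 ^ 2 ^ J) N = VV z0 (2 ^ 2 ^ (J - j0)) N * ∏ p ∈ Q, (1 - 1 / ((p : ℝ) - 1)) := by
    unfold VV
    rw [← Finset.prod_filter_mul_prod_filter_not (PP z0 (2 ^ 2 ^ J) N) (fun p => p ≤ 2 ^ 2 ^ (J - j0))]
    congr 1
    · apply prod_congr _ (fun _ _ => rfl)
      ext p
      rw [mem_filter, mem_PP, mem_PP]
      constructor
      · rintro ⟨⟨a1, a2, a3, a4⟩, a5⟩
        exact ⟨a1, a2, a5, a4⟩
      · rintro ⟨a1, a2, a5, a4⟩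
        exact ⟨⟨a1, a2, a5.trans hle, a4⟩, a5⟩
    · apply prod_congr _ (fun _ _ => rfl)
      rw [hQ]
      apply Finset.filter_congr
      intro p _
      exact not_le
  rw [h1]
  apply mul_le_mul_of_nonneg_left _ (VV_pos _ _ _ hz0).le
  have h2 := prod_lower Q (by
    intro p hp
    rw [hQ, mem_filter, mem_PP] at hp
    exact ⟨hp.1.1, by omega⟩)
  refine le_trans (Real.exp_le_exp.2 ?_) h2
  have h3 := hC.2 (J - j0) j0 Q (by
    intro p hp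
    rw [hQ, mem_filter, mem_PP] at hp
    refine ⟨hp.1.1, hp.2, ?_⟩
    rw [Nat.sub_add_cancel hj]
    exact hp.1.2.2.1)
  linarith

theorem sum_inv_EE {C : ℝ} (hC : Mert C) (N J t : ℕ) (hN : N ≤ 2 ^ 2 ^ (J + t)) :
    ∑ e ∈ EE N (2 ^ 2 ^ J), (1 : ℝ) / e ≤ Real.exp (2 * (t * Real.log 2 + C)) := by
  set Q := (Icc 1 N).filter (fun p => p.Prime ∧ 2 ^ 2 ^ J < p) with hQ
  have h1 := sum_rough Q (fun p hp => by rw [hQ, mem_filter] at hp; exact hp.2.1) (EE N (2 ^ 2 ^ J)) (by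
    intro e he
    unfold EE at he
    rw [mem_filter, mem_Icc] at he
    refine ⟨by omega, ?_⟩
    intro p hp
    have h2 := Nat.prime_of_mem_primeFactors hp
    have h3 := Nat.le_of_dvd (by omega) (Nat.dvd_of_mem_primeFactors hp)
    have h4 : N / 2 ^ 2 ^ J ≤ N := Nat.div_le_self _ _
    rw [hQ, mem_filter, mem_Icc]
    exact ⟨⟨h2.pos, by omega⟩, h2, he.2 p hp⟩)
  refine h1.trans (Real.exp_le_exp.2 ?_)
  have h3 := hC.2 J t Q (by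
    intro p hp
    rw [hQ, mem_filter, mem_Icc] at hp
    exact ⟨hp.2.1, hp.2.2, hp.1.2.trans hN⟩)
  linarith

theorem sum_sqrt (n : ℕ) : ∑ e ∈ Icc 1 n, 1 / √(e : ℝ) ≤ 2 * √(n : ℝ) := by
  induction n with
  | zero => simp
  | succ n ih =>
    rw [Finset.sum_Icc_succ_top (by omega)]
    have h1 : (0 : ℝ) < √((n + 1 : ℕ) : ℝ) := Real.sqrt_pos.2 (by positivity)
    have h2 : √((n + 1 : ℕ) : ℝ) * √((n + 1 : ℕ) : ℝ) = n + 1 := by
      rw [Real.mul_self_sqrt (by positivity)]; push_cast; ring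
    have h3 : √(n : ℝ) * √(n : ℝ) = n := Real.mul_self_sqrt (Nat.cast_nonneg _)
    have h4 : 0 ≤ √(n : ℝ) := Real.sqrt_nonneg _
    have h5 : 1 / √((n + 1 : ℕ) : ℝ) ≤ 2 * (√((n + 1 : ℕ) : ℝ) - √(n : ℝ)) := by
      rw [div_le_iff₀ h1]
      nlinarith [sq_nonneg (√((n + 1 : ℕ) : ℝ) - √(n : ℝ))]
    linarith

theorem sum_U (N1 : ℕ) (hFL : FL N1) (b z0 : ℕ) (hb : N1 * 3 + 2 * 3 + 10 ≤ b) (hz0 : N1 * 3 + 2 * 3 + 10 ≤ z0)
    {C : ℝ} (hC : Mert C) {q : ℕ} [NeZero q] {χ : DirichletCharacter ℂ q} (hq : 1 < q) (hχ : RealPrim q χ) (N J j0 t : ℕ)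
    (hqN : q ∣ N) (hj : j0 ≤ J) (hzN : 2 ^ 2 ^ J ≤ N) (hN : N ≤ 2 ^ 2 ^ (J + t)) :
    ∑ e ∈ EE N (2 ^ 2 ^ J), U χ N (PP z0 (2 ^ 2 ^ (J - j0)) q) e ≤
      2 * N * lam χ * (HH χ z0 (2 ^ 2 ^ (J - j0)) * VV z0 (2 ^ 2 ^ (J - j0)) N) * Real.exp (2 * (t * Real.log 2 + C)) +
      ((J : ℝ) + 2) * (22 * q * (((2 ^ 2 ^ (J - j0)) ^ ((N1 * 3 + 2 * 3 + 10) * b) : ℕ) : ℝ) ^ 2) *
        (N / √((2 ^ 2 ^ J : ℕ) : ℝ)) := by
  set z := 2 ^ 2 ^ J with hz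
  set z' := 2 ^ 2 ^ (J - j0) with hz'
  have hzz : z' ≤ z := Nat.pow_le_pow_right (by norm_num) (Nat.pow_le_pow_right (by norm_num) (by omega))
  have hz1 : 0 < z := by positivity
  have hzR : (0 : ℝ) < z := by exact_mod_cast hz1
  have hN0 : 0 < N := by omega
  have hNR : (0 : ℝ) < N := by exact_mod_cast hN0
  set D := (((2 ^ 2 ^ (J - j0)) ^ ((N1 * 3 + 2 * 3 + 10) * b) : ℕ) : ℝ) with hD
  have hD0 : 0 ≤ D := Nat.cast_nonneg _
  have hHV : 0 ≤ HH χ z0 z' * VV z0 z' N := mul_nonneg (HH_nonneg hχ z0 z').1 (VV_pos z0 z' N (by omega)).le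
  have hl0 := lam_nonneg hq hχ
  have h1 : ∀ e ∈ EE N z, U χ N (PP z0 z' q) e ≤
      2 * N * lam χ * (HH χ z0 z' * VV z0 z' N) * ((1 : ℝ) / e) + ((J : ℝ) + 2) * (11 * q * D ^ 2) * √(N : ℝ) * (1 / √(e : ℝ)) := by
    intro e he
    unfold EE at he
    rw [mem_filter, mem_Icc] at he
    obtain ⟨⟨he1, he2⟩, he3⟩ := he
    have heR : (0 : ℝ) < e := by exact_mod_cast he1
    have heN : e ≤ N := he2.trans (Nat.div_le_self _ _)
    have hx : 0 < N / e := Nat.div_pos heN he1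
    have h2 := upper N1 hFL b (J - j0) z0 hb hz0 hq hχ (res N e) (PP z0 z' q) (by
      intro p hp
      rw [mem_PP] at hp
      exact ⟨hp.1, hp.2.1, hp.2.2.1⟩) (by
      intro p hp
      rw [mem_PP] at hp
      exact hp.2.2.2) (N / e) hx
    rw [W_eq χ N z0 z' e hqN (fun p hp => lt_of_le_of_lt hzz (he3 p hp)) he1, ← hD] at h2
    unfold U
    refine h2.trans (add_le_add ?_ ?_)
    · have h3 : ((N / e : ℕ) : ℝ) ≤ (N : ℝ) / e := Nat.cast_div_le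
      have e1 : 2 * (((N / e : ℕ) : ℝ) * ((Nat.totient q : ℝ) / q) * Lr χ * (HH χ z0 z' * VV z0 z' N)) =
          2 * ((N / e : ℕ) : ℝ) * (lam χ * (HH χ z0 z' * VV z0 z' N)) := by unfold lam; ring
      have e2 : 2 * N * lam χ * (HH χ z0 z' * VV z0 z' N) * ((1 : ℝ) / e) =
          2 * ((N : ℝ) / e) * (lam χ * (HH χ z0 z' * VV z0 z' N)) := by ring
      rw [e1, e2]
      gcongr
    · have h3 : √((N / e : ℕ) : ℝ) ≤ √(N : ℝ) * (1 / √(e : ℝ)) := by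
        rw [mul_one_div, ← Real.sqrt_div hNR.le]
        exact Real.sqrt_le_sqrt Nat.cast_div_le
      have h4 : ((J - j0 : ℕ) : ℝ) ≤ J := by exact_mod_cast (Nat.sub_le _ _)
      calc (((J - j0 : ℕ) : ℝ) + 2) * (11 * q * √((N / e : ℕ) : ℝ) * D ^ 2) ≤
            ((J : ℝ) + 2) * (11 * q * (√(N : ℝ) * (1 / √(e : ℝ))) * D ^ 2) := by gcongr
        _ = _ := by ring
  refine (sum_le_sum h1).trans ?_
  rw [sum_add_distrib, ← Finset.mul_sum, ← Finset.mul_sum]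
  refine add_le_add ?_ ?_
  · apply mul_le_mul_of_nonneg_left (sum_inv_EE hC N J t hN) (by positivity)
  · have h2 : ∑ e ∈ EE N z, 1 / √(e : ℝ) ≤ ∑ e ∈ Icc 1 (N / z), 1 / √(e : ℝ) := by
      apply Finset.sum_le_sum_of_subset_of_nonneg
      · unfold EE; exact filter_subset _ _
      · intro e _ _; positivity
    have h3 := h2.trans (sum_sqrt (N / z))
    have h4 : √((N / z : ℕ) : ℝ) ≤ √(N : ℝ) / √(z : ℝ) := by
      rw [← Real.sqrt_div hNR.le]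
      exact Real.sqrt_le_sqrt Nat.cast_div_le
    have h5 : √(N : ℝ) * √(N : ℝ) = N := Real.mul_self_sqrt hNR.le
    calc ((J : ℝ) + 2) * (11 * q * D ^ 2) * √(N : ℝ) * ∑ e ∈ EE N z, 1 / √(e : ℝ)
        ≤ ((J : ℝ) + 2) * (11 * q * D ^ 2) * √(N : ℝ) * (2 * (√(N : ℝ) / √(z : ℝ))) := by
          apply mul_le_mul_of_nonneg_left _ (by positivity)
          linarith
      _ = ((J : ℝ) + 2) * (22 * q * D ^ 2) * ((√(N : ℝ) * √(N : ℝ)) / √(z : ℝ)) := by ring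
      _ = ((J : ℝ) + 2) * (22 * q * D ^ 2) * (N / √(z : ℝ)) := by rw [h5]

/-- the core inequality -/
theorem core (N1 : ℕ) (hFL : FL N1) (b z0 : ℕ) (hb : N1 * 3 + 2 * 3 + 10 ≤ b) (hz0 : N1 * 3 + 2 * 3 + 10 ≤ z0)
    {C : ℝ} (hC : Mert C) {q : ℕ} [NeZero q] {χ : DirichletCharacter ℂ q} (hq : 1 < q) (hχ : RealPrim q χ) (N J j0 t : ℕ)
    (hqN : q ∣ N) (hz0N : ∀ p : ℕ, p.Prime → p ≤ z0 → p ∣ N) (hj : j0 ≤ J) (hzN : 2 ^ 2 ^ J ≤ N) (hN : N ≤ 2 ^ 2 ^ (J + t))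
    (M : ℕ → ℝ) (hM0 : ∀ q, 0 ≤ M q)
    (hM : ∀ q, 1 ≤ q → ∀ a : ℕ, a.Coprime q → ∀ y : ℕ, y ≤ N → |PS y q a - y / (Nat.totient q : ℝ)| ≤ M q) :
    N * VV z0 (2 ^ 2 ^ J) N * (1 - 3 * (1 / 2 : ℝ) ^ b) ≤
      ((J : ℝ) + 2) * (3 * (∑ d ∈ (Icc 1 ((2 ^ 2 ^ J) ^ ((N1 * 1 + 2 * 1 + 10) * b))).filter (fun d => d.Coprime N), (M d + 1)) +
        ∑ d ∈ (Icc 1 ((2 ^ 2 ^ J) ^ ((N1 * 1 + 2 * 1 + 10) * b))).filter (fun d => d.Coprime N),
          |∑ n ∈ (Ico 1 N).filter (fun n => n ≡ N [MOD d]), vonMangoldt n * ((moebius (N - n) : ℤ) : ℝ)|) +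
      2 * Real.log N * (2 * √(N : ℝ) + 1 + (2 ^ 2 ^ J : ℕ) + N / (2 ^ 2 ^ J : ℕ)) +
      8 * Real.log N * (N * lam χ * HH χ z0 (2 ^ 2 ^ (J - j0)) * VV z0 (2 ^ 2 ^ J) N) *
        (Real.exp (2 * (t * Real.log 2 + C)) * Real.exp ((j0 * Real.log 2 + C) + 6)) +
      4 * Real.log N * (((J : ℝ) + 2) * (22 * q * (((2 ^ 2 ^ (J - j0)) ^ ((N1 * 3 + 2 * 3 + 10) * b) : ℕ) : ℝ) ^ 2) *
        (N / √((2 ^ 2 ^ J : ℕ) : ℝ))) := by
  classical
  set z := 2 ^ 2 ^ J with hz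
  have hz2 : 2 ≤ z := by
    calc 2 = 2 ^ 1 := rfl
      _ ≤ 2 ^ 2 ^ J := Nat.pow_le_pow_right (by norm_num) (Nat.one_le_two_pow)
  have hzz : 2 ^ 2 ^ (J - j0) ≤ z := Nat.pow_le_pow_right (by norm_num) (Nat.pow_le_pow_right (by norm_num) (by omega))
  have hN0 : 0 < N := by omega
  have hNR : (0 : ℝ) < N := by exact_mod_cast hN0
  have hlogN : 0 ≤ Real.log N := Real.log_nonneg (by exact_mod_cast hN0)
  have hP : ∀ p ∈ PP z0 z N, p.Prime ∧ z0 < p ∧ p ≤ 2 ^ 2 ^ J := by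
    intro p hp
    rw [mem_PP] at hp
    exact ⟨hp.1, hp.2.1, hp.2.2.1⟩
  have hPN : ∀ p ∈ PP z0 z N, ¬ p ∣ N := by
    intro p hp
    rw [mem_PP] at hp
    exact hp.2.2.2
  have s0 := main_sieve N1 hFL b J z0 hb hz0 N (by omega) (PP z0 z N) hP hPN M hM0 hM (fun _ => 0) (by simp)
  have s1 := main_sieve N1 hFL b J z0 hb hz0 N (by omega) (PP z0 z N) hP hPN M hM0 hM (fun m => ((moebius m : ℤ) : ℝ)) (by
    intro m
    have := ArithmeticFunction.abs_moebius_le_one (n := m)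
    exact_mod_cast this)
  have e0 : ∑ n ∈ Rg N (PP z0 z N), vonMangoldt n * (1 + (fun _ : ℕ => (0 : ℝ)) (N - n)) = ∑ n ∈ Rg N (PP z0 z N), vonMangoldt n := by
    apply sum_congr rfl; intro n _; simp
  have e1 : ∑ n ∈ Rg N (PP z0 z N), vonMangoldt n * (1 + (fun m => ((moebius m : ℤ) : ℝ)) (N - n)) =
      ∑ n ∈ Rg N (PP z0 z N), vonMangoldt n + ∑ n ∈ Rg N (PP z0 z N), vonMangoldt n * ((moebius (N - n) : ℤ) : ℝ) := by
    rw [← sum_add_distrib]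
    apply sum_congr rfl; intro n _; simp only; ring
  rw [e0] at s0
  rw [e1] at s1
  have hVdef : ∏ p ∈ PP z0 z N, (1 - 1 / ((p : ℝ) - 1)) = VV z0 z N := rfl
  rw [hVdef] at s0 s1
  set A := ∑ n ∈ Rg N (PP z0 z N), vonMangoldt n with hA
  set Aμ := ∑ n ∈ Rg N (PP z0 z N), vonMangoldt n * ((moebius (N - n) : ℤ) : ℝ) with hAμ
  set D1 := z ^ ((N1 * 1 + 2 * 1 + 10) * b) with hD1
  have e2 : ∑ d ∈ (Icc 1 D1).filter (fun d => d.Coprime N), (M d + 1 + |∑ n ∈ (Ico 1 N).filter (fun n => n ≡ N [MOD d]),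
            vonMangoldt n * (fun _ : ℕ => (0 : ℝ)) (N - n)|) = ∑ d ∈ (Icc 1 D1).filter (fun d => d.Coprime N), (M d + 1) := by
    apply sum_congr rfl; intro n _; simp
  have e3 : ∑ d ∈ (Icc 1 D1).filter (fun d => d.Coprime N), (M d + 1 + |∑ n ∈ (Ico 1 N).filter (fun n => n ≡ N [MOD d]),
            vonMangoldt n * (fun m => ((moebius m : ℤ) : ℝ)) (N - n)|) =
      ∑ d ∈ (Icc 1 D1).filter (fun d => d.Coprime N), (M d + 1) +
      ∑ d ∈ (Icc 1 D1).filter (fun d => d.Coprime N), |∑ n ∈ (Ico 1 N).filter (fun n => n ≡ N [MOD d]),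
            vonMangoldt n * ((moebius (N - n) : ℤ) : ℝ)| := by
    rw [← sum_add_distrib]
  rw [e2] at s0
  rw [e3] at s1
  set E1 := ∑ d ∈ (Icc 1 D1).filter (fun d => d.Coprime N), (M d + 1) with hE1
  set S0 := ∑ d ∈ (Icc 1 D1).filter (fun d => d.Coprime N), |∑ n ∈ (Ico 1 N).filter (fun n => n ≡ N [MOD d]),
            vonMangoldt n * ((moebius (N - n) : ℤ) : ℝ)| with hS0
  set V := VV z0 z N with hV
  have hV0 : 0 < V := VV_pos z0 z N (by omega)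
  set β := (1 / 2 : ℝ) ^ b with hβ
  -- the parity
  have t1 := split_good hχ hq N hqN (Rg N (PP z0 z N)) (by
    intro n hn
    unfold Rg at hn
    rw [mem_filter, mem_Ico] at hn
    omega)
  rw [← hA, ← hAμ] at t1
  have t2 := bad_total hχ hq N z z0 hqN (PP z0 z N) (PP z0 (2 ^ 2 ^ (J - j0)) q) (fun p => mem_PP z0 z N p) hz0N (by
    intro p hp
    rw [mem_PP] at hp
    exact ⟨hp.1, hp.2.1, hp.2.2.1.trans hzz⟩) (by omega) hzN
  have t3 := sum_U N1 hFL b z0 hb hz0 hC hq hχ N J j0 t hqN hj hzN hN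
  have t4 := V_ratio hC z0 N J j0 hj (by omega)
  rw [← hz, ← hV] at t4
  set V' := VV z0 (2 ^ 2 ^ (J - j0)) N with hV'
  have t5 : V' ≤ V * Real.exp ((j0 * Real.log 2 + C) + 6) := by
    have h1 : Real.exp (-(j0 * Real.log 2 + C) - 6) = (Real.exp ((j0 * Real.log 2 + C) + 6))⁻¹ := by
      rw [← Real.exp_neg]; congr 1; ring
    rw [h1, ← div_eq_mul_inv, div_le_iff₀ (Real.exp_pos _)] at t4
    exact t4
  have hl0 := lam_nonneg hq hχ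
  have hH0 := (HH_nonneg hχ z0 (2 ^ 2 ^ (J - j0))).1
  set Hh := HH χ z0 (2 ^ 2 ^ (J - j0)) with hHh
  set CE := Real.exp (2 * (t * Real.log 2 + C)) with hCE
  set C1 := Real.exp ((j0 * Real.log 2 + C) + 6) with hC1
  have hCE0 : 0 < CE := Real.exp_pos _
  set EU := ((J : ℝ) + 2) * (22 * q * (((2 ^ 2 ^ (J - j0)) ^ ((N1 * 3 + 2 * 3 + 10) * b) : ℕ) : ℝ) ^ 2) *
        (N / √(z : ℝ)) with hEU
  have t6 : 2 * N * lam χ * (Hh * V') * CE ≤ 2 * (N * lam χ * Hh * V) * (CE * C1) := by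
    calc 2 * N * lam χ * (Hh * V') * CE ≤ 2 * N * lam χ * (Hh * (V * C1)) * CE := by gcongr
      _ = _ := by ring
  have u0 := (abs_le.1 s0).1
  have u0' := (abs_le.1 s0).2
  have u1 := (abs_le.1 s1).1
  have u1' := (abs_le.1 s1).2
  have hAμ : |Aμ| ≤ 2 * (β * (N * V)) + ((J : ℝ) + 2) * (2 * E1 + S0) := by
    rw [abs_le]
    constructor <;> linarith
  have t7 : ∑ n ∈ (Rg N (PP z0 z N)).filter (fun n => ¬ Good χ N n), vonMangoldt n ≤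
      Real.log N * (2 * √(N : ℝ) + 1 + z + N / z + 2 * (2 * (N * lam χ * Hh * V) * (CE * C1) + EU)) := by
    refine t2.trans ?_
    apply mul_le_mul_of_nonneg_left _ hlogN
    have : ∑ e ∈ EE N z, U χ N (PP z0 (2 ^ 2 ^ (J - j0)) q) e ≤ 2 * (N * lam χ * Hh * V) * (CE * C1) + EU :=
      t3.trans (add_le_add t6 le_rfl)
    linarith
  linarith

end Pool.Agent.H534.SZ
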