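import Pool.Agent.H534.SZ.Fin1
import Pool.Graph.R_pool_sql_team_seeded_64922ed1.Results.MP_e9eb55_nt.MainTermRedundant

/-! The asymptotic analysis of the core inequality. -/

set_option autoImplicit false

namespace Pool.Agent.H534.SZ

open Finset Filter
open Pool.Agent.E8helper22.SZ
open ArithmeticFunction (vonMangoldt moebius)
open Pool.Agent.Y889.PN (PS)
open Pool.Agent.Results.MP_e9eb55_nt.MainTermRedundant (g1 D D0 ev_pow_le ev_log_ge ev_nat)

/-- the choice of the sifting limit -/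
theorem exists_J (θ1 : ℝ) (hθ : 0 < θ1) (K0 : ℕ) (hK0 : 1 ≤ K0) : ∃ t N0 : ℕ, ∀ N : ℕ, N0 ≤ N →
    ∃ J : ℕ, (((2 ^ 2 ^ J : ℕ) : ℝ)) ^ K0 ≤ (N : ℝ) ^ θ1 ∧ N ≤ 2 ^ 2 ^ (J + t) := by
  obtain ⟨t, ht⟩ := pow_unbounded_of_one_lt (2 * K0 / θ1) (show (1 : ℝ) < 2 by norm_num)
  have hev : ∀ᶠ N : ℕ in atTop, (2 : ℝ) ^ K0 ≤ (N : ℝ) ^ θ1 :=
    ((tendsto_rpow_atTop hθ).comp tendsto_natCast_atTop_atTop).eventually_ge_atTop _
  obtain ⟨N0, hN0⟩ := eventually_atTop.1 (hev.and (eventually_ge_atTop 1))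
  refine ⟨t, N0, fun N hN => ?_⟩
  obtain ⟨h1, h2⟩ := hN0 N hN
  have hNR : (0 : ℝ) < N := by exact_mod_cast h2
  classical
  have hex : ∃ j : ℕ, (N : ℝ) ^ θ1 < (((2 ^ 2 ^ j : ℕ) : ℝ)) ^ K0 := by
    obtain ⟨j, hj⟩ := pow_unbounded_of_one_lt ((N : ℝ) ^ θ1) (show (1 : ℝ) < 2 by norm_num)
    refine ⟨j, hj.trans_le ?_⟩
    push_cast
    calc (2 : ℝ) ^ j ≤ 2 ^ (2 ^ j) := by
          apply pow_le_pow_right₀ (by norm_num)
          exact (Nat.lt_two_pow_self).le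
      _ = (2 ^ (2 ^ j)) ^ 1 := by rw [pow_one]
      _ ≤ (2 ^ (2 ^ j)) ^ K0 := by
          apply pow_le_pow_right₀ _ hK0
          exact one_le_pow₀ (by norm_num)
  have k1 := Nat.find_spec hex
  have k0 : Nat.find hex ≠ 0 := by
    intro h0
    rw [h0] at k1
    norm_num at k1
    linarith
  obtain ⟨J, hJ⟩ : ∃ J, Nat.find hex = J + 1 := ⟨Nat.find hex - 1, by omega⟩
  refine ⟨J, ?_, ?_⟩
  · have := Nat.find_min hex (m := J) (by omega)
    exact not_lt.1 this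
  · rw [hJ] at k1
    have h3 := Real.log_lt_log (Real.rpow_pos_of_pos hNR _) k1
    rw [Real.log_rpow hNR, Real.log_pow] at h3
    push_cast at h3
    rw [Real.log_pow] at h3
    push_cast at h3
    have hl2 : 0 < Real.log 2 := Real.log_pos (by norm_num)
    have h4 : Real.log N ≤ Real.log ((2 ^ 2 ^ (J + t) : ℕ) : ℝ) := by
      push_cast
      rw [Real.log_pow]
      push_cast
      rw [div_lt_iff₀ hθ] at ht
      have h5 : θ1 * Real.log N < (2 : ℝ) ^ J * (2 * K0) * Real.log 2 := by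
        calc θ1 * Real.log N < K0 * (2 ^ (J + 1) * Real.log 2) := h3
          _ = (2 : ℝ) ^ J * (2 * K0) * Real.log 2 := by ring
      have h6 : (2 : ℝ) ^ J * (2 * K0) * Real.log 2 ≤ (2 : ℝ) ^ J * (2 ^ t * θ1) * Real.log 2 := by gcongr
      have h7 : (2 : ℝ) ^ J * (2 ^ t * θ1) * Real.log 2 = θ1 * (2 ^ (J + t) * Real.log 2) := by rw [pow_add]; ring
      rw [h7] at h6
      exact (lt_of_mul_lt_mul_left (h5.trans_le h6) hθ.le).le
    have h5 := (Real.log_le_log_iff hNR (by positivity)).1 h4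
    exact_mod_cast h5

/-- the arithmetic of the final step -/
theorem final_arith (κ L N z J' V E1 S0 lh cc' EU b3 : ℝ) (hκ : 0 < κ) (hL : 1 ≤ L) (hN : 0 < N) (hz : 0 < z)
    (hV : κ / L ≤ V) (hJ0 : 0 ≤ J') (hJ : J' ≤ 2 * L)
    (hb : b3 ≤ 1 / 10)
    (hcore : N * V * (1 - b3) ≤ J' * (3 * E1 + S0) + 2 * L * (2 * √N + 1 + z + N / z) + 8 * L * (N * lh * V) * cc' + 4 * L * EU)
    (hlh : 8 * L * lh * cc' ≤ 1 / 4)
    (hE1 : 3 * E1 * (2 * L) * L ≤ κ * N / 20)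
    (hj2 : 2 * L * (2 * √N + 1 + z + N / z) * L ≤ κ * N / 20)
    (hj3 : 4 * L * EU * L ≤ κ * N / 20) (hE10 : 0 ≤ E1) : κ * N / (2 * L) ≤ J' * S0 := by
  have hL0 : 0 < L := by linarith
  have hNV : κ * N / L ≤ N * V := by
    calc κ * N / L = N * (κ / L) := by ring
      _ ≤ N * V := by gcongr
  have hNV0 : 0 < N * V := lt_of_lt_of_le (by positivity) hNV
  have a1 : J' * (3 * E1) ≤ κ * N / L / 20 := by
    have h1 : J' * (3 * E1) ≤ 2 * L * (3 * E1) := by gcongr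
    have h2 : 2 * L * (3 * E1) ≤ κ * N / L / 20 := by
      rw [div_div, mul_comm L 20, ← div_div, le_div_iff₀ hL0]
      linarith
    linarith
  have a2 : 2 * L * (2 * √N + 1 + z + N / z) ≤ κ * N / L / 20 := by
    rw [div_div, mul_comm L 20, ← div_div, le_div_iff₀ hL0]
    linarith
  have a3 : 4 * L * EU ≤ κ * N / L / 20 := by
    rw [div_div, mul_comm L 20, ← div_div, le_div_iff₀ hL0]
    linarith
  have a4 : 8 * L * (N * lh * V) * cc' ≤ N * V / 4 := by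
    have : 8 * L * (N * lh * V) * cc' = (8 * L * lh * cc') * (N * V) := by ring
    rw [this]
    nlinarith
  have a5 : N * V * (9 / 10) ≤ N * V * (1 - b3) := by
    apply mul_le_mul_of_nonneg_left _ hNV0.le
    linarith
  have a6 : κ * N / (2 * L) = κ * N / L / 2 := by field_simp
  rw [a6]
  nlinarith

end Pool.Agent.H534.SZ
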