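import Pool.Agent.H534.SZ.Fin2

/-! The lower bound for `D_{g₁}(N; θ)` in terms of the exceptional character. -/

set_option autoImplicit false

namespace Pool.Agent.H534.SZ

open Finset Filter
open Pool.Agent.E8helper22.SZ
open ArithmeticFunction (vonMangoldt moebius)
open Pool.Agent.Y889.PN (PS)
open Pool.Agent.Results.MP_e9eb55_nt.MainTermRedundant (g1 D D0 ev_pow_le ev_log_ge ev_nat)

theorem V_lower {C : ℝ} (hC : Mert C) (z0 N J : ℕ) (hz0 : 10 ≤ z0) :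
    Real.exp (-C - 6) / 2 ^ J ≤ VV z0 (2 ^ 2 ^ J) N := by
  have h2 := prod_lower (PP z0 (2 ^ 2 ^ J) N) (by
    intro p hp
    rw [mem_PP] at hp
    exact ⟨hp.1, by omega⟩)
  have h3 := hC.2 0 J (PP z0 (2 ^ 2 ^ J) N) (by
    intro p hp
    rw [mem_PP] at hp
    refine ⟨hp.1, ?_, ?_⟩
    · norm_num; omega
    · rw [Nat.zero_add]; exact hp.2.2.1)
  refine le_trans ?_ h2
  have h4 : Real.exp (-C - 6) / 2 ^ J = Real.exp (-(J * Real.log 2 + C) - 6) := by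
    have h5 : (2 : ℝ) ^ J = Real.exp (J * Real.log 2) := by
      rw [mul_comm, Real.exp_mul, Real.exp_log (by norm_num), Real.rpow_natCast]
    rw [h5, ← Real.exp_sub]
    congr 1; ring
  rw [h4]
  apply Real.exp_le_exp.2
  linarith

theorem EU_bound (q z D' J' N : ℝ) (hq : 0 ≤ q) (hD : 0 ≤ D') (hz : 0 < z) (hq8 : q ^ 8 ≤ z) (hD16 : D' ^ 16 ≤ z) (hJ : 0 ≤ J')
    (hN : 0 ≤ N) : J' * (22 * q * D' ^ 2) * (N / √z) ≤ 22 * J' * N * (z ^ (1 / 4 : ℝ))⁻¹ := by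
  have h1 : q ≤ z ^ (1 / 8 : ℝ) := by
    have h2 : q = (q ^ 8) ^ (1 / 8 : ℝ) := by
      rw [← Real.rpow_natCast, ← Real.rpow_mul hq]
      norm_num
    rw [h2]
    exact Real.rpow_le_rpow (by positivity) hq8 (by norm_num)
  have h3 : D' ^ 2 ≤ z ^ (1 / 8 : ℝ) := by
    have h2 : D' ^ 2 = (D' ^ 16) ^ (1 / 8 : ℝ) := by
      rw [← Real.rpow_natCast D' 16, ← Real.rpow_mul hD, ← Real.rpow_natCast D' 2]
      norm_num
    rw [h2]
    exact Real.rpow_le_rpow (by positivity) hD16 (by norm_num)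
  have h4 : z ^ (1 / 8 : ℝ) * z ^ (1 / 8 : ℝ) = z ^ (1 / 4 : ℝ) := by
    rw [← Real.rpow_add hz]; norm_num
  have h5 : √z = z ^ (1 / 4 : ℝ) * z ^ (1 / 4 : ℝ) := by
    rw [← Real.rpow_add hz, Real.sqrt_eq_rpow]; norm_num
  have h6 : 0 < z ^ (1 / 4 : ℝ) := Real.rpow_pos_of_pos hz _
  have h7 : q * D' ^ 2 ≤ z ^ (1 / 4 : ℝ) := by
    rw [← h4]
    exact mul_le_mul h1 h3 (by positivity) (by positivity)
  calc J' * (22 * q * D' ^ 2) * (N / √z) = 22 * J' * N * ((q * D' ^ 2) / √z) := by ring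
    _ ≤ 22 * J' * N * (z ^ (1 / 4 : ℝ) / √z) := by gcongr
    _ = 22 * J' * N * (z ^ (1 / 4 : ℝ))⁻¹ := by
        rw [h5]
        congr 1
        field_simp

theorem D16_le (J j0 e : ℕ) (hjJ : j0 ≤ J) (hj0 : j0 = 16 * e) :
    ((2 ^ 2 ^ (J - j0)) ^ e) ^ 16 ≤ 2 ^ 2 ^ J := by
  rw [← pow_mul, ← pow_mul]
  apply Nat.pow_le_pow_right (by norm_num)
  have h3 : 2 ^ J = 2 ^ (J - j0) * 2 ^ j0 := by rw [← pow_add]; congr 1; omega
  have h4 : j0 < 2 ^ j0 := Nat.lt_two_pow_self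
  have h5 : e * 16 = j0 := by rw [hj0]; ring
  rw [h3, h5]
  exact Nat.mul_le_mul (le_refl _) h4.le

theorem lower (θ : ℝ) (h0 : 0 < θ) (h1 : θ < 1) : ∃ (z0 j0 t : ℕ) (cs : ℝ) (N0 : ℕ), 0 < cs ∧ ∀ N : ℕ, N0 ≤ N →
    ∃ J : ℕ, j0 ≤ J ∧ N ≤ 2 ^ 2 ^ (J + t) ∧ ∀ (q : ℕ) [NeZero q] (χ : DirichletCharacter ℂ q), 1 < q → RealPrim q χ → q ∣ N →
      (∀ p : ℕ, p.Prime → p ≤ z0 → p ∣ N) → q ^ 8 ≤ 2 ^ 2 ^ J → lam χ * HH χ z0 (2 ^ 2 ^ (J - j0)) * Real.log N ≤ cs →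
      (N : ℝ) / Real.log N ^ 6 ≤ D g1 N θ := by
  obtain ⟨N1, hFL⟩ := exists_FL
  obtain ⟨C, hC⟩ : ∃ C, Mert C := mert
  obtain ⟨b, hb⟩ : ∃ b, b = N1 * 3 + 2 * 3 + 10 := ⟨_, rfl⟩
  obtain ⟨K0, hK0⟩ : ∃ K0, K0 = (N1 * 1 + 2 * 1 + 10) * b := ⟨_, rfl⟩
  have hK01 : 1 ≤ K0 := by rw [hK0, hb]; nlinarith
  obtain ⟨j0, hj0⟩ : ∃ j0, j0 = 16 * ((N1 * 3 + 2 * 3 + 10) * b) := ⟨_, rfl⟩
  obtain ⟨θ1, hθ1⟩ : ∃ θ1, θ1 = min θ (1 / 3) := ⟨_, rfl⟩
  have hθ10 : 0 < θ1 := by rw [hθ1]; exact lt_min h0 (by norm_num)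
  have hθ1a : θ1 ≤ θ := by rw [hθ1]; exact min_le_left _ _
  have hθ1b : θ1 ≤ 1 / 3 := by rw [hθ1]; exact min_le_right _ _
  obtain ⟨t, Na, hJex⟩ := exists_J θ1 hθ10 K0 hK01
  obtain ⟨B, X0, hbv⟩ := Pool.Agent.Y889.PN.bvmax 4
  obtain ⟨Nb, hpt⟩ := Pool.Agent.Results.MP_e9eb55_nt.MainTermRedundant.pointwise θ h0 h1
  obtain ⟨κ, hκ⟩ : ∃ κ, κ = Real.exp (-C - 6) := ⟨_, rfl⟩
  have hκ0 : 0 < κ := by rw [hκ]; exact Real.exp_pos _
  obtain ⟨cc', hcc⟩ : ∃ cc', cc' = Real.exp (2 * (t * Real.log 2 + C)) * Real.exp ((j0 * Real.log 2 + C) + 6) := ⟨_, rfl⟩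
  have hcc0 : 0 < cc' := by rw [hcc]; positivity
  obtain ⟨η, hη⟩ : ∃ η : ℝ, η = 1 / 2 ^ t := ⟨_, rfl⟩
  have hη0 : 0 < η := by rw [hη]; positivity
  have hη1 : η ≤ 1 := by
    rw [hη, div_le_one (by positivity)]
    exact one_le_pow₀ (by norm_num)
  have hlog2 : 0 < Real.log 2 := Real.log_pos (by norm_num)
  have hlog2' : (0.69 : ℝ) < Real.log 2 := by linarith [Real.log_two_gt_d9]
  -- eventual conditions
  have hLev : ∀ᶠ x : ℝ in atTop, 200 * (2 * Real.log x + 2) ≤ κ * x := by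
    have h2 := (Real.isLittleO_log_id_atTop).bound (show (0 : ℝ) < κ / 800 by positivity)
    filter_upwards [h2, eventually_ge_atTop (800 / κ), eventually_ge_atTop 1] with x h3 h4 h5
    rw [Real.norm_of_nonneg (Real.log_nonneg h5)] at h3
    simp only [id] at h3
    rw [Real.norm_of_nonneg (by linarith)] at h3
    rw [div_le_iff₀ hκ0] at h4
    nlinarith
  have hev1 := Real.tendsto_log_atTop.eventually hLev
  obtain ⟨Nc, hNc⟩ := ev_nat ((ev_log_ge 2).and ((ev_log_ge (240 / κ)).and ((ev_pow_le 2 (2 / 3) (by norm_num) (240 / κ)).and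
    ((ev_pow_le 2 (1 / 2) (by norm_num) (400 / κ)).and ((ev_pow_le 2 η hη0 (400 / κ)).and
    ((ev_pow_le 3 (η / 4) (by positivity) (3520 / κ)).and ((ev_pow_le B (1 / 3) (by norm_num) 1).and
    (hev1.and (eventually_ge_atTop 3)))))))))
  refine ⟨b, j0, t, 1 / (32 * cc'), max (max (max Na X0) (max Nb Nc)) (2 ^ 2 ^ (j0 + t) + 1), by positivity, ?_⟩
  intro N hN
  have hNa : Na ≤ N := ((le_max_left _ _).trans ((le_max_left _ _).trans (le_max_left _ _))).trans hN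
  have hNX : X0 ≤ N := ((le_max_right _ _).trans ((le_max_left _ _).trans (le_max_left _ _))).trans hN
  have hNb' : Nb ≤ N := ((le_max_left _ _).trans ((le_max_right _ _).trans (le_max_left _ _))).trans hN
  have hNc' : Nc ≤ N := ((le_max_right _ _).trans ((le_max_right _ _).trans (le_max_left _ _))).trans hN
  have hNj : 2 ^ 2 ^ (j0 + t) + 1 ≤ N := (le_max_right _ _).trans hN
  obtain ⟨J, hJ1, hJ2⟩ := hJex N hNa
  refine ⟨J, ?_, hJ2, ?_⟩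
  · by_contra hlt
    push Not at hlt
    have : 2 ^ 2 ^ (J + t) ≤ 2 ^ 2 ^ (j0 + t) :=
      Nat.pow_le_pow_right (by norm_num) (Nat.pow_le_pow_right (by norm_num) (by omega))
    omega
  intro q _ χ hq hχ hqN hz0N hq8 hlam
  have hjJ : j0 ≤ J := by
    by_contra hlt
    push Not at hlt
    have : 2 ^ 2 ^ (J + t) ≤ 2 ^ 2 ^ (j0 + t) :=
      Nat.pow_le_pow_right (by norm_num) (Nat.pow_le_pow_right (by norm_num) (by omega))
    omega
  obtain ⟨c1, c2, c3, c4, c5, c6, c7, c8, c9⟩ := hNc N (by exact_mod_cast hNc')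
  set L := Real.log N with hL
  have hN3 : (3 : ℝ) ≤ N := c9
  have hN0 : (0 : ℝ) < N := by linarith
  have hN1R : (1 : ℝ) ≤ N := by linarith
  have hNnat : 0 < N := by exact_mod_cast hN0
  have hL0 : 0 < L := by linarith
  obtain ⟨z, hz⟩ : ∃ z : ℕ, z = 2 ^ 2 ^ J := ⟨_, rfl⟩
  have hzpos : 0 < z := by rw [hz]; positivity
  have hzR1 : (1 : ℝ) ≤ z := by exact_mod_cast hzpos
  have hzR0 : (0 : ℝ) < z := by linarith
  rw [← hz] at hJ1
  -- size of z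
  have hzθ : (z : ℝ) ≤ (N : ℝ) ^ θ1 := by
    calc (z : ℝ) = (z : ℝ) ^ 1 := (pow_one _).symm
      _ ≤ (z : ℝ) ^ K0 := pow_le_pow_right₀ hzR1 hK01
      _ ≤ _ := hJ1
  have hN13 : (N : ℝ) ^ θ1 ≤ (N : ℝ) ^ (1 / 3 : ℝ) := Real.rpow_le_rpow_of_exponent_le hN1R hθ1b
  have hz13 : (z : ℝ) ≤ (N : ℝ) ^ (1 / 3 : ℝ) := hzθ.trans hN13
  have hlz : Real.log z = 2 ^ J * Real.log 2 := by
    rw [hz]; push_cast; rw [Real.log_pow]; push_cast; ring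
  have hlz2 : Real.log z ≤ L / 3 := by
    have := Real.log_le_log hzR0 hz13
    rw [Real.log_rpow hN0] at this
    linarith
  have h2J : (2 : ℝ) ^ J ≤ L := by
    rw [hlz] at hlz2
    have h3 : (0 : ℝ) < 2 ^ J := by positivity
    nlinarith
  have hzη : (N : ℝ) ^ η ≤ z := by
    have h3 : (N : ℝ) ≤ (z : ℝ) ^ (2 ^ t : ℕ) := by
      have h4 : (N : ℝ) ≤ ((2 ^ 2 ^ (J + t) : ℕ) : ℝ) := by exact_mod_cast hJ2
      refine h4.trans (le_of_eq ?_)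
      rw [hz]
      push_cast
      rw [← pow_mul, ← pow_add]
    calc (N : ℝ) ^ η ≤ ((z : ℝ) ^ (2 ^ t : ℕ)) ^ η := Real.rpow_le_rpow hN0.le h3 hη0.le
      _ = (z : ℝ) ^ ((2 ^ t : ℕ) * η) := by rw [← Real.rpow_natCast, ← Real.rpow_mul hzR0.le]
      _ = z := by
          rw [hη]; push_cast
          rw [mul_one_div, div_self (by positivity), Real.rpow_one]
  have hzN : z ≤ N := by
    have h3 : (z : ℝ) ≤ N := by
      refine hz13.trans ?_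
      calc (N : ℝ) ^ (1 / 3 : ℝ) ≤ (N : ℝ) ^ (1 : ℝ) := Real.rpow_le_rpow_of_exponent_le hN1R (by norm_num)
        _ = N := Real.rpow_one _
    exact_mod_cast h3
  -- Bombieri-Vinogradov
  obtain ⟨D1, hD1⟩ : ∃ D1 : ℕ, D1 = z ^ K0 := ⟨_, rfl⟩
  have hD1R : (D1 : ℝ) ≤ (N : ℝ) ^ (1 / 3 : ℝ) := by
    rw [hD1]; push_cast; exact hJ1.trans hN13
  have hN23 : (N : ℝ) ^ (1 / 3 : ℝ) * (N : ℝ) ^ (1 / 3 : ℝ) = (N : ℝ) ^ (2 / 3 : ℝ) := by
    rw [← Real.rpow_add hN0]; norm_num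
  have hN33 : (N : ℝ) ^ (2 / 3 : ℝ) * (N : ℝ) ^ (1 / 3 : ℝ) = N := by
    rw [← Real.rpow_add hN0]; norm_num
  have hr13 : 0 < (N : ℝ) ^ (1 / 3 : ℝ) := Real.rpow_pos_of_pos hN0 _
  have hr23 : 0 < (N : ℝ) ^ (2 / 3 : ℝ) := Real.rpow_pos_of_pos hN0 _
  rw [one_mul] at c7
  have hQ : (D1 : ℝ) ^ 2 * (Real.log (N : ℝ)) ^ B ≤ (N : ℝ) := by
    have e1 : (D1 : ℝ) ^ 2 * (Real.log (N : ℝ)) ^ B ≤ ((N : ℝ) ^ (1 / 3 : ℝ)) ^ 2 * (N : ℝ) ^ (1 / 3 : ℝ) := by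
      apply mul_le_mul (pow_le_pow_left₀ (Nat.cast_nonneg _) hD1R 2) c7 (by positivity) (by positivity)
    have e2 : ((N : ℝ) ^ (1 / 3 : ℝ)) ^ 2 = (N : ℝ) ^ (2 / 3 : ℝ) := by rw [pow_two, hN23]
    rw [e2, hN33] at e1
    exact e1
  obtain ⟨M, m1, m2, _, m4⟩ := hbv N hNX D1 hQ
  have hcore := core N1 hFL b b hb.ge hb.ge hC hq hχ N J j0 t hqN hz0N hjJ (by rw [← hz]; exact hzN) hJ2 M m1 m2
  rw [← hz, ← hK0, ← hD1] at hcore
  set E1 := ∑ d ∈ (Icc 1 D1).filter (fun d => d.Coprime N), (M d + 1) with hE1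
  set S0 := ∑ d ∈ (Icc 1 D1).filter (fun d => d.Coprime N), |∑ n ∈ (Ico 1 N).filter (fun n => n ≡ N [MOD d]),
            vonMangoldt n * ((moebius (N - n) : ℤ) : ℝ)| with hS0
  have hE1b : E1 ≤ N / L ^ 4 + (N : ℝ) ^ (1 / 3 : ℝ) := by
    have h3 : E1 ≤ ∑ d ∈ Icc 1 D1, (M d + 1) := by
      apply Finset.sum_le_sum_of_subset_of_nonneg (filter_subset _ _)
      intro d _ _
      have := m1 d
      linarith
    refine h3.trans ?_
    rw [sum_add_distrib]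
    refine add_le_add m4 ?_
    rw [sum_const, Nat.card_Icc, nsmul_eq_mul, mul_one]
    simpa using hD1R
  have hE10 : 0 ≤ E1 := Finset.sum_nonneg fun d _ => by
    have := m1 d
    linarith
  -- the error terms
  have hEcond : 3 * E1 * (2 * L) * L ≤ κ * N / 20 := by
    have w1 : 3 * E1 * (2 * L) * L ≤ 6 * L ^ 2 * (N / L ^ 4 + (N : ℝ) ^ (1 / 3 : ℝ)) := by
      have : 3 * E1 * (2 * L) * L = 6 * L ^ 2 * E1 := by ring
      rw [this]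
      gcongr
    have w2 : 6 * L ^ 2 * (N / L ^ 4) ≤ κ * N / 40 := by
      have e : 6 * L ^ 2 * (N / L ^ 4) = 6 * N / L ^ 2 := by field_simp
      rw [e, div_le_div_iff₀ (by positivity) (by norm_num)]
      rw [div_le_iff₀ hκ0] at c2
      have w3 : 240 ≤ L ^ 2 * κ := by
        calc (240 : ℝ) ≤ L * κ := c2
          _ = 1 * (L * κ) := (one_mul _).symm
          _ ≤ L * (L * κ) := by
            apply mul_le_mul_of_nonneg_right (by linarith) (by positivity)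
          _ = L ^ 2 * κ := by ring
      calc 6 * (N : ℝ) * 40 = 240 * N := by ring
        _ ≤ (L ^ 2 * κ) * N := mul_le_mul_of_nonneg_right w3 hN0.le
        _ = κ * N * L ^ 2 := by ring
    have w4 : 6 * L ^ 2 * (N : ℝ) ^ (1 / 3 : ℝ) ≤ κ * N / 40 := by
      have c3' : 240 * L ^ 2 ≤ κ * (N : ℝ) ^ (2 / 3 : ℝ) := by
        rw [div_mul_eq_mul_div, div_le_iff₀ hκ0] at c3
        linarith
      have w5 : 240 * L ^ 2 * (N : ℝ) ^ (1 / 3 : ℝ) ≤ κ * (N : ℝ) ^ (2 / 3 : ℝ) * (N : ℝ) ^ (1 / 3 : ℝ) := by gcongr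
      rw [mul_assoc κ, hN33] at w5
      linarith
    linarith
  have hj2 : 2 * L * (2 * √(N : ℝ) + 1 + z + N / z) * L ≤ κ * N / 20 := by
    have hs : √(N : ℝ) * √(N : ℝ) = N := Real.mul_self_sqrt hN0.le
    have hs0 : 1 ≤ √(N : ℝ) := Real.one_le_sqrt.2 hN1R
    have c4' : 400 * L ^ 2 ≤ κ * √(N : ℝ) := by
      rw [Real.sqrt_eq_rpow]
      rw [div_mul_eq_mul_div, div_le_iff₀ hκ0] at c4
      linarith
    have k1 : 400 * L ^ 2 * √(N : ℝ) ≤ κ * N := by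
      calc 400 * L ^ 2 * √(N : ℝ) ≤ κ * √(N : ℝ) * √(N : ℝ) := by gcongr
        _ = κ * N := by rw [mul_assoc, hs]
    have k2 : (z : ℝ) ≤ √(N : ℝ) := by
      refine hz13.trans ?_
      rw [Real.sqrt_eq_rpow]
      exact Real.rpow_le_rpow_of_exponent_le hN1R (by norm_num)
    have k3 : 400 * L ^ 2 * (N / z) ≤ κ * N := by
      have c5' : 400 * L ^ 2 ≤ κ * (N : ℝ) ^ η := by
        rw [div_mul_eq_mul_div, div_le_iff₀ hκ0] at c5
        linarith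
      have : 400 * L ^ 2 ≤ κ * z := c5'.trans (by gcongr)
      calc 400 * L ^ 2 * (N / z) ≤ κ * z * (N / z) := by gcongr
        _ = κ * N := by field_simp
    have k4 : 0 ≤ L ^ 2 := by positivity
    have k5 : L ^ 2 * z ≤ L ^ 2 * √(N : ℝ) := by gcongr
    have k6 : L ^ 2 * 1 ≤ L ^ 2 * √(N : ℝ) := by gcongr
    have e : 2 * L * (2 * √(N : ℝ) + 1 + z + N / z) * L = 4 * (L ^ 2 * √(N : ℝ)) + 2 * (L ^ 2 * 1) + 2 * (L ^ 2 * z) +
        2 * (L ^ 2 * (N / z)) := by ring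
    rw [e]
    linarith
  -- EU
  obtain ⟨D', hD'⟩ : ∃ D' : ℕ, D' = (2 ^ 2 ^ (J - j0)) ^ ((N1 * 3 + 2 * 3 + 10) * b) := ⟨_, rfl⟩
  rw [← hD'] at hcore
  have hD16 : D' ^ 16 ≤ z := by
    rw [hD', hz]
    exact D16_le J j0 _ hjJ hj0
  have hJ'0 : (0 : ℝ) ≤ (J : ℝ) + 2 := by positivity
  have hJL : (J : ℝ) ≤ L := by
    have h3 : (J : ℝ) ≤ 2 ^ J := by exact_mod_cast (Nat.lt_two_pow_self (n := J)).le
    linarith
  have hEU := EU_bound q z D' ((J : ℝ) + 2) N (Nat.cast_nonneg _) (Nat.cast_nonneg _) hzR0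
    (by rw [← hz] at hq8; exact_mod_cast hq8) (by exact_mod_cast hD16) hJ'0 hN0.le
  set EU := ((J : ℝ) + 2) * (22 * q * (D' : ℝ) ^ 2) * (N / √(z : ℝ)) with hEUdef
  have hj3 : 4 * L * EU * L ≤ κ * N / 20 := by
    have hz4 : 0 < (z : ℝ) ^ (1 / 4 : ℝ) := Real.rpow_pos_of_pos hzR0 _
    have k1 : (N : ℝ) ^ (η / 4) ≤ (z : ℝ) ^ (1 / 4 : ℝ) := by
      calc (N : ℝ) ^ (η / 4) = ((N : ℝ) ^ η) ^ (1 / 4 : ℝ) := by
            rw [← Real.rpow_mul hN0.le]; congr 1; ring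
        _ ≤ (z : ℝ) ^ (1 / 4 : ℝ) := Real.rpow_le_rpow (Real.rpow_nonneg hN0.le _) hzη (by norm_num)
    have k2 : 3520 * L ^ 3 ≤ κ * (z : ℝ) ^ (1 / 4 : ℝ) := by
      rw [div_mul_eq_mul_div, div_le_iff₀ hκ0] at c6
      nlinarith
    have k3 : L ^ 3 * ((z : ℝ) ^ (1 / 4 : ℝ))⁻¹ ≤ κ / 3520 := by
      rw [← div_eq_mul_inv, div_le_div_iff₀ hz4 (by norm_num)]
      linarith
    calc 4 * L * EU * L ≤ 4 * L * (22 * ((J : ℝ) + 2) * N * ((z : ℝ) ^ (1 / 4 : ℝ))⁻¹) * L := by gcongr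
      _ ≤ 4 * L * (22 * (2 * L) * N * ((z : ℝ) ^ (1 / 4 : ℝ))⁻¹) * L := by
          have : (J : ℝ) + 2 ≤ 2 * L := by linarith
          gcongr
      _ = 176 * N * (L ^ 3 * ((z : ℝ) ^ (1 / 4 : ℝ))⁻¹) := by ring
      _ ≤ 176 * N * (κ / 3520) := by gcongr
      _ = κ * N / 20 := by ring
  have hVl : κ / L ≤ VV b z N := by
    rw [hz]
    refine le_trans ?_ (V_lower hC b N J (by omega))
    rw [hκ]
    gcongr
  have hb3 : 3 * (1 / 2 : ℝ) ^ b ≤ 1 / 10 := by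
    have h3 : (1 / 2 : ℝ) ^ b ≤ (1 / 2) ^ 5 := pow_le_pow_of_le_one (by norm_num) (by norm_num) (by omega)
    norm_num at h3 ⊢
    linarith
  have hlh : 8 * L * (lam χ * HH χ b (2 ^ 2 ^ (J - j0))) * cc' ≤ 1 / 4 := by
    rw [le_div_iff₀ (by positivity)] at hlam
    nlinarith
  have hfin := final_arith κ L N z ((J : ℝ) + 2) (VV b z N) E1 S0 (lam χ * HH χ b (2 ^ 2 ^ (J - j0))) cc' EU
    (3 * (1 / 2 : ℝ) ^ b) hκ0 (by linarith) hN0 hzR0 hVl hJ'0 (by linarith) hb3 (by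
      have e : (N : ℝ) * (lam χ * HH χ b (2 ^ 2 ^ (J - j0))) * VV b z N = N * lam χ * HH χ b (2 ^ 2 ^ (J - j0)) * VV b z N := by
        ring
      rw [e, hcc]
      exact hcore) hlh hEcond hj2 hj3 hE10
  -- conclusion
  have hS0D : S0 ≤ D0 g1 N θ := by
    unfold D0
    apply Finset.sum_le_sum_of_subset_of_nonneg
    · apply Finset.filter_subset_filter
      apply Finset.Icc_subset_Icc_right
      apply Nat.le_floor
      rw [hD1]
      push_cast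
      exact hJ1.trans (Real.rpow_le_rpow_of_exponent_le hN1R hθ1a)
    · intro d _ _
      exact abs_nonneg _
  have hDD := (hpt N hNb' g1 (Or.inl rfl)).2.1
  have hJlog : ((J : ℝ) + 2) ≤ 2 * Real.log L + 2 := by
    have h3 := Real.log_le_log (by positivity) h2J
    rw [Real.log_pow] at h3
    have h4 : 0 ≤ Real.log L := Real.log_nonneg (by linarith)
    nlinarith
  have h5 : 200 * ((J : ℝ) + 2) ≤ κ * L := by linarith
  have hJ20 : (0 : ℝ) < (J : ℝ) + 2 := by positivity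
  have h6 : κ * N / (2 * L) ≤ ((J : ℝ) + 2) * (100 * L ^ 4 * D g1 N θ) := by
    refine hfin.trans ?_
    gcongr
    exact hS0D.trans hDD
  rw [div_le_iff₀ (by positivity)] at h6 ⊢
  have h7 : κ * N * L ≤ κ * L * (L ^ 6 * D g1 N θ) := by
    calc κ * N * L ≤ ((J : ℝ) + 2) * (100 * L ^ 4 * D g1 N θ) * (2 * L) * L := by gcongr
      _ = (200 * ((J : ℝ) + 2)) * (L ^ 6 * D g1 N θ) := by ring
      _ ≤ κ * L * (L ^ 6 * D g1 N θ) := by
          apply mul_le_mul_of_nonneg_right h5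
          have : 0 ≤ D g1 N θ := by
            unfold D
            exact Finset.sum_nonneg fun _ _ => abs_nonneg _
          positivity
  have h8 : κ * L * (N : ℝ) ≤ κ * L * (L ^ 6 * D g1 N θ) := by linarith
  have h9 := le_of_mul_le_mul_left h8 (by positivity)
  linarith

end Pool.Agent.H534.SZ
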