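import Pool.Agent.H534.SZ.Fin3

/-! `D_{g₁}(N; θ)` is large if there is an exceptional character; consequences for `L(1, χ)` and real zeros. -/

set_option autoImplicit false

namespace Pool.Agent.H534.SZ

open Finset Filter
open Pool.Agent.E8helper22.SZ
open Pool.Agent.Results.MP_e9eb55_nt.MainTermRedundant (g1 D dEH ev_pow_le ev_log_ge ev_nat)

theorem main1 (θ : ℝ) (h0 : 0 < θ) (h1 : θ < 1) : ∃ (m0 K : ℕ) (c : ℝ), 0 < m0 ∧ 0 < K ∧ 0 < c ∧
    ∀ (q : ℕ) [NeZero q] (χ : DirichletCharacter ℂ q) (N : ℕ), 1 < q → RealPrim q χ → m0 * q ∣ N → 0 < N → q ^ K ≤ N →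
    (‖χ.LFunction 1‖ * Real.log N ≤ c ∨ ∃ β : ℝ, β < 1 ∧ χ.LFunction β = 0 ∧ (1 - β) * Real.log N ≤ c) →
    (N : ℝ) / Real.log N ^ 6 ≤ D g1 N θ := by
  obtain ⟨z0, j0, t, cs, N0, hcs, hlow⟩ := lower θ h0 h1
  refine ⟨z0.factorial, 24 * 2 ^ (j0 + t) + N0, min 1 (cs / (100 * 4 ^ z0)), Nat.factorial_pos _, by positivity,
    by positivity, ?_⟩
  intro q _ χ N hq hχ hdvd hN hqK hexc
  have hq3 : 3 ≤ q := Pool.Agent.E8helper63.SZ.three_le hq hχ
  have hqN : q ∣ N := (Dvd.intro_left _ rfl).trans hdvd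
  have hz0N : ∀ p : ℕ, p.Prime → p ≤ z0 → p ∣ N := fun p hp hpz =>
    (((Nat.Prime.dvd_factorial hp).2 hpz).trans (Dvd.intro _ rfl)).trans hdvd
  have hq24 : (q ^ 24) ^ 2 ^ (j0 + t) ≤ N := by
    rw [← pow_mul]
    exact (Nat.pow_le_pow_right (by omega) (by omega)).trans hqK
  have hN0 : N0 ≤ N := by
    have h2 : N0 < 2 ^ N0 := Nat.lt_two_pow_self
    have h3 : 2 ^ N0 ≤ q ^ N0 := Nat.pow_le_pow_left (by omega) _
    have h4 : q ^ N0 ≤ q ^ (24 * 2 ^ (j0 + t) + N0) := Nat.pow_le_pow_right (by omega) (by omega)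
    omega
  obtain ⟨J, hJ, hNJ, hmain⟩ := hlow N hN0
  have hqz : q ^ 24 ≤ 2 ^ 2 ^ (J - j0) := by
    have h2 : (2 ^ 2 ^ (J - j0)) ^ 2 ^ (j0 + t) = 2 ^ 2 ^ (J + t) := by
      rw [← pow_mul, ← pow_add]
      congr 2; omega
    have h3 : (q ^ 24) ^ 2 ^ (j0 + t) ≤ (2 ^ 2 ^ (J - j0)) ^ 2 ^ (j0 + t) := by
      rw [h2]; exact hq24.trans hNJ
    exact (Nat.pow_le_pow_iff_left (by positivity)).1 h3
  have hq8 : q ^ 8 ≤ 2 ^ 2 ^ J :=
    ((Nat.pow_le_pow_right (by omega) (by norm_num)).trans hqz).trans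
      (Nat.pow_le_pow_right (by norm_num) (Nat.pow_le_pow_right (by norm_num) (by omega)))
  have hq3R : (3 : ℝ) ≤ q := by exact_mod_cast hq3
  have hNq : (q : ℝ) ^ 24 ≤ N := by
    have : q ^ 24 ≤ N := by
      calc q ^ 24 = (q ^ 24) ^ 1 := (pow_one _).symm
        _ ≤ (q ^ 24) ^ 2 ^ (j0 + t) := Nat.pow_le_pow_right (by positivity) Nat.one_le_two_pow
        _ ≤ N := hq24
    exact_mod_cast this
  have hNR : (0 : ℝ) < N := by exact_mod_cast hN
  have hlogq : 1 ≤ Real.log q := by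
    rw [Real.le_log_iff_exp_le (by linarith)]
    linarith [Real.exp_one_lt_d9]
  have hlogN : 24 * Real.log q ≤ Real.log N := by
    have := Real.log_le_log (by positivity) hNq
    rwa [Real.log_pow] at this
  have hl0 : 0 < Real.log N := by linarith
  apply hmain q χ hq hχ hqN hz0N hq8
  have hH := HH_nonneg hχ z0 (2 ^ 2 ^ (J - j0))
  have hlam0 := lam_nonneg hq hχ
  have h4z : (1 : ℝ) ≤ 4 ^ z0 := one_le_pow₀ (by norm_num)
  rcases hexc with h | ⟨β, hβ, hβ0, h⟩
  · have h2 : lam χ * HH χ z0 (2 ^ 2 ^ (J - j0)) ≤ ‖χ.LFunction 1‖ := by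
      rw [norm_eq hq hχ]
      calc lam χ * HH χ z0 (2 ^ 2 ^ (J - j0)) ≤ lam χ * 1 := mul_le_mul_of_nonneg_left hH.2 hlam0
        _ = lam χ := mul_one _
        _ ≤ Lr χ := lam_le hq hχ
    have h3 : lam χ * HH χ z0 (2 ^ 2 ^ (J - j0)) * Real.log N ≤ cs / (100 * 4 ^ z0) :=
      (mul_le_mul_of_nonneg_right h2 hl0.le).trans (h.trans (min_le_right _ _))
    refine h3.trans ?_
    rw [div_le_iff₀ (by positivity)]
    nlinarith
  · have h1' : (1 - β) * Real.log N ≤ 1 := h.trans (min_le_left _ _)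
    have h2' : (1 - β) * Real.log N ≤ cs / (100 * 4 ^ z0) := h.trans (min_le_right _ _)
    have hβ1 : 0 < 1 - β := by linarith
    have hβ34 : 3 / 4 ≤ β := by
      have : (1 - β) * 24 ≤ (1 - β) * Real.log N := mul_le_mul_of_nonneg_left (by linarith) hβ1.le
      linarith
    have hz := zero_H hq hχ β hβ34 hβ hβ0 z0 (PP z0 (2 ^ 2 ^ (J - j0)) q)
      (fun p hp => by
        rw [mem_PP] at hp
        exact ⟨hp.1, hp.2.2.2⟩)
      (fun p hp hpq hpz hpx => by
        rw [mem_PP]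
        refine ⟨hp, hpz, ?_, hpq⟩
        refine hpx.trans (le_trans ?_ hqz)
        have h5 : 130 ≤ q ^ 5 := by
          calc 130 ≤ 3 ^ 5 := by norm_num
            _ ≤ q ^ 5 := Nat.pow_le_pow_left hq3 5
        calc (130 * q) ^ 4 ≤ (q ^ 5 * q) ^ 4 := Nat.pow_le_pow_left (Nat.mul_le_mul_right _ h5) 4
          _ = q ^ 24 := by ring)
    change lam χ * HH χ z0 (2 ^ 2 ^ (J - j0)) ≤ _ at hz
    have hlog130 : Real.log (130 * q) ≤ Real.log N := by
      apply Real.log_le_log (by positivity)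
      refine le_trans ?_ hNq
      have h5 : (130 : ℝ) ≤ (q : ℝ) ^ 5 := by
        calc (130 : ℝ) ≤ 3 ^ 5 := by norm_num
          _ ≤ (q : ℝ) ^ 5 := pow_le_pow_left₀ (by norm_num) hq3R 5
      calc (130 : ℝ) * q ≤ (q : ℝ) ^ 5 * q := mul_le_mul_of_nonneg_right h5 (by linarith)
        _ = (q : ℝ) ^ 6 := by ring
        _ ≤ (q : ℝ) ^ 24 := pow_le_pow_right₀ (by linarith) (by norm_num)
    have hexp : Real.exp (4 * (1 - β) * Real.log (130 * q)) ≤ 60 := by
      have h6 : 4 * (1 - β) * Real.log (130 * q) ≤ 4 := by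
        have : (1 - β) * Real.log (130 * q) ≤ (1 - β) * Real.log N := mul_le_mul_of_nonneg_left hlog130 hβ1.le
        linarith
      calc Real.exp (4 * (1 - β) * Real.log (130 * q)) ≤ Real.exp 4 := Real.exp_le_exp.2 h6
        _ = Real.exp 1 ^ 4 := by rw [← Real.exp_nat_mul]; norm_num
        _ ≤ (2.7182818286 : ℝ) ^ 4 := pow_le_pow_left₀ (Real.exp_pos _).le Real.exp_one_lt_d9.le 4
        _ ≤ 60 := by norm_num
    calc lam χ * HH χ z0 (2 ^ 2 ^ (J - j0)) * Real.log N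
        ≤ 3 / 2 * (1 - β) * Real.exp (4 * (1 - β) * Real.log (130 * q)) * 4 ^ z0 * Real.log N :=
          mul_le_mul_of_nonneg_right hz hl0.le
      _ ≤ 3 / 2 * (1 - β) * 60 * 4 ^ z0 * Real.log N := by gcongr
      _ = 90 * 4 ^ z0 * ((1 - β) * Real.log N) := by ring
      _ ≤ 90 * 4 ^ z0 * (cs / (100 * 4 ^ z0)) := by gcongr
      _ = 90 / 100 * cs := by field_simp
      _ ≤ cs := by linarith

/-- the property of `q` and `c` -/
def NoSZ (c : ℝ) (q : ℕ) [NeZero q] (χ : DirichletCharacter ℂ q) : Prop :=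
  c / Real.log q ≤ ‖χ.LFunction 1‖ ∧ ∀ β : ℝ, 1 - c / Real.log q ≤ β → χ.LFunction β ≠ 0

theorem NoSZ.mono {c c' : ℝ} {q : ℕ} [NeZero q] {χ : DirichletCharacter ℂ q} (h : NoSZ c q χ) (hc : c' ≤ c) :
    NoSZ c' q χ := by
  have hl : 0 ≤ Real.log q := Real.log_natCast_nonneg q
  have h2 : c' / Real.log q ≤ c / Real.log q := div_le_div_of_nonneg_right hc hl
  exact ⟨h2.trans h.1, fun β hβ => h.2 β (by linarith)⟩

theorem noSZ_exists {q : ℕ} [NeZero q] {χ : DirichletCharacter ℂ q} (hq : 1 < q) (hχ : RealPrim q χ) :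
    ∃ c : ℝ, 0 < c ∧ NoSZ c q χ := by
  have hne := Pool.Agent.E8helper63.SZ.ne_one hq hχ
  have hL1 : χ.LFunction 1 ≠ 0 := DirichletCharacter.LFunction_apply_one_ne_zero hne
  have hlogq : 0 < Real.log q := Real.log_pos (by exact_mod_cast hq)
  have hcont : Continuous (fun β : ℝ => χ.LFunction (β : ℂ)) :=
    (DirichletCharacter.differentiable_LFunction hne).continuous.comp Complex.continuous_ofReal
  have h2 : ∀ᶠ (β : ℝ) in nhds (1 : ℝ), χ.LFunction (β : ℂ) ≠ 0 := by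
    apply (hcont.continuousAt (x := (1 : ℝ))).eventually_ne
    simpa using hL1
  obtain ⟨ε, hε, h3⟩ := Metric.eventually_nhds_iff.1 h2
  refine ⟨min (‖χ.LFunction 1‖ * Real.log q) (ε / 2 * Real.log q), ?_, ?_, ?_⟩
  · apply lt_min
    · exact mul_pos (norm_pos_iff.2 hL1) hlogq
    · positivity
  · rw [div_le_iff₀ hlogq]
    exact min_le_left _ _
  · intro β hβ
    have h4 : 1 - ε / 2 ≤ β := by
      refine le_trans ?_ hβ
      have : min (‖χ.LFunction 1‖ * Real.log q) (ε / 2 * Real.log q) / Real.log q ≤ ε / 2 := by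
        rw [div_le_iff₀ hlogq]
        exact min_le_right _ _
      linarith
    by_cases hβ1 : β < 1
    · apply h3
      rw [Real.dist_eq, abs_lt]
      constructor <;> linarith
    · push Not at hβ1
      apply DirichletCharacter.LFunction_ne_zero_of_one_le_re
      · exact Or.inl hne
      · simpa using hβ1

theorem small_q (q0 : ℕ) : ∃ c : ℝ, 0 < c ∧ ∀ (q : ℕ) [NeZero q] (χ : DirichletCharacter ℂ q), q < q0 → 1 < q → RealPrim q χ →
    NoSZ c q χ := by
  classical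
  induction q0 with
  | zero => exact ⟨1, one_pos, fun q _ χ h => absurd h (by omega)⟩
  | succ m ih =>
    obtain ⟨c, hc, h⟩ := ih
    rcases Nat.eq_zero_or_pos m with hm | hm
    · refine ⟨c, hc, fun q _ χ h2 h3 => absurd h2 (by omega)⟩
    · haveI : NeZero m := ⟨hm.ne'⟩
      have key : ∀ χ : DirichletCharacter ℂ m, ∃ c' : ℝ, 0 < c' ∧ (1 < m → RealPrim m χ → NoSZ c' m χ) := by
        intro χ
        by_cases h1 : 1 < m ∧ RealPrim m χ
        · obtain ⟨c', hc', h2⟩ := noSZ_exists h1.1 h1.2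
          exact ⟨c', hc', fun _ _ => h2⟩
        · exact ⟨1, one_pos, fun h2 h3 => absurd ⟨h2, h3⟩ h1⟩
      choose f hf hg using key
      haveI : Finite (DirichletCharacter ℂ m) := inferInstance
      haveI : Fintype (DirichletCharacter ℂ m) := Fintype.ofFinite _
      obtain ⟨c2, hc2, h2⟩ : ∃ c2 : ℝ, 0 < c2 ∧ ∀ χ : DirichletCharacter ℂ m, c2 ≤ f χ := by
        obtain ⟨χ0, _, hχ0⟩ := Finset.exists_min_image (Finset.univ : Finset (DirichletCharacter ℂ m)) f ⟨1, mem_univ _⟩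
        exact ⟨f χ0, hf χ0, fun χ => hχ0 χ (mem_univ _)⟩
      refine ⟨min c c2, lt_min hc hc2, ?_⟩
      intro q _ χ hqm hq1 hχ
      rcases Nat.lt_succ_iff_lt_or_eq.1 hqm with h3 | h3
      · exact (h q χ h3 hq1 hχ).mono (min_le_left _ _)
      · subst h3
        exact (hg χ hq1 hχ).mono ((min_le_right _ _).trans (h2 χ))

theorem main2 (θ : ℝ) (h0 : 0 < θ) (h1 : θ < 1)
    (hd : ∃ (C : ℝ) (N₀ : ℕ), ∀ N : ℕ, N₀ ≤ N → D g1 N θ ≤ C * N * Real.log N ^ (-(7 : ℝ))) :
    ∃ c : ℝ, 0 < c ∧ ∀ (q : ℕ) [NeZero q] (χ : DirichletCharacter ℂ q), 1 < q → RealPrim q χ → NoSZ c q χ := by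
  obtain ⟨m0, K, c, hm0, hK, hc, hmain⟩ := main1 θ h0 h1
  obtain ⟨C, N0, hC⟩ := hd
  obtain ⟨N1, hN1⟩ := ev_nat ((ev_log_ge (C + 1)).and (ev_log_ge 1))
  obtain ⟨c1, hc1, hsmall⟩ := small_q (max (max N0 N1) (m0 + 3))
  refine ⟨min c1 (c / (2 * K)), by positivity, ?_⟩
  intro q _ χ hq hχ
  by_cases hlt : q < max (max N0 N1) (m0 + 3)
  · exact (hsmall q χ hlt hq hχ).mono (min_le_left _ _)
  · push Not at hlt
    have g0 : N0 ≤ q := ((le_max_left _ _).trans (le_max_left _ _)).trans hlt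
    have g1' : N1 ≤ q := ((le_max_right _ _).trans (le_max_left _ _)).trans hlt
    have g2 : m0 + 3 ≤ q := (le_max_right _ _).trans hlt
    apply NoSZ.mono _ (min_le_right _ _)
    have hqK : q ^ 1 ≤ q ^ K := Nat.pow_le_pow_right (by omega) hK
    rw [pow_one] at hqK
    obtain ⟨N, hN⟩ : ∃ N, N = m0 * q ^ K := ⟨_, rfl⟩
    have hNK : q ^ K ≤ N := by rw [hN]; exact Nat.le_mul_of_pos_left _ hm0
    have hqN : q ≤ N := hqK.trans hNK
    have hdvd : m0 * q ∣ N := by
      rw [hN]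
      exact Nat.mul_dvd_mul_left _ (dvd_pow_self q hK.ne')
    have hqR : (3 : ℝ) ≤ q := by exact_mod_cast (by omega : 3 ≤ q)
    have hNpos : 0 < N := by omega
    have hNR : (0 : ℝ) < N := by exact_mod_cast hNpos
    have hlogq : 0 < Real.log q := Real.log_pos (by linarith)
    have hlogN : Real.log N ≤ 2 * K * Real.log q := by
      have h2 : (N : ℝ) ≤ (q : ℝ) ^ (2 * K) := by
        have : N ≤ q ^ (2 * K) := by
          rw [hN]
          calc m0 * q ^ K ≤ q * q ^ K := Nat.mul_le_mul_right _ (by omega)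
            _ ≤ q ^ K * q ^ K := Nat.mul_le_mul_right _ hqK
            _ = q ^ (2 * K) := by rw [← pow_add]; congr 1; omega
        exact_mod_cast this
      have h3 := Real.log_le_log hNR h2
      rw [Real.log_pow] at h3
      push_cast at h3
      exact h3
    obtain ⟨e1, e2⟩ := hN1 N (by exact_mod_cast (g1'.trans hqN))
    have hl0 : 0 < Real.log N := by linarith
    have hnot : ¬ (‖χ.LFunction 1‖ * Real.log N ≤ c ∨ ∃ β : ℝ, β < 1 ∧ χ.LFunction β = 0 ∧ (1 - β) * Real.log N ≤ c) := by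
      intro hexc
      have h2 := hmain q χ N hq hχ hdvd hNpos hNK hexc
      have h3 := hC N (g0.trans hqN)
      have h4 : Real.log (N : ℝ) ^ (-(7 : ℝ)) = 1 / Real.log N ^ 7 := by
        rw [Real.rpow_neg hl0.le, one_div]
        congr 1
        exact_mod_cast Real.rpow_natCast (Real.log N) 7
      rw [h4] at h3
      have h5 : (N : ℝ) / Real.log N ^ 6 ≤ C * N * (1 / Real.log N ^ 7) := h2.trans h3
      have h6 : (N : ℝ) / Real.log N ^ 6 = N * Real.log N * (1 / Real.log N ^ 7) := by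
        field_simp
      rw [h6] at h5
      have h7 : (N : ℝ) * Real.log N ≤ C * N := le_of_mul_le_mul_right h5 (by positivity)
      nlinarith
    push Not at hnot
    obtain ⟨n1, n2⟩ := hnot
    have hKR : (0 : ℝ) < K := by exact_mod_cast hK
    have hcl : c / (2 * K) / Real.log q * Real.log N ≤ c := by
      rw [div_div, div_mul_eq_mul_div, div_le_iff₀ (by positivity)]
      exact mul_le_mul_of_nonneg_left hlogN hc.le
    refine ⟨?_, ?_⟩
    · by_contra hlt'
      push Not at hlt'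
      have := mul_le_mul_of_nonneg_right hlt'.le hl0.le
      linarith
    · intro β hβ hβ0
      by_cases hβ1 : β < 1
      · have h2 := n2 β hβ1 hβ0
        have h3 : (1 - β) * Real.log N ≤ c / (2 * K) / Real.log q * Real.log N :=
          mul_le_mul_of_nonneg_right (by linarith) hl0.le
        linarith
      · push Not at hβ1
        exact DirichletCharacter.LFunction_ne_zero_of_one_le_re χ (Or.inl (Pool.Agent.E8helper63.SZ.ne_one hq hχ))
          (by simpa using hβ1) hβ0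

end Pool.Agent.H534.SZ
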