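import Pool.Agent.H534.SZ.Dist

/-! Local densities and the evaluation of the main term. -/

set_option autoImplicit false

namespace Pool.Agent.H534.SZ

open Finset
open Pool.Agent.E8helper22.SZ

/-- `n` is hit by the prime `p`: `n ≡ 0` or `n ≡ a p` modulo `p`. -/
def hitp (a : ℕ → ℕ) (p n : ℕ) : Prop := p ∣ n ∨ n ≡ a p [MOD p]

instance (a : ℕ → ℕ) (p n : ℕ) : Decidable (hitp a p n) := by unfold hitp; infer_instance

/-- the number of classes -/
def cc (a : ℕ → ℕ) (p : ℕ) : ℕ := if p ∣ a p then 1 else 2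

/-- the number of `e` modulo `p` with `d e` hit -/
def rho (a : ℕ → ℕ) (p d : ℕ) : ℕ := if p ∣ d then p else cc a p

theorem hitp_congr (a : ℕ → ℕ) (p n n' : ℕ) (h : n ≡ n' [MOD p]) : hitp a p n ↔ hitp a p n' := by
  unfold hitp
  rw [h.dvd_iff (dvd_refl p)]
  constructor
  · rintro (h1 | h1)
    · exact Or.inl h1
    · exact Or.inr (h.symm.trans h1)
  · rintro (h1 | h1)
    · exact Or.inl h1
    · exact Or.inr (h.trans h1)

theorem local_count (a : ℕ → ℕ) (p d : ℕ) (hp : p.Prime) :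
    ∑ i ∈ range p, (if hitp a p (d * i) then (1 : ℝ) else 0) = rho a p d := by
  have hF : Fact p.Prime := ⟨hp⟩
  unfold rho
  split_ifs with hd
  · have h1 : ∀ i ∈ range p, (if hitp a p (d * i) then (1 : ℝ) else 0) = 1 := by
      intro i _
      rw [if_pos (show hitp a p (d * i) from Or.inl (hd.mul_right i))]
    rw [sum_congr rfl h1]
    simp
  · have hd0 : (d : ZMod p) ≠ 0 := by
      rw [Ne, ZMod.natCast_eq_zero_iff]; exact hd
    have h2 : ∑ i ∈ range p, (if hitp a p (d * i) then (1 : ℝ) else 0) =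
        ∑ x : ZMod p, (if (d : ZMod p) * x = 0 ∨ (d : ZMod p) * x = (a p : ZMod p) then (1 : ℝ) else 0) := by
      refine Finset.sum_nbij' (fun j : ℕ => (j : ZMod p)) (fun a : ZMod p => a.val) ?_ ?_ ?_ ?_ ?_
      · intro a _; exact mem_univ _
      · intro a _; exact mem_range.2 (ZMod.val_lt a)
      · intro a ha; exact ZMod.val_cast_of_lt (mem_range.1 ha)
      · intro a _; simp
      · intro i _
        have h3 : hitp a p (d * i) ↔ ((d : ZMod p) * (i : ZMod p) = 0 ∨ (d : ZMod p) * (i : ZMod p) = (a p : ZMod p)) := by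
          unfold hitp
          rw [← ZMod.natCast_eq_zero_iff, ← ZMod.natCast_eq_natCast_iff]
          push_cast
          rfl
        simp only [h3]
    rw [h2]
    have h4 : ∑ x : ZMod p, (if (d : ZMod p) * x = 0 ∨ (d : ZMod p) * x = (a p : ZMod p) then (1 : ℝ) else 0) =
        ∑ y : ZMod p, (if y = 0 ∨ y = (a p : ZMod p) then (1 : ℝ) else 0) :=
      Equiv.sum_comp (Equiv.mulLeft₀ (d : ZMod p) hd0)
        (fun y : ZMod p => if y = 0 ∨ y = (a p : ZMod p) then (1 : ℝ) else 0)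
    rw [h4]
    rw [← Finset.sum_filter, sum_const, nsmul_eq_mul, mul_one]
    have h5 : (univ : Finset (ZMod p)).filter (fun y => y = 0 ∨ y = (a p : ZMod p)) = {0, (a p : ZMod p)} := by
      ext y; simp
    rw [h5]
    unfold cc
    split_ifs with h6
    · have h7 : (a p : ZMod p) = 0 := by rw [ZMod.natCast_eq_zero_iff]; exact h6
      rw [h7]
      simp
    · have h7 : (0 : ZMod p) ≠ (a p : ZMod p) := by
        intro h8
        apply h6
        rw [← ZMod.natCast_eq_zero_iff]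
        exact h8.symm
      rw [Finset.card_pair h7]

theorem prod_count (a : ℕ → ℕ) (T : Finset ℕ) (hT : ∀ p ∈ T, p.Prime) (d : ℕ) :
    ∑ i ∈ range (∏ p ∈ T, p), (if ∀ p ∈ T, hitp a p (d * i) then (1 : ℝ) else 0) = ∏ p ∈ T, (rho a p d : ℝ) := by
  classical
  induction T using Finset.induction_on with
  | empty => simp
  | insert p T hpT ih =>
    rw [Finset.prod_insert hpT, Finset.prod_insert hpT]
    have hp : p.Prime := hT p (mem_insert_self _ _)
    have hT' : ∀ r ∈ T, r.Prime := fun r hr => hT r (mem_insert_of_mem hr)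
    have hu' : 0 < ∏ p ∈ T, p := Finset.prod_pos fun r hr => (hT' r hr).pos
    have hcop : p.Coprime (∏ p ∈ T, p) := by
      apply Nat.Coprime.prod_right
      intro r hr
      rw [Nat.coprime_primes hp (hT' r hr)]
      rintro rfl
      exact hpT hr
    have h1 : ∀ i : ℕ, (if ∀ r ∈ insert p T, hitp a r (d * i) then (1 : ℝ) else 0) =
        (fun j => if hitp a p (d * j) then (1 : ℝ) else 0) (i % p) *
        (fun j => if ∀ r ∈ T, hitp a r (d * j) then (1 : ℝ) else 0) (i % ∏ p ∈ T, p) := by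
      intro i
      have h2 : hitp a p (d * (i % p)) ↔ hitp a p (d * i) :=
        hitp_congr a p _ _ ((Nat.mod_modEq _ _).mul_left d)
      have h3 : (∀ r ∈ T, hitp a r (d * (i % ∏ p ∈ T, p))) ↔ ∀ r ∈ T, hitp a r (d * i) := by
        apply forall₂_congr
        intro r hr
        apply hitp_congr
        exact ((Nat.mod_modEq i (∏ p ∈ T, p)).of_dvd (Finset.dvd_prod_of_mem _ hr)).mul_left d
      simp only [h2, h3, Finset.forall_mem_insert]
      by_cases h4 : hitp a p (d * i) <;> simp [h4]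
    rw [sum_congr rfl (fun i _ => h1 i), crt_sum p _ hp.pos hu' hcop (fun j => if hitp a p (d * j) then (1 : ℝ) else 0)
      (fun j => if ∀ r ∈ T, hitp a r (d * j) then (1 : ℝ) else 0), local_count a p d hp, ih hT']

theorem cnt_eq (q : ℕ) (hq : 0 < q) (a : ℕ → ℕ) (T : Finset ℕ) (hT : ∀ p ∈ T, p.Prime ∧ ¬ p ∣ q) (d : ℕ) :
    cnt q (∏ p ∈ T, p) (fun n => ∀ p ∈ T, hitp a p n) d = (Nat.totient q : ℝ) * ∏ p ∈ T, (rho a p d : ℝ) := by
  have hu : 0 < ∏ p ∈ T, p := Finset.prod_pos fun r hr => (hT r hr).1.pos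
  have hcop : (∏ p ∈ T, p).Coprime q := by
    apply Nat.Coprime.prod_left
    intro r hr
    rw [(hT r hr).1.coprime_iff_not_dvd]
    exact (hT r hr).2
  unfold cnt
  have h1 : ∀ e : ℕ, (if e.Coprime q then (1 : ℝ) else 0) * (if ∀ p ∈ T, hitp a p (d * e) then 1 else 0) =
      (fun j => if ∀ r ∈ T, hitp a r (d * j) then (1 : ℝ) else 0) (e % ∏ p ∈ T, p) *
      (fun j => if j.Coprime q then (1 : ℝ) else 0) (e % q) := by
    intro e
    have h3 : (∀ r ∈ T, hitp a r (d * (e % ∏ p ∈ T, p))) ↔ ∀ r ∈ T, hitp a r (d * e) := by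
      apply forall₂_congr
      intro r hr
      apply hitp_congr
      exact ((Nat.mod_modEq e (∏ p ∈ T, p)).of_dvd (Finset.dvd_prod_of_mem _ hr)).mul_left d
    have h4 : (e % q).Coprime q ↔ e.Coprime q := by
      rw [Nat.coprime_iff_gcd_eq_one, Nat.coprime_iff_gcd_eq_one, ← Nat.gcd_rec, Nat.gcd_comm]
    simp only [h3, h4]
    ring
  rw [sum_congr rfl (fun i _ => h1 i), crt_sum _ q hu hq hcop (fun j => if ∀ r ∈ T, hitp a r (d * j) then (1 : ℝ) else 0)
      (fun j => if j.Coprime q then (1 : ℝ) else 0), prod_count a T (fun p hp => (hT p hp).1) d, mul_comm]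
  congr 1
  rw [← Finset.sum_filter, sum_const, nsmul_eq_mul, mul_one, Nat.totient_eq_card_coprime]
  norm_cast
  congr 1
  apply Finset.filter_congr
  intro j _
  exact Nat.coprime_comm

/-- `L(1, χ)` -/
noncomputable def Lr {q : ℕ} [NeZero q] (χ : DirichletCharacter ℂ q) : ℝ := (χ.LFunction 1).re

theorem psum {q : ℕ} [NeZero q] {χ : DirichletCharacter ℂ q} (hq : 1 < q) (hχ : RealPrim q χ) (Z : ℕ) :
    |∑ d ∈ Icc 1 Z, cv χ d / d - Lr χ| ≤ 2 * q / ((Z : ℝ) + 1) := by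
  have h1 := Pool.Agent.E8helper23.SZ.tail_one χ (Pool.Agent.E8helper63.SZ.ne_one hq hχ) Z
  have h2 : (∑ i ∈ range (Z + 1), χ (i : ZMod q) * (((i : ℝ)⁻¹ : ℝ) : ℂ)) =
      ((∑ d ∈ Icc 1 Z, cv χ d / d : ℝ) : ℂ) := by
    have h3 : ∀ i : ℕ, χ (i : ZMod q) * (((i : ℝ)⁻¹ : ℝ) : ℂ) = ((cv χ i / i : ℝ) : ℂ) := by
      intro i
      rw [cv_eq hχ, div_eq_mul_inv]
      push_cast
      ring
    rw [sum_congr rfl (fun i _ => h3 i), ← Complex.ofReal_sum]
    congr 1
    rw [Finset.range_eq_Ico, Finset.sum_eq_sum_Ico_succ_bot (by omega)]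
    have h4 : Ico (0 + 1) (Z + 1) = Icc 1 Z := by ext; simp only [mem_Ico, mem_Icc]; omega
    rw [h4]
    simp
  rw [h2] at h1
  have h5 : |∑ d ∈ Icc 1 Z, cv χ d / d - Lr χ| ≤ ‖χ.LFunction 1 - ((∑ d ∈ Icc 1 Z, cv χ d / d : ℝ) : ℂ)‖ := by
    have h6 := Complex.abs_re_le_norm (χ.LFunction 1 - ((∑ d ∈ Icc 1 Z, cv χ d / d : ℝ) : ℂ))
    rw [Complex.sub_re, Complex.ofReal_re] at h6
    rw [abs_sub_comm]
    exact h6
  refine h5.trans (h1.trans (le_of_eq ?_))
  push_cast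
  rw [div_eq_mul_inv]

/-- the sum in the main term -/
noncomputable def G {q : ℕ} (χ : DirichletCharacter ℂ q) (a : ℕ → ℕ) (T : Finset ℕ) (Z : ℕ) : ℝ :=
  ∑ d ∈ Icc 1 Z, cv χ d / d * ∏ p ∈ T, (rho a p d : ℝ)

theorem sum_dvd (p : ℕ) (hp : 0 < p) (Z : ℕ) (f : ℕ → ℝ) :
    ∑ d ∈ (Icc 1 Z).filter (fun d => p ∣ d), f d = ∑ d ∈ Icc 1 (Z / p), f (p * d) := by
  symm
  refine Finset.sum_nbij' (fun d => p * d) (fun d => d / p) ?_ ?_ ?_ ?_ ?_
  · intro d hd
    simp only [mem_filter, mem_Icc] at hd ⊢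
    refine ⟨⟨Nat.mul_pos hp (by omega), ?_⟩, dvd_mul_right _ _⟩
    have := hd.2
    rw [Nat.le_div_iff_mul_le hp] at this
    rw [mul_comm]; exact this
  · intro d hd
    simp only [mem_filter, mem_Icc] at hd ⊢
    exact ⟨Nat.div_pos (Nat.le_of_dvd (by omega) hd.2) hp, Nat.div_le_div_right hd.1.2⟩
  · intro d _
    exact Nat.mul_div_cancel_left d hp
  · intro d hd
    simp only [mem_filter] at hd
    exact Nat.mul_div_cancel' hd.2
  · intro d _; rfl

theorem cc_le (a : ℕ → ℕ) (p : ℕ) : 1 ≤ cc a p ∧ cc a p ≤ 2 := by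
  unfold cc; split_ifs <;> omega

theorem G_insert {q : ℕ} {χ : DirichletCharacter ℂ q} (hχ : RealPrim q χ) (a : ℕ → ℕ) (T : Finset ℕ) (p : ℕ)
    (hT : ∀ r ∈ T, r.Prime) (hp : p.Prime) (hpT : p ∉ T) (Z : ℕ) :
    G χ a (insert p T) Z = cc a p * G χ a T Z + ((p : ℝ) - cc a p) * (cv χ p / p) * G χ a T (Z / p) := by
  classical
  unfold G
  have h1 : ∀ d ∈ Icc 1 Z, cv χ d / d * ∏ r ∈ insert p T, (rho a r d : ℝ) =
      (cc a p : ℝ) * (cv χ d / d * ∏ r ∈ T, (rho a r d : ℝ)) +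
        (if p ∣ d then ((p : ℝ) - cc a p) * (cv χ d / d * ∏ r ∈ T, (rho a r d : ℝ)) else 0) := by
    intro d _
    rw [Finset.prod_insert hpT]
    have h2 : (rho a p d : ℝ) = cc a p + (if p ∣ d then ((p : ℝ) - cc a p) else 0) := by
      unfold rho
      split_ifs <;> ring
    rw [h2]
    split_ifs <;> ring
  rw [sum_congr rfl h1, sum_add_distrib, ← Finset.mul_sum, ← Finset.sum_filter, sum_dvd p hp.pos]
  congr 1
  rw [Finset.mul_sum]
  apply sum_congr rfl
  intro d hd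
  rw [mem_Icc] at hd
  have hp0 : (p : ℝ) ≠ 0 := by exact_mod_cast hp.pos.ne'
  have hd0 : (d : ℝ) ≠ 0 := by exact_mod_cast (by omega : d ≠ 0)
  have h3 : ∏ r ∈ T, (rho a r (p * d) : ℝ) = ∏ r ∈ T, (rho a r d : ℝ) := by
    apply prod_congr rfl
    intro r hr
    unfold rho
    have h4 : r ∣ p * d ↔ r ∣ d := by
      rw [(hT r hr).dvd_mul]
      constructor
      · rintro (h5 | h5)
        · exfalso
          have := (Nat.prime_dvd_prime_iff_eq (hT r hr) hp).1 h5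
          subst this
          exact hpT hr
        · exact h5
      · exact Or.inr
    simp only [h4]
  rw [h3, cv_mul hχ]
  push_cast
  field_simp

theorem G_eval {q : ℕ} [NeZero q] {χ : DirichletCharacter ℂ q} (hq : 1 < q) (hχ : RealPrim q χ) (a : ℕ → ℕ) (T : Finset ℕ)
    (hT : ∀ r ∈ T, r.Prime) (Z : ℕ) :
    |G χ a T Z - Lr χ * ∏ p ∈ T, ((cc a p : ℝ) + ((p : ℝ) - cc a p) * (cv χ p / p))| ≤
      2 * q * (∏ p ∈ T, (p : ℝ)) / ((Z : ℝ) + 1) := by
  classical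
  induction T using Finset.induction_on generalizing Z with
  | empty =>
    unfold G
    simp only [Finset.prod_empty, mul_one]
    exact psum hq hχ Z
  | insert p T hpT ih =>
    have hp : p.Prime := hT p (mem_insert_self _ _)
    have hT' : ∀ r ∈ T, r.Prime := fun r hr => hT r (mem_insert_of_mem hr)
    rw [G_insert hχ a T p hT' hp hpT, Finset.prod_insert hpT, Finset.prod_insert hpT]
    set W := ∏ p ∈ T, ((cc a p : ℝ) + ((p : ℝ) - cc a p) * (cv χ p / p)) with hW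
    set U := ∏ p ∈ T, (p : ℝ) with hU
    have hU0 : 0 ≤ U := Finset.prod_nonneg fun p _ => Nat.cast_nonneg p
    have i1 := ih hT' Z
    have i2 := ih hT' (Z / p)
    have hp0 : (0 : ℝ) < p := by exact_mod_cast hp.pos
    have hp2 : (2 : ℝ) ≤ p := by exact_mod_cast hp.two_le
    have hc1 : (0 : ℝ) ≤ cc a p := Nat.cast_nonneg _
    have hc2 : (cc a p : ℝ) ≤ 2 := by exact_mod_cast (cc_le a p).2
    have hpc : 0 ≤ (p : ℝ) - cc a p := by linarith
    have e1 : (cc a p : ℝ) * G χ a T Z + ((p : ℝ) - cc a p) * (cv χ p / p) * G χ a T (Z / p) -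
        Lr χ * (((cc a p : ℝ) + ((p : ℝ) - cc a p) * (cv χ p / p)) * W) =
        (cc a p : ℝ) * (G χ a T Z - Lr χ * W) + ((p : ℝ) - cc a p) * (cv χ p / p) * (G χ a T (Z / p) - Lr χ * W) := by ring
    rw [e1]
    have hZ : (Z : ℝ) + 1 ≤ p * (((Z / p : ℕ) : ℝ) + 1) := by
      have h3 : Z < p * (Z / p + 1) := by
        rw [mul_add, mul_one]
        have := Nat.div_add_mod Z p
        have := Nat.mod_lt Z hp.pos
        omega
      have h4 : Z + 1 ≤ p * (Z / p + 1) := h3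
      exact_mod_cast h4
    have hZ0 : (0 : ℝ) < (Z : ℝ) + 1 := by positivity
    have hZp0 : (0 : ℝ) < ((Z / p : ℕ) : ℝ) + 1 := by positivity
    have i3 : |(cv χ p / p) * (G χ a T (Z / p) - Lr χ * W)| ≤ 2 * q * U / ((Z : ℝ) + 1) := by
      rw [abs_mul]
      have h5 : |cv χ p / p| ≤ 1 / p := by
        rw [abs_div, abs_of_pos hp0]
        gcongr
        exact cv_abs hχ p
      calc |cv χ p / p| * |G χ a T (Z / p) - Lr χ * W| ≤ 1 / p * (2 * q * U / (((Z / p : ℕ) : ℝ) + 1)) :=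
            mul_le_mul h5 i2 (abs_nonneg _) (by positivity)
        _ = 2 * q * U / (p * (((Z / p : ℕ) : ℝ) + 1)) := by field_simp
        _ ≤ 2 * q * U / ((Z : ℝ) + 1) := by gcongr
    calc |(cc a p : ℝ) * (G χ a T Z - Lr χ * W) + ((p : ℝ) - cc a p) * (cv χ p / p) * (G χ a T (Z / p) - Lr χ * W)|
        ≤ |(cc a p : ℝ) * (G χ a T Z - Lr χ * W)| + |((p : ℝ) - cc a p) * (cv χ p / p) * (G χ a T (Z / p) - Lr χ * W)| :=
          abs_add_le _ _
      _ = (cc a p : ℝ) * |G χ a T Z - Lr χ * W| + ((p : ℝ) - cc a p) * |(cv χ p / p) * (G χ a T (Z / p) - Lr χ * W)| := by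
          rw [abs_mul, abs_of_nonneg hc1, mul_assoc ((p : ℝ) - cc a p), abs_mul ((p : ℝ) - cc a p), abs_of_nonneg hpc]
      _ ≤ (cc a p : ℝ) * (2 * q * U / ((Z : ℝ) + 1)) + ((p : ℝ) - cc a p) * (2 * q * U / ((Z : ℝ) + 1)) := by gcongr
      _ = 2 * q * (p * U) / ((Z : ℝ) + 1) := by ring

/-- the density of the hit integers -/
noncomputable def gd {q : ℕ} (χ : DirichletCharacter ℂ q) (a : ℕ → ℕ) (p : ℕ) : ℝ :=
  ((cc a p : ℝ) + ((p : ℝ) - cc a p) * (cv χ p / p)) / p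

/-- the distribution of the weights -/
theorem dist_hit {q : ℕ} [NeZero q] {χ : DirichletCharacter ℂ q} (hq : 1 < q) (hχ : RealPrim q χ) (a : ℕ → ℕ)
    (T : Finset ℕ) (hT : ∀ r ∈ T, r.Prime ∧ ¬ r ∣ q) (x : ℕ) (hx : 0 < x) :
    |∑ n ∈ (Icc 1 x).filter (fun n => ∀ p ∈ T, hitp a p n), wt χ n -
      (x * ((Nat.totient q : ℝ) / q) * Lr χ) * ∏ p ∈ T, gd χ a p| ≤ 11 * (∏ p ∈ T, (p : ℝ)) * q * √(x : ℝ) := by
  obtain ⟨u, hu⟩ : ∃ u, u = ∏ p ∈ T, p := ⟨_, rfl⟩
  have hu0 : 0 < u := by rw [hu]; exact Finset.prod_pos fun r hr => (hT r hr).1.pos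
  have hcop : u.Coprime q := by
    rw [hu]
    apply Nat.Coprime.prod_left
    intro r hr
    rw [(hT r hr).1.coprime_iff_not_dvd]
    exact (hT r hr).2
  obtain ⟨Y, hY⟩ : ∃ Y, Y = Nat.sqrt x := ⟨_, rfl⟩
  have hY0 : 0 < Y := by rw [hY]; exact Nat.sqrt_pos.2 hx
  have hYx : Y ≤ x := by rw [hY]; exact Nat.sqrt_le_self x
  have h1 := dist q χ hq hχ u hu0 hcop (fun n => ∀ p ∈ T, hitp a p n) (by
    intro n n' h
    apply forall₂_congr
    intro r hr
    apply hitp_congr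
    exact h.of_dvd (by rw [hu]; exact Finset.dvd_prod_of_mem _ hr)) x Y hY0 hYx
  have hq0 : (0 : ℝ) < q := by exact_mod_cast (by omega : 0 < q)
  have huR : (0 : ℝ) < u := by exact_mod_cast hu0
  have hYR : (0 : ℝ) < Y := by exact_mod_cast hY0
  have hxR : (0 : ℝ) < x := by exact_mod_cast hx
  have hs0 : 0 < √(x : ℝ) := Real.sqrt_pos.2 hxR
  have hss : √(x : ℝ) * √(x : ℝ) = x := Real.mul_self_sqrt hxR.le
  have e1 : ∑ d ∈ Icc 1 Y, cv χ d * ((x : ℝ) / d) * (cnt q u (fun n => ∀ p ∈ T, hitp a p n) d / (u * q : ℕ)) =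
      x * ((Nat.totient q : ℝ) / q) / u * G χ a T Y := by
    unfold G
    rw [Finset.mul_sum]
    apply sum_congr rfl
    intro d hd
    rw [mem_Icc] at hd
    have hd0 : (d : ℝ) ≠ 0 := by exact_mod_cast (by omega : d ≠ 0)
    rw [hu, cnt_eq q (by omega) a T hT d, ← hu]
    push_cast
    field_simp
  rw [e1] at h1
  have h2 := G_eval hq hχ a T (fun r hr => (hT r hr).1) Y
  have hcast : (∏ p ∈ T, (p : ℝ)) = u := by rw [hu]; push_cast; rfl
  rw [hcast] at h2 ⊢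
  have e2 : ∏ p ∈ T, gd χ a p = (∏ p ∈ T, ((cc a p : ℝ) + ((p : ℝ) - cc a p) * (cv χ p / p))) / u := by
    unfold gd
    rw [Finset.prod_div_distrib, hcast]
  rw [e2]
  set W := ∏ p ∈ T, ((cc a p : ℝ) + ((p : ℝ) - cc a p) * (cv χ p / p)) with hW
  have hφ : (Nat.totient q : ℝ) / q ≤ 1 := by
    rw [div_le_one hq0]; exact_mod_cast Nat.totient_le q
  have hφ0 : 0 ≤ (Nat.totient q : ℝ) / q := by positivity
  have h3 : |x * ((Nat.totient q : ℝ) / q) / u * G χ a T Y - (x * ((Nat.totient q : ℝ) / q) * Lr χ) * (W / u)| ≤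
      2 * q * (x / Y) := by
    have e3 : x * ((Nat.totient q : ℝ) / q) / u * G χ a T Y - (x * ((Nat.totient q : ℝ) / q) * Lr χ) * (W / u) =
        x * ((Nat.totient q : ℝ) / q) / u * (G χ a T Y - Lr χ * W) := by
      field_simp
    rw [e3, abs_mul, abs_of_nonneg (by positivity)]
    calc x * ((Nat.totient q : ℝ) / q) / u * |G χ a T Y - Lr χ * W| ≤ x * 1 / u * (2 * q * u / ((Y : ℝ) + 1)) := by
          gcongr
      _ = 2 * q * (x / ((Y : ℝ) + 1)) := by field_simp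
      _ ≤ 2 * q * (x / Y) := by
          gcongr
          linarith
  have hYs : (Y : ℝ) ≤ √(x : ℝ) := by
    rw [hY]; exact Real.nat_sqrt_le_real_sqrt
  have hxY : (x : ℝ) / Y ≤ 2 * √(x : ℝ) := by
    have h4 : √(x : ℝ) ≤ Y + 1 := by
      rw [hY]; exact Real.real_sqrt_le_nat_sqrt_succ
    have h5 : (1 : ℝ) ≤ Y := by exact_mod_cast hY0
    rw [div_le_iff₀ hYR]
    nlinarith
  have hu1 : (1 : ℝ) ≤ u := by exact_mod_cast hu0
  have e4 : ∀ A B C : ℝ, A - C = (A - B) + (B - C) := by intros; ring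
  rw [e4 _ (x * ((Nat.totient q : ℝ) / q) / u * G χ a T Y)]
  refine (abs_add_le _ _).trans ((add_le_add h1 h3).trans ?_)
  push_cast
  have h6 : 2 * (q : ℝ) * (x / Y) ≤ 2 * (u * q) * (x / Y) := by
    have : 0 ≤ (q : ℝ) * (x / Y) := by positivity
    nlinarith
  have h7 : 3 * ((u : ℝ) * q) * Y ≤ 3 * (u * q) * √(x : ℝ) := by gcongr
  have h8 : 4 * ((u : ℝ) * q) * (x / Y) ≤ 4 * (u * q) * (2 * √(x : ℝ)) := by gcongr
  nlinarith

end Pool.Agent.H534.SZ
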