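import Pool.Agent.H534.SZ.Upper
import Pool.Graph.R_seed8.Y889.PN.BVMax

/-! The sieve for the prime powers `n` with `N - n` without small prime factors. -/

set_option autoImplicit false

namespace Pool.Agent.H534.SZ

open Finset
open Pool.Agent.E8helper22.SZ
open Pool.Agent.Y889.PN (PS)

theorem sum_T2 (P : Finset ℕ) (hP : ∀ p ∈ P, p.Prime) (N : ℕ) (hPN : ∀ p ∈ P, ¬ p ∣ N) (D : ℕ) (F : ℕ → ℝ)
    (hF : ∀ d, 0 ≤ F d) :
    ∑ T ∈ P.powerset.filter (fun T : Finset ℕ => ∏ p ∈ T, p ≤ D), F (∏ p ∈ T, p) ≤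
      ∑ d ∈ (Icc 1 D).filter (fun d => d.Coprime N), F d := by
  classical
  have hinj : Set.InjOn (fun T : Finset ℕ => ∏ p ∈ T, p)
      (P.powerset.filter (fun T : Finset ℕ => ∏ p ∈ T, p ≤ D) : Set (Finset ℕ)) := by
    intro T hT T' hT' heq
    rw [Finset.mem_coe, mem_filter, mem_powerset] at hT hT'
    have h4 : ∀ U : Finset ℕ, U ⊆ P → (∏ p ∈ U, p).primeFactors = U := fun U hU =>
      Nat.primeFactors_prod (fun p hp => hP p (hU hp))
    simp only at heq
    rw [← h4 T hT.1, ← h4 T' hT'.1, heq]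
  rw [← Finset.sum_image (f := F) hinj]
  apply Finset.sum_le_sum_of_subset_of_nonneg
  · intro d hd
    obtain ⟨T, hT, rfl⟩ := Finset.mem_image.1 hd
    rw [mem_filter, mem_powerset] at hT
    rw [mem_filter, mem_Icc]
    refine ⟨⟨Finset.prod_pos fun p hp => (hP p (hT.1 hp)).pos, hT.2⟩, ?_⟩
    apply Nat.Coprime.prod_left
    intro p hp
    rw [(hP p (hT.1 hp)).coprime_iff_not_dvd]
    exact hPN p (hT.1 hp)
  · intro d _ _
    exact hF d

theorem totient_prod (T : Finset ℕ) (hT : ∀ p ∈ T, p.Prime) :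
    ∏ p ∈ T, 1 / ((p : ℝ) - 1) = 1 / (Nat.totient (∏ p ∈ T, p) : ℝ) := by
  classical
  induction T using Finset.induction_on with
  | empty => simp
  | insert p T hpT ih =>
    have hp : p.Prime := hT p (mem_insert_self _ _)
    have hT' : ∀ r ∈ T, r.Prime := fun r hr => hT r (mem_insert_of_mem hr)
    have hcop : p.Coprime (∏ p ∈ T, p) := by
      apply Nat.Coprime.prod_right
      intro r hr
      rw [Nat.coprime_primes hp (hT' r hr)]
      rintro rfl
      exact hpT hr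
    rw [Finset.prod_insert hpT, Finset.prod_insert hpT, Nat.totient_mul hcop, Nat.totient_prime hp, ih hT']
    rw [Nat.cast_mul, Nat.cast_sub hp.one_lt.le]
    push_cast
    rw [one_div_mul_one_div]

/-- the integers `n < N` with `N - n` without prime factors in `P` -/
def Rg (N : ℕ) (P : Finset ℕ) : Finset ℕ := (Ico 1 N).filter (fun n => ∀ p ∈ P, ¬ p ∣ N - n)

theorem main_sieve (N1 : ℕ) (hFL : FL N1) (b J z0 : ℕ) (hb : N1 * 3 + 2 * 3 + 10 ≤ b) (hz0 : N1 * 3 + 2 * 3 + 10 ≤ z0)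
    (N : ℕ) (hN : 2 ≤ N) (P : Finset ℕ) (hP : ∀ p ∈ P, p.Prime ∧ z0 < p ∧ p ≤ 2 ^ 2 ^ J) (hPN : ∀ p ∈ P, ¬ p ∣ N)
    (M : ℕ → ℝ) (hM0 : ∀ q, 0 ≤ M q)
    (hM : ∀ q, 1 ≤ q → ∀ a : ℕ, a.Coprime q → ∀ y : ℕ, y ≤ N → |PS y q a - y / (Nat.totient q : ℝ)| ≤ M q)
    (f : ℕ → ℝ) (hf : ∀ m, |f m| ≤ 1) :
    |∑ n ∈ Rg N P, ArithmeticFunction.vonMangoldt n * (1 + f (N - n)) - N * ∏ p ∈ P, (1 - 1 / ((p : ℝ) - 1))| ≤
      (1 / 2 : ℝ) ^ b * (N * ∏ p ∈ P, (1 - 1 / ((p : ℝ) - 1))) + ((J : ℝ) + 2) *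
        ∑ d ∈ (Icc 1 ((2 ^ 2 ^ J) ^ ((N1 * 1 + 2 * 1 + 10) * b))).filter (fun d => d.Coprime N),
          (M d + 1 + |∑ n ∈ (Ico 1 N).filter (fun n => n ≡ N [MOD d]),
            ArithmeticFunction.vonMangoldt n * f (N - n)|) := by
  set F : ℕ → ℝ := fun d => M d + 1 + |∑ n ∈ (Ico 1 N).filter (fun n => n ≡ N [MOD d]),
            ArithmeticFunction.vonMangoldt n * f (N - n)| with hF
  have hF0 : ∀ d, 0 ≤ F d := fun d => by
    have := hM0 d
    simp only [hF]
    positivity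
  have h1 := hFL 1 b J z0 P (fun p => 1 / ((p : ℝ) - 1)) (by omega) (by omega) hP (by
    intro p hp
    have h2 := hP p hp
    have h3 : (2 : ℝ) ≤ p := by exact_mod_cast h2.1.two_le
    constructor
    · apply one_div_nonneg.2; linarith
    · simp) (Ico 1 N) (fun n => ArithmeticFunction.vonMangoldt n * (1 + f (N - n))) (fun p n => p ∣ N - n)
    N (fun T => F (∏ p ∈ T, p)) (by
      intro n _
      have h4 := (abs_le.1 (hf (N - n))).1
      exact mul_nonneg ArithmeticFunction.vonMangoldt_nonneg (by linarith)) (Nat.cast_nonneg _) (by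
      intro T hT _
      obtain ⟨d, hd⟩ : ∃ d, d = ∏ p ∈ T, p := ⟨_, rfl⟩
      have hTp : ∀ p ∈ T, p.Prime := fun p hp => (hP p (hT hp)).1
      rw [totient_prod T hTp, ← hd]
      have hd0 : 0 < d := by rw [hd]; exact Finset.prod_pos fun p hp => (hTp p hp).pos
      have hcop : N.Coprime d := by
        rw [hd]
        apply Nat.Coprime.prod_right
        intro p hp
        rw [Nat.coprime_comm, (hTp p hp).coprime_iff_not_dvd]
        exact hPN p (hT hp)
      have e1 : (Ico 1 N).filter (fun n => ∀ p ∈ T, p ∣ N - n) = (Ico 1 N).filter (fun n => n ≡ N [MOD d]) := by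
        apply Finset.filter_congr
        intro n hn
        rw [mem_Ico] at hn
        rw [Nat.modEq_iff_dvd' hn.2.le, hd]
        constructor
        · intro h
          exact Finset.prod_primes_dvd _ (fun p hp => (hTp p hp).prime) h
        · intro h p hp
          exact (Finset.dvd_prod_of_mem _ hp).trans h
      rw [e1]
      have e2 : ∑ n ∈ (Ico 1 N).filter (fun n => n ≡ N [MOD d]), ArithmeticFunction.vonMangoldt n * (1 + f (N - n)) =
          PS (N - 1) d N + ∑ n ∈ (Ico 1 N).filter (fun n => n ≡ N [MOD d]), ArithmeticFunction.vonMangoldt n * f (N - n) := by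
        unfold PS
        have e3 : Icc 1 (N - 1) = Ico 1 N := by ext n; simp only [mem_Icc, mem_Ico]; omega
        rw [e3, ← sum_add_distrib]
        apply sum_congr rfl
        intro n _
        ring
      rw [e2]
      have h5 := hM d hd0 N hcop (N - 1) (by omega)
      have hφ : (1 : ℝ) ≤ (Nat.totient d : ℝ) := by exact_mod_cast Nat.totient_pos.2 hd0
      have h6 : |((N - 1 : ℕ) : ℝ) / (Nat.totient d : ℝ) - N * (1 / (Nat.totient d : ℝ))| ≤ 1 := by
        rw [Nat.cast_sub (by omega)]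
        have e4 : ((N : ℝ) - (1 : ℕ)) / (Nat.totient d : ℝ) - N * (1 / (Nat.totient d : ℝ)) = -(1 / (Nat.totient d : ℝ)) := by
          push_cast; ring
        rw [e4, abs_neg, abs_of_nonneg (by positivity)]
        rw [div_le_one (by linarith)]
        exact hφ
      simp only [hF]
      set S := ∑ n ∈ (Ico 1 N).filter (fun n => n ≡ N [MOD d]), ArithmeticFunction.vonMangoldt n * f (N - n)
      have e5 : PS (N - 1) d N + S - N * (1 / (Nat.totient d : ℝ)) =
          (PS (N - 1) d N - ((N - 1 : ℕ) : ℝ) / (Nat.totient d : ℝ)) +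
          (((N - 1 : ℕ) : ℝ) / (Nat.totient d : ℝ) - N * (1 / (Nat.totient d : ℝ))) + S := by ring
      rw [e5]
      refine (abs_add_le _ _).trans (add_le_add ((abs_add_le _ _).trans (add_le_add h5 h6)) le_rfl))
  refine h1.trans ?_
  have h2 := sum_T2 P (fun p hp => (hP p hp).1) N hPN ((2 ^ 2 ^ J) ^ ((N1 * 1 + 2 * 1 + 10) * b)) F hF0
  gcongr

end Pool.Agent.H534.SZ
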