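import Pool.Graph.R_pool_sql_team_seeded_b677cdb8.E8helper63.SZ.Pos
import Pool.Graph.R_pool_sql_team_seeded_b677cdb8.E8helper63.SZ.Zero
import Pool.Graph.R_pool_sql_team_seeded_b677cdb8.E8helper23.SZ.Lsum

/-! Sums of periodic functions, and sums of a real character over residue classes. -/

set_option autoImplicit false

namespace Pool.Agent.H534.SZ

open Finset
open Pool.Agent.E8helper22.SZ

theorem win (m : ℕ) (f : ℕ → ℝ) (hp : ∀ n, f (n + m) = f n) (a : ℕ) :
    ∑ i ∈ range m, f (a + i) = ∑ i ∈ range m, f i := by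
  induction a with
  | zero => simp
  | succ a ih =>
    rw [← ih]
    have h1 : ∑ i ∈ range (m + 1), f (a + i) = ∑ i ∈ range m, f (a + (i + 1)) + f (a + 0) :=
      Finset.sum_range_succ' _ _
    have h2 : ∑ i ∈ range (m + 1), f (a + i) = ∑ i ∈ range m, f (a + i) + f (a + m) :=
      Finset.sum_range_succ _ _
    rw [hp] at h2
    have h3 : ∑ i ∈ range m, f (a + (i + 1)) = ∑ i ∈ range m, f (a + 1 + i) := by
      apply sum_congr rfl
      intro i _
      congr 1
      ring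
    rw [h3] at h1
    simp only [add_zero] at h1
    linarith

theorem win2 (m : ℕ) (f : ℕ → ℝ) (hp : ∀ n, f (n + m) = f n) (a k r : ℕ) :
    ∑ i ∈ range (k * m + r), f (a + i) = k * (∑ i ∈ range m, f i) + ∑ i ∈ range r, f (a + k * m + i) := by
  induction k generalizing a with
  | zero => simp
  | succ k ih =>
    have e : (k + 1) * m + r = m + (k * m + r) := by ring
    rw [e, Finset.sum_range_add, win m f hp a]
    have h1 : ∑ x ∈ range (k * m + r), f (a + (m + x)) = ∑ x ∈ range (k * m + r), f (a + m + x) := by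
      apply sum_congr rfl
      intro i _
      congr 1
      ring
    rw [h1, ih (a + m)]
    have h2 : ∑ i ∈ range r, f (a + m + k * m + i) = ∑ i ∈ range r, f (a + (k + 1) * m + i) := by
      apply sum_congr rfl
      intro i _
      congr 1
      ring
    rw [h2]
    push_cast
    ring

/-- sums of periodic functions -/
theorem per_sum (m : ℕ) (hm : 0 < m) (f : ℕ → ℝ) (hf : ∀ n, |f n| ≤ 1) (hp : ∀ n, f (n + m) = f n)
    (a b : ℕ) (hab : a ≤ b) :
    |∑ n ∈ Ioc a b, f n - ((b : ℝ) - a) * ((∑ i ∈ range m, f i) / m)| ≤ 2 * m := by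
  have hI : Ioc a b = Ico (a + 1) (b + 1) := by
    ext n; simp only [mem_Ioc, mem_Ico]; omega
  rw [hI, Finset.sum_Ico_eq_sum_range]
  have e1 : b + 1 - (a + 1) = (b - a) / m * m + (b - a) % m := by
    rw [Nat.div_add_mod' (b - a) m]; omega
  rw [e1, win2 m f hp]
  have hr : (b - a) % m < m := Nat.mod_lt _ hm
  have hmR : (0 : ℝ) < m := by exact_mod_cast hm
  have e2 : ((b : ℝ) - a) = (((b - a) / m : ℕ) : ℝ) * m + (((b - a) % m : ℕ) : ℝ) := by
    have h : ((b - a : ℕ) : ℝ) = (((b - a) / m * m + (b - a) % m : ℕ) : ℝ) := by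
      rw [Nat.div_add_mod']
    rw [Nat.cast_sub hab] at h
    rw [h]
    push_cast
    ring
  rw [e2]
  set S := ∑ i ∈ range m, f i with hS
  set k := (b - a) / m
  set r := (b - a) % m with hrdef
  have hS1 : |S| ≤ m := by
    calc |S| ≤ ∑ i ∈ range m, |f i| := Finset.abs_sum_le_sum_abs _ _
      _ ≤ ∑ i ∈ range m, (1 : ℝ) := sum_le_sum fun i _ => hf i
      _ = m := by simp
  have hR1 : |∑ i ∈ range r, f (a + 1 + k * m + i)| ≤ r := by
    calc _ ≤ ∑ i ∈ range r, |f (a + 1 + k * m + i)| := Finset.abs_sum_le_sum_abs _ _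
      _ ≤ ∑ i ∈ range r, (1 : ℝ) := sum_le_sum fun i _ => hf _
      _ = r := by simp
  have hrm : (r : ℝ) ≤ m := by exact_mod_cast hr.le
  have hSm : |S / m| ≤ 1 := by
    rw [abs_div, abs_of_pos hmR, div_le_one hmR]
    exact hS1
  have e3 : (k : ℝ) * S + ∑ i ∈ range r, f (a + 1 + k * m + i) - (k * m + r) * (S / m) =
      ∑ i ∈ range r, f (a + 1 + k * m + i) - r * (S / m) := by
    field_simp
    ring
  rw [e3]
  calc |∑ i ∈ range r, f (a + 1 + k * m + i) - r * (S / m)|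
      ≤ |∑ i ∈ range r, f (a + 1 + k * m + i)| + |(r : ℝ) * (S / m)| := abs_sub _ _
    _ ≤ r + r * 1 := by
        rw [abs_mul, abs_of_nonneg (Nat.cast_nonneg r : (0 : ℝ) ≤ r)]
        gcongr
    _ ≤ 2 * m := by linarith

/-- the Chinese remainder theorem -/
theorem crt_sum (u q : ℕ) (hu : 0 < u) (hq : 0 < q) (h : u.Coprime q) (F G : ℕ → ℝ) :
    ∑ e ∈ range (u * q), F (e % u) * G (e % q) = (∑ i ∈ range u, F i) * ∑ j ∈ range q, G j := by
  rw [Finset.sum_mul_sum, ← Finset.sum_product']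
  refine Finset.sum_nbij' (fun e => (e % u, e % q)) (fun x => (Nat.chineseRemainder h x.1 x.2 : ℕ))
    ?_ ?_ ?_ ?_ ?_
  · intro e _
    simp only [mem_product, mem_range]
    exact ⟨Nat.mod_lt _ hu, Nat.mod_lt _ hq⟩
  · intro x _
    rw [mem_range]
    exact Nat.chineseRemainder_lt_mul h x.1 x.2 hu.ne' hq.ne'
  · intro e he
    rw [mem_range] at he
    have h1 := (Nat.chineseRemainder h (e % u) (e % q)).2
    have h2 : (Nat.chineseRemainder h (e % u) (e % q) : ℕ) ≡ e [MOD (u * q)] := by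
      rw [← Nat.modEq_and_modEq_iff_modEq_mul h]
      exact ⟨h1.1.trans (Nat.mod_modEq _ _), h1.2.trans (Nat.mod_modEq _ _)⟩
    exact Nat.ModEq.eq_of_lt_of_lt h2 (Nat.chineseRemainder_lt_mul h _ _ hu.ne' hq.ne') he
  · intro x hx
    rw [mem_product, mem_range, mem_range] at hx
    have h1 := (Nat.chineseRemainder h x.1 x.2).2
    have h2 := h1.1
    have h3 := h1.2
    exact Prod.ext (Nat.ModEq.trans (Nat.mod_modEq _ _) h2 |>.eq_of_lt_of_lt (Nat.mod_lt _ hu) hx.1)
      (Nat.ModEq.trans (Nat.mod_modEq _ _) h3 |>.eq_of_lt_of_lt (Nat.mod_lt _ hq) hx.2)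
  · intro e _
    rfl

theorem cv_mod {q : ℕ} (χ : DirichletCharacter ℂ q) (n : ℕ) : cv χ (n % q) = cv χ n := by
  unfold cv
  rw [ZMod.natCast_mod]

theorem cv_add {q : ℕ} (χ : DirichletCharacter ℂ q) (n : ℕ) : cv χ (n + q) = cv χ n := by
  rw [← cv_mod, Nat.add_mod_right, cv_mod]

theorem cv_eq {q : ℕ} {χ : DirichletCharacter ℂ q} (h : RealPrim q χ) (n : ℕ) :
    χ (n : ZMod q) = (cv χ n : ℂ) := by
  unfold cv
  rcases h.quad (n : ZMod q) with h | h | h <;> rw [h] <;> simp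

theorem cv_vals {q : ℕ} {χ : DirichletCharacter ℂ q} (h : RealPrim q χ) (n : ℕ) :
    cv χ n = 0 ∨ cv χ n = 1 ∨ cv χ n = -1 := by
  unfold cv
  rcases h.quad (n : ZMod q) with h | h | h <;> rw [h] <;> simp

theorem cv_abs {q : ℕ} {χ : DirichletCharacter ℂ q} (h : RealPrim q χ) (n : ℕ) : |cv χ n| ≤ 1 := by
  rcases cv_vals h n with h | h | h <;> rw [h] <;> simp

theorem cv_mul {q : ℕ} {χ : DirichletCharacter ℂ q} (h : RealPrim q χ) (m n : ℕ) :
    cv χ (m * n) = cv χ m * cv χ n := by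
  have h1 : χ ((m * n : ℕ) : ZMod q) = χ (m : ZMod q) * χ (n : ZMod q) := by
    push_cast
    rw [map_mul]
  rw [cv_eq h, cv_eq h, cv_eq h] at h1
  exact_mod_cast h1

theorem cv_one {q : ℕ} (χ : DirichletCharacter ℂ q) : cv χ 1 = 1 := by
  unfold cv
  simp

theorem cv_zero_iff {q : ℕ} {χ : DirichletCharacter ℂ q} (h : RealPrim q χ) (n : ℕ) :
    cv χ n = 0 ↔ ¬ n.Coprime q := by
  have h1 := cv_eq h n
  constructor
  · intro h0 hc
    rw [h0] at h1
    have hu : IsUnit (n : ZMod q) := (ZMod.isUnit_iff_coprime n q).2 hc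
    have h2 := (hu.map χ).ne_zero
    apply h2
    simpa using h1
  · intro hc
    have h2 : χ (n : ZMod q) = 0 := by
      apply MulChar.map_nonunit
      rw [ZMod.isUnit_iff_coprime]
      exact hc
    rw [h2] at h1
    exact_mod_cast h1.symm

theorem sum_cv {q : ℕ} [NeZero q] {χ : DirichletCharacter ℂ q} (hq : 1 < q) (h : RealPrim q χ) :
    ∑ j ∈ range q, cv χ j = 0 := by
  have h1 : ∑ a : ZMod q, χ a = 0 := MulChar.sum_eq_zero_of_ne_one (Pool.Agent.E8helper63.SZ.ne_one hq h)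
  have h2 : ∑ a : ZMod q, χ a = ∑ j ∈ range q, χ (j : ZMod q) := by
    refine (Finset.sum_nbij' (fun j : ℕ => (j : ZMod q)) (fun a : ZMod q => a.val) ?_ ?_ ?_ ?_ ?_).symm
    · intro a _; exact mem_univ _
    · intro a _; exact mem_range.2 (ZMod.val_lt a)
    · intro a ha; exact ZMod.val_cast_of_lt (mem_range.1 ha)
    · intro a _; simp
    · intro a _; rfl
  rw [h2] at h1
  simp_rw [cv_eq h] at h1
  exact_mod_cast h1

end Pool.Agent.H534.SZ
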