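import Pool.Agent.H534.SZ.Loc
import Pool.Graph.R_seed8.Y887.TD.FLemU

/-! An upper bound sieve for the weights `∑_{d ∣ n} χ(d)`. -/

set_option autoImplicit false

namespace Pool.Agent.H534.SZ

open Finset
open Pool.Agent.E8helper22.SZ

/-- the fundamental lemma -/
def FL (N1 : ℕ) : Prop := ∀ (κ b J z0 : ℕ) (P : Finset ℕ) (g : ℕ → ℝ),
  N1 * κ + 2 * κ + 10 ≤ b → N1 * κ + 2 * κ + 10 ≤ z0 → (∀ p ∈ P, p.Prime ∧ z0 < p ∧ p ≤ 2 ^ 2 ^ J) →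
  (∀ p ∈ P, 0 ≤ g p ∧ g p ≤ κ / ((p : ℝ) - 1)) →
  ∀ (Ω : Finset ℕ) (w : ℕ → ℝ) (hit : ℕ → ℕ → Prop) [∀ p m, Decidable (hit p m)] (A : ℝ) (err : Finset ℕ → ℝ),
    (∀ m ∈ Ω, 0 ≤ w m) → 0 ≤ A →
    (∀ T ⊆ P, ∏ p ∈ T, p ≤ (2 ^ 2 ^ J) ^ ((N1 * κ + 2 * κ + 10) * b) →
      |∑ m ∈ Ω.filter (fun m => ∀ p ∈ T, hit p m), w m - A * ∏ p ∈ T, g p| ≤ err T) →
    |∑ m ∈ Ω.filter (fun m => ∀ p ∈ P, ¬ hit p m), w m - A * ∏ p ∈ P, (1 - g p)| ≤
      (1 / 2 : ℝ) ^ b * (A * ∏ p ∈ P, (1 - g p)) +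
        ((J : ℝ) + 2) *
          ∑ T ∈ P.powerset.filter (fun T : Finset ℕ => ∏ p ∈ T, p ≤ (2 ^ 2 ^ J) ^ ((N1 * κ + 2 * κ + 10) * b)), err T

theorem exists_FL : ∃ N1 : ℕ, FL N1 := by
  classical
  obtain ⟨N1, h⟩ := Pool.Agent.Y887.TD.fLemU
  refine ⟨N1, ?_⟩
  intro κ b J z0 P g h1 h2 h3 h4 Ω w hit _ A err h5 h6 h7
  have h8 := h κ b J z0 P g h1 h2 h3 h4 Ω w hit A err h5 h6 (by
    intro T hT hT2
    have := h7 T hT hT2
    convert this)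
  convert h8 using 5

theorem Lr_nonneg {q : ℕ} [NeZero q] {χ : DirichletCharacter ℂ q} (hq : 1 < q) (hχ : RealPrim q χ) : 0 ≤ Lr χ := by
  by_contra hneg
  push Not at hneg
  have hq0 : (0 : ℝ) < q := by exact_mod_cast (by omega : 0 < q)
  have hφ : (0 : ℝ) < (Nat.totient q : ℝ) / q := by
    have : (0 : ℝ) < Nat.totient q := by exact_mod_cast Nat.totient_pos.2 (by omega)
    positivity
  have hpos : 0 < -(((Nat.totient q : ℝ) / q) * Lr χ) := by nlinarith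
  obtain ⟨M, hM⟩ := exists_nat_gt (11 * (q : ℝ) / -(((Nat.totient q : ℝ) / q) * Lr χ))
  have hM0 : (0 : ℝ) < M := lt_trans (by positivity) hM
  have hM1 : 0 < M := by exact_mod_cast hM0
  have h1 := dist_hit hq hχ (fun _ => 0) ∅ (by simp) (M * M) (Nat.mul_pos hM1 hM1)
  simp only [Finset.notMem_empty, false_implies, implies_true, Finset.filter_true, Finset.prod_empty, mul_one] at h1
  have h2 : 0 ≤ ∑ n ∈ Icc 1 (M * M), wt χ n := Finset.sum_nonneg fun n hn =>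
    wt_nonneg (by omega) hχ n (by rw [mem_Icc] at hn; omega)
  have h3 : √((M * M : ℕ) : ℝ) = M := by
    push_cast
    exact Real.sqrt_mul_self hM0.le
  rw [h3] at h1
  have h4 := (abs_le.1 h1).2
  rw [div_lt_iff₀ hpos] at hM
  push_cast at h4
  have h5 : (M : ℝ) * (11 * (q : ℝ)) < M * (M * -(((Nat.totient q : ℝ) / q) * Lr χ)) := mul_lt_mul_of_pos_left hM hM0
  nlinarith

theorem norm_eq {q : ℕ} [NeZero q] {χ : DirichletCharacter ℂ q} (hq : 1 < q) (hχ : RealPrim q χ) :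
    ‖χ.LFunction 1‖ = Lr χ := by
  have him : (χ.LFunction 1).im = 0 := by
    have h0 : ∀ Z : ℕ, |(χ.LFunction 1).im| ≤ 2 * q * (((Z + 1 : ℕ) : ℝ)⁻¹) := by
      intro Z
      have h1 := Pool.Agent.E8helper23.SZ.tail_one χ (Pool.Agent.E8helper63.SZ.ne_one hq hχ) Z
      have h2 : (∑ i ∈ range (Z + 1), χ (i : ZMod q) * (((i : ℝ)⁻¹ : ℝ) : ℂ)) =
          ((∑ d ∈ range (Z + 1), cv χ d * (d : ℝ)⁻¹ : ℝ) : ℂ) := by
        rw [Complex.ofReal_sum]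
        apply sum_congr rfl
        intro i _
        rw [cv_eq hχ]
        push_cast
        ring
      rw [h2] at h1
      have h6 := Complex.abs_im_le_norm (χ.LFunction 1 - ((∑ d ∈ range (Z + 1), cv χ d * (d : ℝ)⁻¹ : ℝ) : ℂ))
      rw [Complex.sub_im, Complex.ofReal_im, sub_zero] at h6
      exact h6.trans h1
    by_contra hne
    have hpos : 0 < |(χ.LFunction 1).im| := abs_pos.2 hne
    obtain ⟨Z, hZ⟩ := exists_nat_gt (2 * (q : ℝ) / |(χ.LFunction 1).im|)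
    have h1 := h0 Z
    rw [div_lt_iff₀ hpos] at hZ
    have hZ1 : (0 : ℝ) < ((Z + 1 : ℕ) : ℝ) := by positivity
    rw [← div_eq_mul_inv, le_div_iff₀ hZ1] at h1
    push_cast at h1
    nlinarith
  have h1 : χ.LFunction 1 = ((Lr χ : ℝ) : ℂ) := by
    apply Complex.ext
    · simp [Lr]
    · simp [him]
  have h2 := Lr_nonneg hq hχ
  rw [h1, Complex.norm_real, Real.norm_of_nonneg h2]

theorem one_sub_gd {q : ℕ} (χ : DirichletCharacter ℂ q) (a : ℕ → ℕ) (p : ℕ) (hp : p.Prime) :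
    1 - gd χ a p = (1 - cv χ p / p) * (1 - (cc a p : ℝ) / p) := by
  have hp0 : (p : ℝ) ≠ 0 := by exact_mod_cast hp.pos.ne'
  unfold gd
  field_simp
  ring

theorem gd_bound {q : ℕ} {χ : DirichletCharacter ℂ q} (hχ : RealPrim q χ) (a : ℕ → ℕ) (p : ℕ) (hp : p.Prime) (hp3 : 3 ≤ p) :
    0 ≤ gd χ a p ∧ gd χ a p ≤ 3 / ((p : ℝ) - 1) := by
  have hpR : (3 : ℝ) ≤ p := by exact_mod_cast hp3
  have hp0 : (0 : ℝ) < p := by linarith
  have hc1 : (1 : ℝ) ≤ cc a p := by exact_mod_cast (cc_le a p).1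
  have hc2 : (cc a p : ℝ) ≤ 2 := by exact_mod_cast (cc_le a p).2
  have h1 := one_sub_gd χ a p hp
  have hχ1 := abs_le.1 (cv_abs hχ p)
  have e1 : gd χ a p = 1 - (1 - cv χ p / p) * (1 - (cc a p : ℝ) / p) := by linarith
  have h2 : -(1 / (p : ℝ)) ≤ cv χ p / p := by
    rw [neg_div', div_le_div_iff_of_pos_right hp0]; exact hχ1.1
  have h3 : cv χ p / p ≤ 1 / p := by gcongr; exact hχ1.2
  have h4 : 1 / (p : ℝ) ≤ (cc a p : ℝ) / p := by gcongr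
  have h5 : (cc a p : ℝ) / p ≤ 2 / p := by gcongr
  have h6 : 1 / (p : ℝ) ≤ 1 / 3 := by gcongr
  have h7 : 2 / (p : ℝ) = 2 * (1 / p) := by ring
  have h8 : 3 / (p : ℝ) ≤ 3 / ((p : ℝ) - 1) := by
    apply div_le_div_of_nonneg_left (by norm_num) (by linarith) (by linarith)
  have h9 : 3 / (p : ℝ) = 3 * (1 / p) := by ring
  set s := 1 / (p : ℝ) with hs
  have hs0 : 0 < s := by positivity
  rw [e1]
  set X := cv χ p / p
  set C := (cc a p : ℝ) / p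
  constructor
  · have : (1 - X) * (1 - C) ≤ (1 + s) * (1 - s) := by
      apply mul_le_mul <;> nlinarith
    nlinarith
  · have : (1 - s) * (1 - 2 * s) ≤ (1 - X) * (1 - C) := by
      apply mul_le_mul <;> nlinarith
    nlinarith

/-- few sets of primes have a small product -/
theorem sum_T (P : Finset ℕ) (hP : ∀ p ∈ P, p.Prime) (D : ℕ) (E : ℝ) (hE : 0 ≤ E) :
    ∑ T ∈ P.powerset.filter (fun T : Finset ℕ => ∏ p ∈ T, p ≤ D), E * (∏ p ∈ T, (p : ℝ)) ≤ E * (D : ℝ) ^ 2 := by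
  classical
  have h1 : ∀ T ∈ P.powerset.filter (fun T : Finset ℕ => ∏ p ∈ T, p ≤ D), E * (∏ p ∈ T, (p : ℝ)) ≤ E * D := by
    intro T hT
    rw [mem_filter] at hT
    have : ((∏ p ∈ T, p : ℕ) : ℝ) ≤ D := by exact_mod_cast hT.2
    rw [Nat.cast_prod] at this
    gcongr
  refine (sum_le_sum h1).trans ?_
  rw [sum_const, nsmul_eq_mul]
  have h2 : (P.powerset.filter (fun T : Finset ℕ => ∏ p ∈ T, p ≤ D)).card ≤ D := by
    have h3 : (P.powerset.filter (fun T : Finset ℕ => ∏ p ∈ T, p ≤ D)).card ≤ (Icc 1 D).card := by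
      apply Finset.card_le_card_of_injOn (fun T : Finset ℕ => ∏ p ∈ T, p)
      · intro T hT
        rw [Finset.mem_coe, mem_filter, mem_powerset] at hT
        rw [Finset.mem_coe, mem_Icc]
        exact ⟨Finset.prod_pos fun p hp => (hP p (hT.1 hp)).pos, hT.2⟩
      · intro T hT T' hT' heq
        rw [Finset.mem_coe, mem_filter, mem_powerset] at hT hT'
        have h4 : ∀ U : Finset ℕ, U ⊆ P → (∏ p ∈ U, p).primeFactors = U := fun U hU =>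
          Nat.primeFactors_prod (fun p hp => hP p (hU hp))
        simp only at heq
        rw [← h4 T hT.1, ← h4 T' hT'.1, heq]
    rw [Nat.card_Icc] at h3
    omega
  have h3 : ((P.powerset.filter (fun T : Finset ℕ => ∏ p ∈ T, p ≤ D)).card : ℝ) ≤ D := by exact_mod_cast h2
  calc _ ≤ (D : ℝ) * (E * D) := by gcongr
    _ = E * (D : ℝ) ^ 2 := by ring

/-- the upper bound -/
theorem upper (N1 : ℕ) (hFL : FL N1) (b J z0 : ℕ) (hb : N1 * 3 + 2 * 3 + 10 ≤ b) (hz0 : N1 * 3 + 2 * 3 + 10 ≤ z0)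
    {q : ℕ} [NeZero q] {χ : DirichletCharacter ℂ q} (hq : 1 < q) (hχ : RealPrim q χ) (a : ℕ → ℕ) (P : Finset ℕ)
    (hP : ∀ p ∈ P, p.Prime ∧ z0 < p ∧ p ≤ 2 ^ 2 ^ J) (hPq : ∀ p ∈ P, ¬ p ∣ q) (x : ℕ) (hx : 0 < x) :
    ∑ n ∈ (Icc 1 x).filter (fun n => ∀ p ∈ P, ¬ hitp a p n), wt χ n ≤
      2 * ((x * ((Nat.totient q : ℝ) / q) * Lr χ) * ∏ p ∈ P, (1 - gd χ a p)) +
        ((J : ℝ) + 2) * (11 * q * √(x : ℝ) * (((2 ^ 2 ^ J) ^ ((N1 * 3 + 2 * 3 + 10) * b) : ℕ) : ℝ) ^ 2) := by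
  have hA : 0 ≤ x * ((Nat.totient q : ℝ) / q) * Lr χ := by
    have := Lr_nonneg hq hχ
    positivity
  have hg : ∀ p ∈ P, 0 ≤ gd χ a p ∧ gd χ a p ≤ ((3 : ℕ) : ℝ) / ((p : ℝ) - 1) := by
    intro p hp
    have h1 := hP p hp
    have := gd_bound hχ a p h1.1 (by omega)
    push_cast
    exact this
  have h1 := hFL 3 b J z0 P (gd χ a) hb hz0 hP hg (Icc 1 x) (wt χ) (fun p n => hitp a p n)
    (x * ((Nat.totient q : ℝ) / q) * Lr χ) (fun T => 11 * q * √(x : ℝ) * ∏ p ∈ T, (p : ℝ))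
    (fun n hn => wt_nonneg (by omega) hχ n (by rw [mem_Icc] at hn; omega)) hA (by
      intro T hT _
      have := dist_hit hq hχ a T (fun r hr => ⟨(hP r (hT hr)).1, hPq r (hT hr)⟩) x hx
      refine this.trans (le_of_eq ?_)
      ring)
  have h2 := sum_T P (fun p hp => (hP p hp).1) ((2 ^ 2 ^ J) ^ ((N1 * 3 + 2 * 3 + 10) * b)) (11 * q * √(x : ℝ)) (by positivity)
  have h3 : 0 ≤ ∏ p ∈ P, (1 - gd χ a p) := by
    apply Finset.prod_nonneg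
    intro p hp
    have h4 := hP p hp
    have h5 := (hg p hp).2
    have h6 : (4 : ℝ) ≤ p := by exact_mod_cast (by omega : 4 ≤ p)
    have h7 : ((3 : ℕ) : ℝ) / ((p : ℝ) - 1) ≤ 1 := by
      rw [div_le_one (by linarith)]
      push_cast
      linarith
    linarith
  have h4 := (abs_le.1 h1).2
  have h5 : (1 / 2 : ℝ) ^ b ≤ 1 := pow_le_one₀ (by norm_num) (by norm_num)
  have h6 : (1 / 2 : ℝ) ^ b * (x * ((Nat.totient q : ℝ) / q) * Lr χ * ∏ p ∈ P, (1 - gd χ a p)) ≤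
      1 * (x * ((Nat.totient q : ℝ) / q) * Lr χ * ∏ p ∈ P, (1 - gd χ a p)) :=
    mul_le_mul_of_nonneg_right h5 (mul_nonneg hA h3)
  have h7 : ((J : ℝ) + 2) * ∑ T ∈ P.powerset.filter (fun T : Finset ℕ => ∏ p ∈ T, p ≤ (2 ^ 2 ^ J) ^ ((N1 * 3 + 2 * 3 + 10) * b)),
      11 * q * √(x : ℝ) * ∏ p ∈ T, (p : ℝ) ≤
      ((J : ℝ) + 2) * (11 * q * √(x : ℝ) * (((2 ^ 2 ^ J) ^ ((N1 * 3 + 2 * 3 + 10) * b) : ℕ) : ℝ) ^ 2) := by
    gcongr
  linarith

end Pool.Agent.H534.SZ
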