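import Pool.Agent.H534.SZ.Mert

/-! Partial summation with the weights `n ^ (-β)`. -/

set_option autoImplicit false

namespace Pool.Agent.H534.SZ

open Finset MeasureTheory Filter Topology

/-- the weighted sums -/
noncomputable def WS (c : ℕ → ℝ) (β : ℝ) (t : ℝ) : ℝ := ∑ n ∈ Icc 1 ⌊t⌋₊, c n * (n : ℝ) ^ (-β)

theorem abel_diff (c : ℕ → ℝ) (hc : c 0 = 0) (κ B σ β : ℝ) (hB : 0 ≤ B) (_hσ : 0 ≤ σ) (hσβ : σ < β) (hβ : β < 1)
    (hC : ∀ t : ℝ, 1 ≤ t → |∑ n ∈ Icc 1 ⌊t⌋₊, c n - κ * t| ≤ B * t ^ σ) (a b : ℝ) (ha : 1 ≤ a) (hab : a ≤ b) :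
    |(WS c β b - κ * b ^ (1 - β) / (1 - β)) - (WS c β a - κ * a ^ (1 - β) / (1 - β))| ≤
      B * (2 + β / (β - σ)) * a ^ (σ - β) := by
  have hβ0 : 0 < β := by linarith
  set f : ℝ → ℝ := fun t => t ^ (-β) with hf
  have hderiv : ∀ t : ℝ, 0 < t → HasDerivAt f (-β * t ^ (-β - 1)) t := fun t ht =>
    Real.hasDerivAt_rpow_const (Or.inl ht.ne')
  have hIcc : ∀ n : ℕ, ∑ k ∈ Icc 0 n, c k = ∑ k ∈ Icc 1 n, c k := by
    intro n
    have : Icc 0 n = insert 0 (Icc 1 n) := by ext k; simp only [mem_insert, mem_Icc]; omega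
    rw [this, Finset.sum_insert (by simp), hc, zero_add]
  have hint0 : ∀ r : ℝ, IntegrableOn (fun t : ℝ => t ^ r) (Set.Icc a b) := by
    intro r
    apply ContinuousOn.integrableOn_Icc
    intro t ht
    apply ContinuousAt.continuousWithinAt
    exact Real.continuousAt_rpow_const _ _ (Or.inl (by have := ht.1; linarith))
  have hderiv_eq : Set.EqOn (deriv f) (fun t => -β * t ^ (-β - 1)) (Set.Icc a b) := by
    intro t ht
    exact (hderiv t (by have := ht.1; linarith)).deriv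
  have hderiv_int : IntegrableOn (deriv f) (Set.Icc a b) := by
    rw [integrableOn_congr_fun hderiv_eq measurableSet_Icc]
    exact (hint0 _).const_mul _
  have key := sum_mul_eq_sub_sub_integral_mul c (f := f) (a := a) (b := b) (by linarith) hab
    (fun t ht => (hderiv t (by have := ht.1; linarith)).differentiableAt) hderiv_int
  have e1 : WS c β b - WS c β a = ∑ k ∈ Ioc ⌊a⌋₊ ⌊b⌋₊, f k * c k := by
    unfold WS
    have hfl : ⌊a⌋₊ ≤ ⌊b⌋₊ := Nat.floor_le_floor hab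
    have h1 : Icc 1 ⌊b⌋₊ = Icc 1 ⌊a⌋₊ ∪ Ioc ⌊a⌋₊ ⌊b⌋₊ := by
      have : 1 ≤ ⌊a⌋₊ := (Nat.one_le_floor_iff _).2 ha
      ext k; simp only [mem_union, mem_Icc, mem_Ioc]; omega
    have h2 : Disjoint (Icc 1 ⌊a⌋₊) (Ioc ⌊a⌋₊ ⌊b⌋₊) := by
      rw [Finset.disjoint_left]
      intro k h3 h4
      rw [mem_Icc] at h3
      rw [mem_Ioc] at h4
      omega
    rw [h1, Finset.sum_union h2, add_sub_cancel_left]
    apply sum_congr rfl
    intro k _
    simp only [hf]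
    ring
  have hI1 : IntegrableOn (fun t => deriv f t * ∑ k ∈ Icc 0 ⌊t⌋₊, c k) (Set.Ioc a b) :=
    (integrableOn_mul_sum_Icc c (by linarith) hderiv_int).mono_set Set.Ioc_subset_Icc_self
  have hI2 : IntegrableOn (fun t => (-β * t ^ (-β - 1)) * (κ * t)) (Set.Ioc a b) := by
    apply IntegrableOn.mono_set _ Set.Ioc_subset_Icc_self
    apply ContinuousOn.integrableOn_Icc
    intro t ht
    apply ContinuousAt.continuousWithinAt
    apply ContinuousAt.mul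
    · exact (Real.continuousAt_rpow_const _ _ (Or.inl (by have := ht.1; linarith))).const_mul _
    · fun_prop
  have e2 : ∫ t in Set.Ioc a b, (-β * t ^ (-β - 1)) * (κ * t) = -β * κ * ((b ^ (1 - β) - a ^ (1 - β)) / (1 - β)) := by
    have h1 : ∫ t in Set.Ioc a b, (-β * t ^ (-β - 1)) * (κ * t) = ∫ t in Set.Ioc a b, (-β * κ) * t ^ (-β) := by
      apply setIntegral_congr_fun measurableSet_Ioc
      intro t ht
      have ht0 : 0 < t := by have := ht.1; linarith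
      simp only
      have : t ^ (-β) = t ^ (-β - 1) * t := by
        rw [← Real.rpow_add_one ht0.ne']
        congr 1
        ring
      rw [this]
      ring
    rw [h1, ← intervalIntegral.integral_of_le hab, intervalIntegral.integral_const_mul, integral_rpow (Or.inl (by linarith))]
    have : -β + 1 = 1 - β := by ring
    rw [this]
  have e3 : |(∫ t in Set.Ioc a b, deriv f t * ∑ k ∈ Icc 0 ⌊t⌋₊, c k) - (∫ t in Set.Ioc a b, (-β * t ^ (-β - 1)) * (κ * t))| ≤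
      β * B * ((a ^ (σ - β) - b ^ (σ - β)) / (β - σ)) := by
    rw [← integral_sub hI1 hI2]
    have h1 : IntegrableOn (fun t : ℝ => β * B * t ^ (σ - β - 1)) (Set.Ioc a b) :=
      ((hint0 (σ - β - 1)).mono_set Set.Ioc_subset_Icc_self).const_mul (β * B)
    have h2 : ∀ᵐ t ∂(volume.restrict (Set.Ioc a b)), ‖deriv f t * (∑ k ∈ Icc 0 ⌊t⌋₊, c k) - (-β * t ^ (-β - 1)) * (κ * t)‖ ≤
        β * B * t ^ (σ - β - 1) := by
      rw [ae_restrict_iff' measurableSet_Ioc]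
      refine ae_of_all _ fun t ht => ?_
      have ht1 : 1 ≤ t := by have := ht.1; linarith
      have ht0 : 0 < t := by linarith
      rw [(hderiv t ht0).deriv, ← mul_sub, hIcc, Real.norm_eq_abs, abs_mul, abs_mul, abs_neg, abs_of_pos hβ0,
        abs_of_nonneg (Real.rpow_nonneg ht0.le _)]
      have h3 := hC t ht1
      have h4 : t ^ (σ - β - 1) = t ^ (-β - 1) * t ^ σ := by
        rw [← Real.rpow_add ht0]; congr 1; ring
      rw [h4]
      have h5 : 0 ≤ β * t ^ (-β - 1) := by positivity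
      calc β * t ^ (-β - 1) * |∑ k ∈ Icc 1 ⌊t⌋₊, c k - κ * t| ≤ β * t ^ (-β - 1) * (B * t ^ σ) :=
            mul_le_mul_of_nonneg_left h3 h5
        _ = β * B * (t ^ (-β - 1) * t ^ σ) := by ring
    have h3 := norm_integral_le_of_norm_le h1 h2
    rw [Real.norm_eq_abs] at h3
    refine h3.trans (le_of_eq ?_)
    rw [← intervalIntegral.integral_of_le hab, intervalIntegral.integral_const_mul, integral_rpow (Or.inr ⟨by linarith, by
      rw [Set.uIcc_of_le hab]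
      intro h0
      have := h0.1
      linarith⟩)]
    have h4 : σ - β - 1 + 1 = σ - β := by ring
    rw [h4]
    have h5 : σ - β ≠ 0 := by linarith
    have h6 : β - σ ≠ 0 := by linarith
    congr 1
    rw [div_eq_div_iff h5 h6]
    ring
  rw [← e1] at key
  have ha0 : 0 < a := by linarith
  have hb0 : 0 < b := by linarith
  have hb1 : 1 ≤ b := ha.trans hab
  have q1 := hC b hb1
  have q2 := hC a ha
  rw [hIcc, hIcc] at key
  rw [e2] at e3
  set I := ∫ t in Set.Ioc a b, deriv f t * ∑ k ∈ Icc 0 ⌊t⌋₊, c k with hI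
  -- assemble
  have f1 : b ^ (1 - β) = f b * b := by
    simp only [hf]
    rw [← Real.rpow_add_one hb0.ne']
    congr 1; ring
  have f2 : a ^ (1 - β) = f a * a := by
    simp only [hf]
    rw [← Real.rpow_add_one ha0.ne']
    congr 1; ring
  have h1β : 1 - β ≠ 0 := by linarith
  have e4 : (WS c β b - κ * b ^ (1 - β) / (1 - β)) - (WS c β a - κ * a ^ (1 - β) / (1 - β)) =
      f b * (∑ k ∈ Icc 1 ⌊b⌋₊, c k - κ * b) - f a * (∑ k ∈ Icc 1 ⌊a⌋₊, c k - κ * a) -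
      (I - (-β * κ * ((b ^ (1 - β) - a ^ (1 - β)) / (1 - β)))) := by
    have e5 : WS c β b - WS c β a = f b * (∑ k ∈ Icc 1 ⌊b⌋₊, c k) - f a * (∑ k ∈ Icc 1 ⌊a⌋₊, c k) - I := key
    have e6 : (WS c β b - κ * b ^ (1 - β) / (1 - β)) - (WS c β a - κ * a ^ (1 - β) / (1 - β)) =
      (WS c β b - WS c β a) - κ * b ^ (1 - β) / (1 - β) + κ * a ^ (1 - β) / (1 - β) := by ring
    rw [e6, e5, f1, f2]
    field_simp
    ring
  rw [e4]
  have hfb0 : 0 ≤ f b := Real.rpow_nonneg hb0.le _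
  have hfa0 : 0 ≤ f a := Real.rpow_nonneg ha0.le _
  have g1 : |f b * (∑ k ∈ Icc 1 ⌊b⌋₊, c k - κ * b)| ≤ B * b ^ (σ - β) := by
    rw [abs_mul, abs_of_nonneg hfb0]
    have : b ^ (σ - β) = f b * b ^ σ := by
      simp only [hf]
      rw [← Real.rpow_add hb0]; congr 1; ring
    rw [this]
    calc f b * |∑ k ∈ Icc 1 ⌊b⌋₊, c k - κ * b| ≤ f b * (B * b ^ σ) := mul_le_mul_of_nonneg_left q1 hfb0
      _ = _ := by ring
  have g2 : |f a * (∑ k ∈ Icc 1 ⌊a⌋₊, c k - κ * a)| ≤ B * a ^ (σ - β) := by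
    rw [abs_mul, abs_of_nonneg hfa0]
    have : a ^ (σ - β) = f a * a ^ σ := by
      simp only [hf]
      rw [← Real.rpow_add ha0]; congr 1; ring
    rw [this]
    calc f a * |∑ k ∈ Icc 1 ⌊a⌋₊, c k - κ * a| ≤ f a * (B * a ^ σ) := mul_le_mul_of_nonneg_left q2 hfa0
      _ = _ := by ring
  have g3 : b ^ (σ - β) ≤ a ^ (σ - β) := Real.rpow_le_rpow_of_nonpos ha0 hab (by linarith)
  have g4 : 0 ≤ b ^ (σ - β) := Real.rpow_nonneg hb0.le _
  have hbs : 0 < β - σ := by linarith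
  have g5 : β * B * ((a ^ (σ - β) - b ^ (σ - β)) / (β - σ)) ≤ B * (β / (β - σ)) * a ^ (σ - β) := by
    have : β * B * ((a ^ (σ - β) - b ^ (σ - β)) / (β - σ)) = B * (β / (β - σ)) * (a ^ (σ - β) - b ^ (σ - β)) := by
      field_simp
    rw [this]
    apply mul_le_mul_of_nonneg_left _ (by positivity)
    linarith
  calc _ ≤ |f b * (∑ k ∈ Icc 1 ⌊b⌋₊, c k - κ * b) - f a * (∑ k ∈ Icc 1 ⌊a⌋₊, c k - κ * a)| +
        |I - (-β * κ * ((b ^ (1 - β) - a ^ (1 - β)) / (1 - β)))| := abs_sub _ _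
    _ ≤ (|f b * (∑ k ∈ Icc 1 ⌊b⌋₊, c k - κ * b)| + |f a * (∑ k ∈ Icc 1 ⌊a⌋₊, c k - κ * a)|) +
        β * B * ((a ^ (σ - β) - b ^ (σ - β)) / (β - σ)) := add_le_add (abs_sub _ _) e3
    _ ≤ (B * a ^ (σ - β) + B * a ^ (σ - β)) + B * (β / (β - σ)) * a ^ (σ - β) := by
        have : B * b ^ (σ - β) ≤ B * a ^ (σ - β) := mul_le_mul_of_nonneg_left g3 hB
        linarith
    _ = B * (2 + β / (β - σ)) * a ^ (σ - β) := by ring

/-- the limit -/
theorem abel_lim (c : ℕ → ℝ) (hc : c 0 = 0) (κ B σ β : ℝ) (hB : 0 ≤ B) (hσ : 0 ≤ σ) (hσβ : σ < β) (hβ : β < 1)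
    (hC : ∀ t : ℝ, 1 ≤ t → |∑ n ∈ Icc 1 ⌊t⌋₊, c n - κ * t| ≤ B * t ^ σ) :
    ∃ K : ℝ, ∀ a : ℝ, 1 ≤ a → |WS c β a - κ * a ^ (1 - β) / (1 - β) - K| ≤ B * (2 + β / (β - σ)) * a ^ (σ - β) := by
  set g : ℝ → ℝ := fun t => WS c β t - κ * t ^ (1 - β) / (1 - β) with hg
  have hd := abel_diff c hc κ B σ β hB hσ hσβ hβ hC
  have htend : Tendsto (fun a : ℝ => B * (2 + β / (β - σ)) * a ^ (σ - β)) atTop (𝓝 0) := by
    have h1 : Tendsto (fun a : ℝ => a ^ (σ - β)) atTop (𝓝 0) := by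
      have := tendsto_rpow_neg_atTop (y := β - σ) (by linarith)
      simpa using this
    simpa using h1.const_mul (B * (2 + β / (β - σ)))
  have hcau : CauchySeq (fun n : ℕ => g (n + 1)) := by
    rw [Metric.cauchySeq_iff']
    intro ε hε
    have h1 : ∀ᶠ a : ℝ in atTop, B * (2 + β / (β - σ)) * a ^ (σ - β) < ε := htend.eventually_lt_const hε
    obtain ⟨a0, ha0⟩ := eventually_atTop.1 h1
    refine ⟨⌈a0⌉₊, fun n hn => ?_⟩
    rw [Real.dist_eq]
    have h2 : ((⌈a0⌉₊ : ℕ) : ℝ) ≤ n := by exact_mod_cast hn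
    have h3 : (0 : ℝ) ≤ ((⌈a0⌉₊ : ℕ) : ℝ) := Nat.cast_nonneg _
    refine lt_of_le_of_lt (hd (((⌈a0⌉₊ : ℕ) : ℝ) + 1) ((n : ℝ) + 1) (by linarith) (by linarith)) (ha0 _ ?_)
    have := Nat.le_ceil a0
    linarith
  obtain ⟨K, hK⟩ := cauchySeq_tendsto_of_complete hcau
  refine ⟨K, fun a ha => ?_⟩
  have h1 : Tendsto (fun n : ℕ => |g (n + 1) - g a|) atTop (𝓝 |K - g a|) := (hK.sub_const (g a)).abs
  have h2 : |K - g a| ≤ B * (2 + β / (β - σ)) * a ^ (σ - β) := by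
    apply le_of_tendsto h1
    filter_upwards [eventually_ge_atTop ⌈a⌉₊] with n hn
    have h3 : a ≤ (n : ℝ) + 1 := by
      have h4 := Nat.le_ceil a
      have h5 : ((⌈a⌉₊ : ℕ) : ℝ) ≤ n := by exact_mod_cast hn
      linarith
    exact hd a ((n : ℝ) + 1) ha h3
  rw [abs_sub_comm] at h2
  exact h2

end Pool.Agent.H534.SZ
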