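import Pool.Agent.H534.SZ.ZerA

/-! A real zero near one: evaluation of the weighted sum. -/

set_option autoImplicit false

namespace Pool.Agent.H534.SZ

open Finset Filter Topology
open Pool.Agent.E8helper22.SZ

/-- the indicator of the integers prime to `q` -/
noncomputable def ci (q e : ℕ) : ℝ := if e.Coprime q then 1 else 0

theorem ci_nonneg (q e : ℕ) : 0 ≤ ci q e := by unfold ci; split_ifs <;> norm_num

theorem ci_sum (q : ℕ) (hq : 1 < q) (t : ℝ) (ht : 1 ≤ t) :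
    |∑ n ∈ Icc 1 ⌊t⌋₊, ci q n - ((Nat.totient q : ℝ) / q) * t| ≤ 3 * q * t ^ (0 : ℝ) := by
  have hq0 : 0 < q := by omega
  have hqR : (0 : ℝ) < q := by exact_mod_cast hq0
  have h1 := per_sum q hq0 (ci q) (fun n => by unfold ci; split_ifs <;> simp) (fun n => by
    unfold ci
    simp) 0 ⌊t⌋₊ (Nat.zero_le _)
  have h2 : Ioc 0 ⌊t⌋₊ = Icc 1 ⌊t⌋₊ := by ext k; simp only [mem_Ioc, mem_Icc]; omega
  have h3 : ∑ i ∈ range q, ci q i = (Nat.totient q : ℝ) := by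
    unfold ci
    rw [← Finset.sum_filter, sum_const, nsmul_eq_mul, mul_one, Nat.totient_eq_card_coprime]
    norm_cast
    congr 1
    apply Finset.filter_congr
    intro j _
    exact Nat.coprime_comm
  rw [h2, h3, Nat.cast_zero, sub_zero] at h1
  have h4 : (Nat.totient q : ℝ) / q ≤ 1 := by
    rw [div_le_one hqR]; exact_mod_cast Nat.totient_le q
  have h5 : 0 ≤ (Nat.totient q : ℝ) / q := by positivity
  have h6 := Nat.floor_le (show 0 ≤ t by linarith)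
  have h7 := Nat.lt_floor_add_one t
  rw [Real.rpow_zero, mul_one]
  have h8 : (1 : ℝ) ≤ q := by exact_mod_cast hq0
  rw [abs_le] at h1 ⊢
  constructor <;> nlinarith

theorem Lr_le {q : ℕ} [NeZero q] {χ : DirichletCharacter ℂ q} (hq : 1 < q) (hχ : RealPrim q χ) : Lr χ ≤ 2 * q := by
  have h1 := psum hq hχ 0
  simp only [Nat.cast_zero, zero_add, div_one] at h1
  have h2 : Icc 1 0 = (∅ : Finset ℕ) := by ext k; simp
  rw [h2, Finset.sum_empty] at h1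
  have := (abs_le.1 h1).1
  linarith

/-- the density of the weights -/
noncomputable def lam {q : ℕ} [NeZero q] (χ : DirichletCharacter ℂ q) : ℝ := ((Nat.totient q : ℝ) / q) * Lr χ

theorem lam_nonneg {q : ℕ} [NeZero q] {χ : DirichletCharacter ℂ q} (hq : 1 < q) (hχ : RealPrim q χ) : 0 ≤ lam χ := by
  have := Lr_nonneg hq hχ
  unfold lam
  positivity

theorem lam_le {q : ℕ} [NeZero q] {χ : DirichletCharacter ℂ q} (hq : 1 < q) (hχ : RealPrim q χ) : lam χ ≤ Lr χ := by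
  have h0 := Lr_nonneg hq hχ
  have hqR : (0 : ℝ) < q := by exact_mod_cast (by omega : 0 < q)
  have h4 : (Nat.totient q : ℝ) / q ≤ 1 := by
    rw [div_le_one hqR]; exact_mod_cast Nat.totient_le q
  unfold lam
  nlinarith

theorem wt_sum {q : ℕ} [NeZero q] {χ : DirichletCharacter ℂ q} (hq : 1 < q) (hχ : RealPrim q χ) (t : ℝ) (ht : 1 ≤ t) :
    |∑ n ∈ Icc 1 ⌊t⌋₊, wt χ n - lam χ * t| ≤ 13 * q * t ^ (1 / 2 : ℝ) := by
  have hf : 1 ≤ ⌊t⌋₊ := (Nat.one_le_floor_iff _).2 ht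
  have h1 := dist_hit hq hχ (fun _ => 0) ∅ (by simp) ⌊t⌋₊ (by omega)
  simp only [Finset.notMem_empty, false_implies, implies_true, Finset.filter_true, Finset.prod_empty, mul_one] at h1
  have h2 := Lr_le hq hχ
  have h3 := lam_le hq hχ
  have h4 := lam_nonneg hq hχ
  have h6 := Nat.floor_le (show 0 ≤ t by linarith)
  have h7 := Nat.lt_floor_add_one t
  have e : ((⌊t⌋₊ : ℕ) : ℝ) * ((Nat.totient q : ℝ) / q) * Lr χ = lam χ * ⌊t⌋₊ := by unfold lam; ring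
  rw [e] at h1
  have h8 : √((⌊t⌋₊ : ℕ) : ℝ) ≤ √t := Real.sqrt_le_sqrt h6
  have h9 : 1 ≤ √t := Real.one_le_sqrt.2 ht
  rw [← Real.sqrt_eq_rpow]
  have hq1 : (1 : ℝ) ≤ q := by exact_mod_cast (by omega : 1 ≤ q)
  have h10 : 11 * (q : ℝ) * √((⌊t⌋₊ : ℕ) : ℝ) ≤ 11 * q * √t := by gcongr
  have h11 : 2 * (q : ℝ) ≤ 2 * q * √t := by nlinarith
  rw [abs_le] at h1 ⊢
  constructor <;> nlinarith

/-- the sums at the zero -/
theorem T_bound {q : ℕ} [NeZero q] {χ : DirichletCharacter ℂ q} (hq : 1 < q) (hχ : RealPrim q χ) (β : ℝ) (hβ0 : 0 < β)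
    (h0 : χ.LFunction β = 0) (Z : ℕ) (hZ : 1 ≤ Z) : |∑ d ∈ Icc 1 Z, cv χ d * (d : ℝ) ^ (-β)| ≤ q * (Z : ℝ) ^ (-β) := by
  have hne := Pool.Agent.E8helper63.SZ.ne_one hq hχ
  have hre : 0 < ((β : ℝ) : ℂ).re := by simpa using hβ0
  have h1 := Pool.Agent.H307R2.LFunction_eq hne (N := Z) hZ (s := ((β : ℝ) : ℂ)) hre
  have h2 := Pool.Agent.H307R2.TM_norm_le (N := Z) hZ (Pool.Agent.H307R2.Ech_norm_le hne Z) hre
  rw [h0] at h1
  have h3 : ∑ n ∈ Icc 1 Z, χ (n : ZMod q) * (n : ℂ) ^ (-((β : ℝ) : ℂ)) = ((∑ d ∈ Icc 1 Z, cv χ d * (d : ℝ) ^ (-β) : ℝ) : ℂ) := by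
    rw [Complex.ofReal_sum]
    apply sum_congr rfl
    intro n _
    rw [cv_eq hχ, Complex.ofReal_mul, Complex.ofReal_cpow (Nat.cast_nonneg _)]
    push_cast
    rfl
  rw [h3] at h1
  have h4 : ((∑ d ∈ Icc 1 Z, cv χ d * (d : ℝ) ^ (-β) : ℝ) : ℂ) =
      -(((β : ℝ) : ℂ) * Pool.Agent.H307R2.TM Z (Pool.Agent.H307R2.Ech χ Z) ((β : ℝ) : ℂ)) := by
    have := h1.symm
    linear_combination this
  have h5 : ‖((∑ d ∈ Icc 1 Z, cv χ d * (d : ℝ) ^ (-β) : ℝ) : ℂ)‖ ≤ β * (q * ((Z : ℝ) ^ (-β) / β)) := by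
    rw [h4, norm_neg, norm_mul, Complex.norm_real, Real.norm_of_nonneg hβ0.le]
    simp only [Complex.ofReal_re] at h2
    exact mul_le_mul_of_nonneg_left h2 hβ0.le
  rw [Complex.norm_real, Real.norm_eq_abs] at h5
  refine h5.trans (le_of_eq ?_)
  field_simp

theorem hyper {q : ℕ} [NeZero q] {χ : DirichletCharacter ℂ q} (hq : 1 < q) (hχ : RealPrim q χ) (β : ℝ) (hβ0 : 3 / 4 ≤ β)
    (hβ1 : β < 1) (h0 : χ.LFunction β = 0) : ∃ M : ℝ, ∀ Y : ℕ, 1 ≤ Y →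
    |WS (wt χ) β ((Y * Y : ℕ) : ℝ) - lam χ * ((Y * Y : ℕ) : ℝ) ^ (1 - β) / (1 - β)| ≤ M * (Y : ℝ) ^ (-(1 / 2) : ℝ) := by
  have hq0 : 0 < q := by omega
  have hqR : (0 : ℝ) < q := by exact_mod_cast hq0
  have hβp : 0 < β := by linarith
  have h1β : 0 < 1 - β := by linarith
  obtain ⟨K, hK⟩ := abel_lim (ci q) (by unfold ci; rw [if_neg]; intro h; rw [Nat.coprime_zero_left] at h; omega)
    ((Nat.totient q : ℝ) / q) (3 * q) 0 β (by positivity) le_rfl hβp hβ1 (ci_sum q hq)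
  have hbb : β / (β - 0) = 1 := by rw [sub_zero, div_self hβp.ne']
  rw [hbb] at hK
  set κ := (Nat.totient q : ℝ) / q with hκ
  have hκ0 : 0 ≤ κ := by positivity
  have hκ1 : κ ≤ 1 := by
    rw [hκ, div_le_one hqR]; exact_mod_cast Nat.totient_le q
  refine ⟨2 * q / (1 - β) + |K| * q + 9 * q + 2 * q * (1 / (1 - β) + |K| + 9 * q), ?_⟩
  intro Y hY
  have hYR : (1 : ℝ) ≤ Y := by exact_mod_cast hY
  have hY0 : (0 : ℝ) < Y := by linarith
  obtain ⟨X, hX⟩ : ∃ X, X = Y * Y := ⟨_, rfl⟩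
  rw [← hX]
  have hXR : (X : ℝ) = Y * Y := by rw [hX]; push_cast; ring
  have hX0 : (0 : ℝ) < X := by rw [hXR]; positivity
  have hYX : Y ≤ X := by rw [hX]; exact Nat.le_mul_of_pos_left Y (by omega)
  set T : ℕ → ℝ := fun Z => ∑ d ∈ Icc 1 Z, cv χ d * (d : ℝ) ^ (-β) with hT
  have hTb : ∀ Z : ℕ, 1 ≤ Z → |T Z| ≤ q * (Z : ℝ) ^ (-β) := fun Z hZ => T_bound hq hχ β hβp h0 Z hZ
  -- double sum
  set F : ℕ → ℕ → ℝ := fun d e => (cv χ d * (d : ℝ) ^ (-β)) * (ci q e * (e : ℝ) ^ (-β)) with hF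
  have e1 : WS (wt χ) β (X : ℝ) = ∑ n ∈ Icc 1 X, ∑ d ∈ n.divisors, F d (n / d) := by
    unfold WS
    rw [Nat.floor_natCast]
    apply sum_congr rfl
    intro n hn
    rw [mem_Icc] at hn
    rw [wt_eq hχ, Finset.sum_mul]
    apply sum_congr rfl
    intro d hd
    have hdn := Nat.dvd_of_mem_divisors hd
    simp only [hF, ci]
    have h2 : (n : ℝ) ^ (-β) = (d : ℝ) ^ (-β) * ((n / d : ℕ) : ℝ) ^ (-β) := by
      rw [← Real.mul_rpow (Nat.cast_nonneg _) (Nat.cast_nonneg _)]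
      congr 1
      rw [← Nat.cast_mul, Nat.mul_div_cancel' hdn]
    rw [h2]
    ring
  rw [e1, dsum, hyp_split X Y (by omega) hYX]
  -- first part
  have e2 : ∑ d ∈ Icc 1 Y, ∑ e ∈ Icc 1 (X / d), F d e = ∑ d ∈ Icc 1 Y, (cv χ d * (d : ℝ) ^ (-β)) * WS (ci q) β ((X : ℝ) / d) := by
    apply sum_congr rfl
    intro d _
    simp only [hF]
    rw [← Finset.mul_sum]
    congr 1
    unfold WS
    rw [Nat.floor_div_eq_div]
  have e3 : ∑ d ∈ Icc 1 Y, (cv χ d * (d : ℝ) ^ (-β)) * (κ * ((X : ℝ) / d) ^ (1 - β) / (1 - β)) =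
      κ * (X : ℝ) ^ (1 - β) / (1 - β) * ∑ d ∈ Icc 1 Y, cv χ d / d := by
    rw [Finset.mul_sum]
    apply sum_congr rfl
    intro d hd
    rw [mem_Icc] at hd
    have hd0 : (0 : ℝ) < d := by exact_mod_cast (by omega : 0 < d)
    rw [Real.div_rpow hX0.le hd0.le]
    have h2 : (d : ℝ) ^ (-β) = (d : ℝ) ^ (1 - β) / d := by
      rw [← Real.rpow_sub_one hd0.ne']
      congr 1; ring
    rw [h2]
    have h3 : (d : ℝ) ^ (1 - β) ≠ 0 := (Real.rpow_pos_of_pos hd0 _).ne'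
    field_simp
  have A1 : |∑ d ∈ Icc 1 Y, (cv χ d * (d : ℝ) ^ (-β)) * (WS (ci q) β ((X : ℝ) / d) - κ * ((X : ℝ) / d) ^ (1 - β) / (1 - β) - K)| ≤
      9 * q * (Y : ℝ) ^ (1 - 2 * β) := by
    refine (Finset.abs_sum_le_sum_abs _ _).trans ?_
    have h2 : ∀ d ∈ Icc 1 Y, |(cv χ d * (d : ℝ) ^ (-β)) * (WS (ci q) β ((X : ℝ) / d) - κ * ((X : ℝ) / d) ^ (1 - β) / (1 - β) - K)| ≤
        9 * q * (X : ℝ) ^ (-β) := by
      intro d hd
      rw [mem_Icc] at hd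
      have hd0 : (0 : ℝ) < d := by exact_mod_cast (by omega : 0 < d)
      have hdY : (d : ℝ) ≤ Y := by exact_mod_cast hd.2
      have h3 : 1 ≤ (X : ℝ) / d := by
        rw [le_div_iff₀ hd0, one_mul, hXR]
        nlinarith
      have h4 := hK ((X : ℝ) / d) h3
      rw [abs_mul, abs_mul, abs_of_nonneg (Real.rpow_nonneg hd0.le _)]
      have h5 : ((X : ℝ) / d) ^ (0 - β) = (X : ℝ) ^ (-β) / (d : ℝ) ^ (-β) := by
        rw [zero_sub, Real.div_rpow hX0.le hd0.le]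
      rw [h5] at h4
      have h6 : 0 < (d : ℝ) ^ (-β) := Real.rpow_pos_of_pos hd0 _
      calc |cv χ d| * (d : ℝ) ^ (-β) * |WS (ci q) β ((X : ℝ) / d) - κ * ((X : ℝ) / d) ^ (1 - β) / (1 - β) - K|
          ≤ 1 * (d : ℝ) ^ (-β) * (3 * q * (2 + 1) * ((X : ℝ) ^ (-β) / (d : ℝ) ^ (-β))) := by
            apply mul_le_mul _ h4 (abs_nonneg _) (by positivity)
            exact mul_le_mul_of_nonneg_right (cv_abs hχ d) h6.le
        _ = 9 * q * (X : ℝ) ^ (-β) := by field_simp; ring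
    calc _ ≤ ∑ d ∈ Icc 1 Y, 9 * (q : ℝ) * (X : ℝ) ^ (-β) := sum_le_sum h2
      _ = 9 * q * (Y * (X : ℝ) ^ (-β)) := by rw [sum_const, Nat.card_Icc, nsmul_eq_mul]; simp; ring
      _ = 9 * q * (Y : ℝ) ^ (1 - 2 * β) := by
          congr 1
          rw [hXR, Real.mul_rpow hY0.le hY0.le, ← Real.rpow_add hY0]
          nth_rewrite 1 [← Real.rpow_one (Y : ℝ)]
          rw [← Real.rpow_add hY0]
          congr 1; ring
  have A2 : |∑ d ∈ Icc 1 Y, cv χ d / d - Lr χ| ≤ 2 * q / Y := by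
    refine (psum hq hχ Y).trans ?_
    apply div_le_div_of_nonneg_left (by positivity) hY0 (by linarith)
  have A3 := hTb Y hY
  -- second part
  have A4 : |∑ e ∈ Icc 1 (X / Y), ∑ d ∈ Ioc Y (X / e), F d e| ≤ 2 * q * (Y : ℝ) ^ (-β) * WS (ci q) β (Y : ℝ) := by
    have hXY : X / Y = Y := by rw [hX]; exact Nat.mul_div_cancel Y (by omega)
    rw [hXY]
    unfold WS
    rw [Nat.floor_natCast, Finset.mul_sum]
    refine (Finset.abs_sum_le_sum_abs _ _).trans (sum_le_sum ?_)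
    intro e he
    rw [mem_Icc] at he
    have he0 : 0 < e := by omega
    have hYe : Y ≤ X / e := by
      rw [Nat.le_div_iff_mul_le he0, hX]
      exact Nat.mul_le_mul_left Y he.2
    have h2 : ∑ d ∈ Ioc Y (X / e), F d e = (ci q e * (e : ℝ) ^ (-β)) * (T (X / e) - T Y) := by
      simp only [hF, hT]
      rw [← Finset.sum_mul, mul_comm]
      congr 1
      have h3 : Icc 1 (X / e) = Icc 1 Y ∪ Ioc Y (X / e) := by
        ext k; simp only [mem_union, mem_Icc, mem_Ioc]; omega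
      have h4 : Disjoint (Icc 1 Y) (Ioc Y (X / e)) := by
        rw [Finset.disjoint_left]
        intro k h3 h4
        rw [mem_Icc] at h3
        rw [mem_Ioc] at h4
        omega
      rw [h3, Finset.sum_union h4, add_sub_cancel_left]
    rw [h2, abs_mul, abs_of_nonneg (mul_nonneg (ci_nonneg q e) (Real.rpow_nonneg (Nat.cast_nonneg _) _))]
    have h3 : |T (X / e) - T Y| ≤ 2 * q * (Y : ℝ) ^ (-β) := by
      have h4 := hTb (X / e) (hY.trans hYe)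
      have h5 : ((X / e : ℕ) : ℝ) ^ (-β) ≤ (Y : ℝ) ^ (-β) :=
        Real.rpow_le_rpow_of_nonpos hY0 (by exact_mod_cast hYe) (by linarith)
      calc |T (X / e) - T Y| ≤ |T (X / e)| + |T Y| := abs_sub _ _
        _ ≤ q * (Y : ℝ) ^ (-β) + q * (Y : ℝ) ^ (-β) := by
            refine add_le_add (h4.trans ?_) A3
            gcongr
        _ = 2 * q * (Y : ℝ) ^ (-β) := by ring
    rw [mul_comm]
    exact mul_le_mul_of_nonneg_right h3 (mul_nonneg (ci_nonneg q e) (Real.rpow_nonneg (Nat.cast_nonneg _) _))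
  have A5 : WS (ci q) β (Y : ℝ) ≤ (Y : ℝ) ^ (1 - β) / (1 - β) + |K| + 9 * q := by
    have h2 := (abs_le.1 (hK (Y : ℝ) hYR)).2
    have h3 : (Y : ℝ) ^ (0 - β) ≤ 1 := Real.rpow_le_one_of_one_le_of_nonpos hYR (by linarith)
    have h4 : κ * (Y : ℝ) ^ (1 - β) / (1 - β) ≤ (Y : ℝ) ^ (1 - β) / (1 - β) := by
      gcongr
      have : 0 ≤ (Y : ℝ) ^ (1 - β) := Real.rpow_nonneg hY0.le _
      nlinarith
    have h5 : 3 * (q : ℝ) * (2 + 1) * (Y : ℝ) ^ (0 - β) ≤ 9 * q := by nlinarith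
    have h6 := le_abs_self K
    linarith
  -- powers of Y
  have p1 : (Y : ℝ) ^ (1 - 2 * β) ≤ (Y : ℝ) ^ (-(1 / 2) : ℝ) := Real.rpow_le_rpow_of_exponent_le hYR (by linarith)
  have p2 : (Y : ℝ) ^ (-β) ≤ (Y : ℝ) ^ (-(1 / 2) : ℝ) := Real.rpow_le_rpow_of_exponent_le hYR (by linarith)
  have p3 : (X : ℝ) ^ (1 - β) / Y = (Y : ℝ) ^ (1 - 2 * β) := by
    rw [hXR, Real.mul_rpow hY0.le hY0.le, ← Real.rpow_add hY0, ← Real.rpow_sub_one hY0.ne']
    congr 1; ring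
  have p4 : (Y : ℝ) ^ (-β) * (Y : ℝ) ^ (1 - β) = (Y : ℝ) ^ (1 - 2 * β) := by
    rw [← Real.rpow_add hY0]; congr 1; ring
  set y := (Y : ℝ) ^ (-(1 / 2) : ℝ) with hy
  have hy0 : 0 ≤ y := Real.rpow_nonneg hY0.le _
  have e4 : ∑ d ∈ Icc 1 Y, ∑ e ∈ Icc 1 (X / d), F d e =
      ∑ d ∈ Icc 1 Y, (cv χ d * (d : ℝ) ^ (-β)) * (WS (ci q) β ((X : ℝ) / d) - κ * ((X : ℝ) / d) ^ (1 - β) / (1 - β) - K) +
      κ * (X : ℝ) ^ (1 - β) / (1 - β) * (∑ d ∈ Icc 1 Y, cv χ d / d) + K * T Y := by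
    rw [e2, ← e3]
    simp only [hT]
    rw [Finset.mul_sum, ← sum_add_distrib, ← sum_add_distrib]
    apply sum_congr rfl
    intro d _
    ring
  rw [e4]
  set S1 := ∑ d ∈ Icc 1 Y, (cv χ d * (d : ℝ) ^ (-β)) * (WS (ci q) β ((X : ℝ) / d) - κ * ((X : ℝ) / d) ^ (1 - β) / (1 - β) - K)
  set S2 := ∑ e ∈ Icc 1 (X / Y), ∑ d ∈ Ioc Y (X / e), F d e
  set S3 := ∑ d ∈ Icc 1 Y, cv χ d / d
  have e5 : S1 + κ * (X : ℝ) ^ (1 - β) / (1 - β) * S3 + K * T Y + S2 - lam χ * (X : ℝ) ^ (1 - β) / (1 - β) =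
      S1 + κ * (X : ℝ) ^ (1 - β) / (1 - β) * (S3 - Lr χ) + K * T Y + S2 := by
    unfold lam
    rw [← hκ]
    ring
  rw [e5]
  have B2 : |κ * (X : ℝ) ^ (1 - β) / (1 - β) * (S3 - Lr χ)| ≤ 2 * q / (1 - β) * y := by
    have hx0 : 0 ≤ (X : ℝ) ^ (1 - β) := Real.rpow_nonneg hX0.le _
    rw [abs_mul, abs_of_nonneg (by positivity)]
    calc κ * (X : ℝ) ^ (1 - β) / (1 - β) * |S3 - Lr χ| ≤ 1 * (X : ℝ) ^ (1 - β) / (1 - β) * (2 * q / Y) := by
          gcongr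
      _ = 2 * q / (1 - β) * ((X : ℝ) ^ (1 - β) / Y) := by ring
      _ ≤ 2 * q / (1 - β) * y := by
          rw [p3]
          gcongr
  have B3 : |K * T Y| ≤ |K| * q * y := by
    rw [abs_mul]
    calc |K| * |T Y| ≤ |K| * (q * (Y : ℝ) ^ (-β)) := by gcongr
      _ ≤ |K| * (q * y) := by gcongr
      _ = |K| * q * y := by ring
  have B1 : |S1| ≤ 9 * q * y := A1.trans (by gcongr)
  have B4 : |S2| ≤ 2 * q * (1 / (1 - β) + |K| + 9 * q) * y := by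
    refine A4.trans ?_
    have h2 : 0 ≤ (Y : ℝ) ^ (-β) := Real.rpow_nonneg hY0.le _
    calc 2 * q * (Y : ℝ) ^ (-β) * WS (ci q) β (Y : ℝ) ≤ 2 * q * (Y : ℝ) ^ (-β) * ((Y : ℝ) ^ (1 - β) / (1 - β) + |K| + 9 * q) := by
          gcongr
      _ = 2 * q * (((Y : ℝ) ^ (-β) * (Y : ℝ) ^ (1 - β)) / (1 - β) + (|K| + 9 * q) * (Y : ℝ) ^ (-β)) := by ring
      _ ≤ 2 * q * (y / (1 - β) + (|K| + 9 * q) * y) := by
          rw [p4]
          gcongr
      _ = 2 * q * (1 / (1 - β) + |K| + 9 * q) * y := by ring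
  calc |S1 + κ * (X : ℝ) ^ (1 - β) / (1 - β) * (S3 - Lr χ) + K * T Y + S2|
      ≤ |S1| + |κ * (X : ℝ) ^ (1 - β) / (1 - β) * (S3 - Lr χ)| + |K * T Y| + |S2| := by
        refine (abs_add_le _ _).trans (add_le_add ((abs_add_le _ _).trans (add_le_add (abs_add_le _ _) le_rfl)) le_rfl)
    _ ≤ 9 * q * y + 2 * q / (1 - β) * y + |K| * q * y + 2 * q * (1 / (1 - β) + |K| + 9 * q) * y := by linarith
    _ = _ := by ring

/-- at a real zero near one the weighted sum has the expected size -/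
theorem zero_eval {q : ℕ} [NeZero q] {χ : DirichletCharacter ℂ q} (hq : 1 < q) (hχ : RealPrim q χ) (β : ℝ) (hβ0 : 3 / 4 ≤ β)
    (hβ1 : β < 1) (h0 : χ.LFunction β = 0) (a : ℝ) (ha : 1 ≤ a) :
    |WS (wt χ) β a - lam χ * a ^ (1 - β) / (1 - β)| ≤ 65 * q * a ^ (-(1 / 4) : ℝ) := by
  have hq0 : 0 < q := by omega
  have hqR : (0 : ℝ) < q := by exact_mod_cast hq0
  have hwt0 : wt χ 0 = 0 := by
    unfold wt
    rw [if_neg]
    intro h; rw [Nat.coprime_zero_left] at h; omega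
  obtain ⟨K, hK⟩ := abel_lim (wt χ) hwt0 (lam χ) (13 * q) (1 / 2) β (by positivity) (by norm_num) (by linarith) hβ1
    (wt_sum hq hχ)
  obtain ⟨M, hM⟩ := hyper hq hχ β hβ0 hβ1 h0
  have hbb : β / (β - 1 / 2) ≤ 3 := by
    rw [div_le_iff₀ (by linarith)]; linarith
  have hbb0 : 0 ≤ β / (β - 1 / 2) := div_nonneg (by linarith) (by linarith)
  have hK0 : K = 0 := by
    by_contra hne
    have hpos : 0 < |K| := abs_pos.2 hne
    have h1 : ∀ Y : ℕ, 1 ≤ Y → |K| ≤ (M + 65 * q) * (Y : ℝ) ^ (-(1 / 2) : ℝ) := by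
      intro Y hY
      have hYR : (1 : ℝ) ≤ Y := by exact_mod_cast hY
      have hY0 : (0 : ℝ) < Y := by linarith
      have h2 := hM Y hY
      have h3 : (1 : ℝ) ≤ ((Y * Y : ℕ) : ℝ) := by push_cast; nlinarith
      have h4 := hK ((Y * Y : ℕ) : ℝ) h3
      have h5 : ((Y * Y : ℕ) : ℝ) ^ (1 / 2 - β) ≤ (Y : ℝ) ^ (-(1 / 2) : ℝ) := by
        push_cast
        rw [Real.mul_rpow hY0.le hY0.le, ← Real.rpow_add hY0]
        exact Real.rpow_le_rpow_of_exponent_le hYR (by linarith)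
      have h6 : 13 * (q : ℝ) * (2 + β / (β - 1 / 2)) * ((Y * Y : ℕ) : ℝ) ^ (1 / 2 - β) ≤ 65 * q * (Y : ℝ) ^ (-(1 / 2) : ℝ) := by
        have h7 : 0 ≤ ((Y * Y : ℕ) : ℝ) ^ (1 / 2 - β) := Real.rpow_nonneg (Nat.cast_nonneg _) _
        calc 13 * (q : ℝ) * (2 + β / (β - 1 / 2)) * ((Y * Y : ℕ) : ℝ) ^ (1 / 2 - β) ≤
              13 * (q : ℝ) * (2 + 3) * (Y : ℝ) ^ (-(1 / 2) : ℝ) := by gcongr
          _ = 65 * q * (Y : ℝ) ^ (-(1 / 2) : ℝ) := by ring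
      set A := WS (wt χ) β ((Y * Y : ℕ) : ℝ) - lam χ * ((Y * Y : ℕ) : ℝ) ^ (1 - β) / (1 - β)
      have h8 : |K| ≤ |A| + |A - K| := by
        have : K = A - (A - K) := by ring
        calc |K| = |A - (A - K)| := by rw [← this]
          _ ≤ |A| + |A - K| := abs_sub _ _
      calc |K| ≤ |A| + |A - K| := h8
        _ ≤ M * (Y : ℝ) ^ (-(1 / 2) : ℝ) + 65 * q * (Y : ℝ) ^ (-(1 / 2) : ℝ) := add_le_add h2 (h4.trans h6)
        _ = _ := by ring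
    have h2 : Tendsto (fun Y : ℕ => (M + 65 * q) * (Y : ℝ) ^ (-(1 / 2) : ℝ)) atTop (𝓝 0) := by
      have h3 : Tendsto (fun Y : ℕ => (Y : ℝ) ^ (-(1 / 2) : ℝ)) atTop (𝓝 0) :=
        (tendsto_rpow_neg_atTop (y := 1 / 2) (by norm_num)).comp tendsto_natCast_atTop_atTop
      simpa using h3.const_mul (M + 65 * q)
    have h3 := h2.eventually_lt_const hpos
    obtain ⟨Y, hY1, hY2⟩ := (h3.and (eventually_ge_atTop 1)).exists
    exact absurd (h1 Y hY2) (not_le.2 hY1)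
  have h1 := hK a ha
  rw [hK0, sub_zero] at h1
  refine h1.trans ?_
  have h2 : a ^ (1 / 2 - β) ≤ a ^ (-(1 / 4) : ℝ) := Real.rpow_le_rpow_of_exponent_le ha (by linarith)
  have h3 : 0 ≤ a ^ (1 / 2 - β) := Real.rpow_nonneg (by linarith) _
  calc 13 * (q : ℝ) * (2 + β / (β - 1 / 2)) * a ^ (1 / 2 - β) ≤ 13 * (q : ℝ) * (2 + 3) * a ^ (-(1 / 4) : ℝ) := by gcongr
    _ = _ := by ring

end Pool.Agent.H534.SZ
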