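import Pool.Agent.H534.SZ.ZerB

/-! A real zero near one: the size of `L(1, χ) ∏ (1 - χ(p)/p)`. -/

set_option autoImplicit false

namespace Pool.Agent.H534.SZ

open Finset Filter Topology
open Pool.Agent.E8helper22.SZ

/-- the character as an arithmetic function -/
noncomputable def cvA {q : ℕ} (χ : DirichletCharacter ℂ q) : ArithmeticFunction ℝ :=
  ⟨fun n => if n = 0 then 0 else cv χ n, by simp⟩

theorem tau_eq {q : ℕ} (χ : DirichletCharacter ℂ q) (n : ℕ) :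
    (cvA χ * (ArithmeticFunction.zeta : ArithmeticFunction ℝ)) n = tau χ n := by
  rw [ArithmeticFunction.coe_mul_zeta_apply]
  unfold tau
  apply sum_congr rfl
  intro d hd
  have h1 := Nat.pos_of_mem_divisors hd
  simp only [cvA, ArithmeticFunction.coe_mk]
  rw [if_neg (by omega)]

theorem tau_mul {q : ℕ} {χ : DirichletCharacter ℂ q} (h : RealPrim q χ) {m n : ℕ} (hmn : m.Coprime n) :
    tau χ (m * n) = tau χ m * tau χ n := by
  rw [← tau_eq, ← tau_eq, ← tau_eq]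
  have h1 : (cvA χ).IsMultiplicative := by
    rw [ArithmeticFunction.IsMultiplicative.iff_ne_zero]
    constructor
    · simp only [cvA, ArithmeticFunction.coe_mk]
      rw [if_neg one_ne_zero, cv_one]
    · intro m n hm hn _
      simp only [cvA, ArithmeticFunction.coe_mk]
      rw [if_neg hm, if_neg hn, if_neg (Nat.mul_ne_zero hm hn), cv_mul h]
  have h2 : (cvA χ * (ArithmeticFunction.zeta : ArithmeticFunction ℝ)).IsMultiplicative :=
    h1.mul ArithmeticFunction.isMultiplicative_zeta.natCast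
  exact h2.map_mul_of_coprime hmn

theorem tau_one {q : ℕ} (χ : DirichletCharacter ℂ q) : tau χ 1 = 1 := by
  unfold tau
  simp [cv_one]

theorem cv_pow {q : ℕ} {χ : DirichletCharacter ℂ q} (h : RealPrim q χ) (p k : ℕ) : cv χ (p ^ k) = cv χ p ^ k := by
  induction k with
  | zero => simp [cv_one]
  | succ k ih => rw [pow_succ, cv_mul h, ih, pow_succ]

theorem euler_factor {q : ℕ} {χ : DirichletCharacter ℂ q} (h : RealPrim q χ) (p : ℕ) (hp : p.Prime) :
    Summable (fun k : ℕ => ‖tau χ (p ^ k) / ((p ^ k : ℕ) : ℝ)‖) ∧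
    ∑' k : ℕ, tau χ (p ^ k) / ((p ^ k : ℕ) : ℝ) = (1 - cv χ p / p)⁻¹ * (1 - 1 / (p : ℝ))⁻¹ := by
  have hp0 : (0 : ℝ) < p := by exact_mod_cast hp.pos
  have hp2 : (2 : ℝ) ≤ p := by exact_mod_cast hp.two_le
  have e : ∀ k : ℕ, tau χ (p ^ k) / ((p ^ k : ℕ) : ℝ) =
      ∑ i ∈ range (k + 1), (cv χ p / p) ^ i * (1 / (p : ℝ)) ^ (k - i) := by
    intro k
    unfold tau
    rw [Nat.sum_divisors_prime_pow hp, Finset.sum_div]
    apply sum_congr rfl
    intro i hi
    rw [mem_range] at hi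
    rw [cv_pow h, div_pow, one_div_pow]
    push_cast
    have h2 : (p : ℝ) ^ k = p ^ i * p ^ (k - i) := by
      rw [← pow_add]; congr 1; omega
    rw [h2]
    field_simp
  have ha : |cv χ p / p| < 1 := by
    rw [abs_div, abs_of_pos hp0, div_lt_one hp0]
    have := cv_abs h p
    linarith
  have hb : |1 / (p : ℝ)| < 1 := by
    rw [abs_of_pos (by positivity), div_lt_one hp0]
    linarith
  have s1 : Summable (fun i : ℕ => ‖(cv χ p / p) ^ i‖) := by
    simp_rw [norm_pow]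
    exact summable_geometric_of_lt_one (norm_nonneg _) ha
  have s2 : Summable (fun i : ℕ => ‖(1 / (p : ℝ)) ^ i‖) := by
    simp_rw [norm_pow]
    exact summable_geometric_of_lt_one (norm_nonneg _) hb
  constructor
  · simp_rw [e]
    exact summable_norm_sum_mul_range_of_summable_norm s1 s2
  · simp_rw [e]
    rw [← tsum_mul_tsum_eq_tsum_sum_range_of_summable_norm s1 s2]
    rw [tsum_geometric_of_abs_lt_one ha, tsum_geometric_of_abs_lt_one hb]

/-- the Euler product bound -/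
theorem euler_bound {q : ℕ} {χ : DirichletCharacter ℂ q} (hq : 1 < q) (h : RealPrim q χ) (x : ℕ) (Q : Finset ℕ)
    (hQ : ∀ p ∈ Q, p.Prime) (hQx : ∀ p : ℕ, p.Prime → p ≤ x → ¬ p ∣ q → p ∈ Q) :
    ∑ n ∈ Icc 1 x, wt χ n / n ≤ ∏ p ∈ Q, ((1 - cv χ p / p)⁻¹ * (1 - 1 / (p : ℝ))⁻¹) := by
  set f : ℕ → ℝ := fun n => tau χ n / (n : ℝ) with hf
  have hf1 : f 1 = 1 := by simp [hf, tau_one]
  have hmul : ∀ {m n : ℕ}, m.Coprime n → f (m * n) = f m * f n := by
    intro m n hmn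
    simp only [hf]
    rw [tau_mul h hmn]
    push_cast
    rw [mul_div_mul_comm]
  obtain ⟨h1, h2⟩ := EulerProduct.summable_and_hasSum_factoredNumbers_prod_filter_prime_tsum hf1 hmul
    (fun {p} hp => (euler_factor h p hp).1) Q
  rw [Finset.filter_true_of_mem hQ] at h2
  have h3 : ∏ p ∈ Q, ∑' k : ℕ, f (p ^ k) = ∏ p ∈ Q, ((1 - cv χ p / p)⁻¹ * (1 - 1 / (p : ℝ))⁻¹) := by
    apply prod_congr rfl
    intro p hp
    exact (euler_factor h p (hQ p hp)).2
  rw [h3] at h2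
  set E := (Icc 1 x).filter (fun n => n.Coprime q) with hE
  have e1 : ∑ n ∈ Icc 1 x, wt χ n / n = ∑ n ∈ E, f n := by
    rw [hE, Finset.sum_filter]
    apply sum_congr rfl
    intro n _
    unfold wt
    split_ifs <;> simp [hf]
  rw [e1]
  have hmem : ∀ e ∈ E, e ∈ Nat.factoredNumbers Q := by
    intro e he
    rw [hE, mem_filter, mem_Icc] at he
    rw [Nat.mem_factoredNumbers']
    intro p hp hpe
    apply hQx p hp ((Nat.le_of_dvd (by omega) hpe).trans he.1.2)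
    intro hpq
    have h4 := Nat.Coprime.coprime_dvd_left hpe he.2
    rw [hp.coprime_iff_not_dvd] at h4
    exact h4 hpq
  have h5 : ∑ e ∈ E.attach.map ⟨fun e => (⟨e.1, hmem e.1 e.2⟩ : Nat.factoredNumbers Q), by
      intro a b hab
      simp only [Subtype.mk.injEq] at hab
      exact Subtype.ext hab⟩, f e.1 ≤ ∏ p ∈ Q, ((1 - cv χ p / p)⁻¹ * (1 - 1 / (p : ℝ))⁻¹) := by
    apply sum_le_hasSum _ _ h2
    intro e _
    simp only [hf]
    rcases Nat.eq_zero_or_pos (e : ℕ) with h0 | h0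
    · simp [h0]
    · have := (Pool.Agent.E8helper63.SZ.t_POS q χ (by omega) h (e : ℕ) h0).1
      positivity
  rw [Finset.sum_map] at h5
  have h6 : ∑ e ∈ E.attach, f e.1 ≤ ∏ p ∈ Q, ((1 - cv χ p / p)⁻¹ * (1 - 1 / (p : ℝ))⁻¹) := h5
  rw [Finset.sum_attach E (fun e => f e)] at h6
  exact h6

/-- A real zero close to one. -/
theorem zero_H {q : ℕ} [NeZero q] {χ : DirichletCharacter ℂ q} (hq : 1 < q) (hχ : RealPrim q χ) (β : ℝ) (hβ0 : 3 / 4 ≤ β)
    (hβ1 : β < 1) (h0 : χ.LFunction β = 0) (z0 : ℕ) (P' : Finset ℕ) (hP' : ∀ p ∈ P', p.Prime ∧ ¬ p ∣ q)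
    (hP2 : ∀ p : ℕ, p.Prime → ¬ p ∣ q → z0 < p → p ≤ (130 * q) ^ 4 → p ∈ P') :
    lam χ * ∏ p ∈ P', ((1 - cv χ p / p) * (1 - 1 / (p : ℝ))) ≤
      3 / 2 * (1 - β) * Real.exp (4 * (1 - β) * Real.log (130 * q)) * 4 ^ z0 := by
  classical
  have hqR : (1 : ℝ) < q := by exact_mod_cast hq
  obtain ⟨x, hx⟩ : ∃ x, x = (130 * q) ^ 4 := ⟨_, rfl⟩
  have hxR : (x : ℝ) = (130 * q : ℝ) ^ 4 := by rw [hx]; push_cast; ring
  have hx1 : (1 : ℝ) ≤ x := by
    rw [hxR]; apply one_le_pow₀; linarith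
  have hx0 : (0 : ℝ) < x := by linarith
  have h1 := zero_eval hq hχ β hβ0 hβ1 h0 x hx1
  have e1 : (x : ℝ) ^ (-(1 / 4) : ℝ) = 1 / (130 * q) := by
    rw [hxR, ← Real.rpow_natCast, ← Real.rpow_mul (by positivity)]
    have : ((4 : ℕ) : ℝ) * (-(1 / 4)) = -1 := by norm_num
    rw [this, Real.rpow_neg_one, one_div]
  have e2 : 65 * (q : ℝ) * (1 / (130 * q)) = 1 / 2 := by field_simp; norm_num
  rw [e1, e2] at h1
  -- the sum
  have hW1 : 1 ≤ WS (wt χ) β x := by
    unfold WS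
    rw [Nat.floor_natCast]
    have h2 : wt χ 1 * ((1 : ℕ) : ℝ) ^ (-β) ≤ ∑ n ∈ Icc 1 x, wt χ n * (n : ℝ) ^ (-β) := by
      apply Finset.single_le_sum (f := fun n : ℕ => wt χ n * (n : ℝ) ^ (-β))
      · intro n hn
        rw [mem_Icc] at hn
        exact mul_nonneg (wt_nonneg (by omega) hχ n (by omega)) (Real.rpow_nonneg (Nat.cast_nonneg _) _)
      · rw [mem_Icc]
        exact ⟨le_rfl, by exact_mod_cast hx1⟩
    have h3 : wt χ 1 * ((1 : ℕ) : ℝ) ^ (-β) = 1 := by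
      unfold wt
      rw [if_pos (Nat.coprime_one_left q), tau_one]
      simp
    rw [h3] at h2
    exact h2
  have hW2 : WS (wt χ) β x ≤ (x : ℝ) ^ (1 - β) * ∑ n ∈ Icc 1 x, wt χ n / n := by
    unfold WS
    rw [Nat.floor_natCast, Finset.mul_sum]
    apply sum_le_sum
    intro n hn
    rw [mem_Icc] at hn
    have hn0 : (0 : ℝ) < n := by exact_mod_cast (by omega : 0 < n)
    have hnx : (n : ℝ) ≤ x := by exact_mod_cast hn.2
    have h2 : (n : ℝ) ^ (-β) = (n : ℝ) ^ (1 - β) / n := by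
      rw [← Real.rpow_sub_one hn0.ne']; congr 1; ring
    have h3 : (n : ℝ) ^ (1 - β) ≤ (x : ℝ) ^ (1 - β) := Real.rpow_le_rpow hn0.le hnx (by linarith)
    have h4 := wt_nonneg (by omega) hχ n (by omega)
    rw [h2]
    calc wt χ n * ((n : ℝ) ^ (1 - β) / n) = (n : ℝ) ^ (1 - β) * (wt χ n / n) := by ring
      _ ≤ (x : ℝ) ^ (1 - β) * (wt χ n / n) := by gcongr
  have h1β : 0 < 1 - β := by linarith
  have hxb : 1 ≤ (x : ℝ) ^ (1 - β) := Real.one_le_rpow hx1 h1β.le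
  have hl0 := lam_nonneg hq hχ
  have h3 : lam χ ≤ 3 / 2 * (1 - β) * WS (wt χ) β x := by
    have h4 := (abs_le.1 h1).1
    have h5 : lam χ * (x : ℝ) ^ (1 - β) / (1 - β) ≤ 3 / 2 * WS (wt χ) β x := by linarith
    rw [div_le_iff₀ h1β] at h5
    nlinarith
  -- the product
  set F : ℕ → ℝ := fun p => (1 - cv χ p / p)⁻¹ * (1 - 1 / (p : ℝ))⁻¹ with hF
  set S0 := (range (z0 + 1)).filter (fun p => p.Prime ∧ ¬ p ∣ q ∧ p ∉ P') with hS0
  have hdisj : Disjoint S0 P' := by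
    rw [Finset.disjoint_left]
    intro p hp hp2
    rw [hS0, mem_filter] at hp
    exact hp.2.2.2 hp2
  have h4 := euler_bound hq hχ x (S0 ∪ P') (by
    intro p hp
    rcases mem_union.1 hp with hp | hp
    · rw [hS0, mem_filter] at hp; exact hp.2.1
    · exact (hP' p hp).1) (by
    intro p hp hpx hpq
    by_cases hpz : z0 < p
    · exact mem_union_right _ (hP2 p hp hpq hpz (by rw [← hx]; exact hpx))
    · by_cases hpP : p ∈ P'
      · exact mem_union_right _ hpP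
      · apply mem_union_left
        rw [hS0, mem_filter, mem_range]
        exact ⟨by omega, hp, hpq, hpP⟩)
  rw [Finset.prod_union hdisj] at h4
  have hpos : ∀ p : ℕ, p.Prime → 0 < (1 - cv χ p / p) * (1 - 1 / (p : ℝ)) ∧ (1 / 4 : ℝ) ≤ (1 - cv χ p / p) * (1 - 1 / (p : ℝ)) := by
    intro p hp
    have hp2 : (2 : ℝ) ≤ p := by exact_mod_cast hp.two_le
    have h5 : 1 / (p : ℝ) ≤ 1 / 2 := by gcongr
    have h6 : cv χ p / p ≤ 1 / p := by
      gcongr
      exact (abs_le.1 (cv_abs hχ p)).2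
    have h7 : (1 / 2 : ℝ) ≤ 1 - cv χ p / p := by linarith
    have h8 : (1 / 2 : ℝ) ≤ 1 - 1 / (p : ℝ) := by linarith
    constructor
    · nlinarith
    · nlinarith
  have hF4 : ∏ p ∈ S0, F p ≤ 4 ^ z0 := by
    have h5 : ∀ p ∈ S0, F p ≤ 4 := by
      intro p hp
      rw [hS0, mem_filter] at hp
      have h6 := hpos p hp.2.1
      simp only [hF]
      rw [← mul_inv]
      rw [inv_le_comm₀ h6.1 (by norm_num)]
      linarith [h6.2]
    have h6 : ∀ p ∈ S0, 0 ≤ F p := by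
      intro p hp
      rw [hS0, mem_filter] at hp
      have h6 := hpos p hp.2.1
      simp only [hF]
      rw [← mul_inv]
      exact inv_nonneg.2 h6.1.le
    calc ∏ p ∈ S0, F p ≤ ∏ p ∈ S0, (4 : ℝ) := Finset.prod_le_prod h6 h5
      _ = 4 ^ S0.card := by rw [Finset.prod_const]
      _ ≤ 4 ^ z0 := by
          apply pow_le_pow_right₀ (by norm_num)
          have h7 : S0 ⊆ (Icc 1 z0) := by
            intro p hp
            rw [hS0, mem_filter, mem_range] at hp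
            rw [mem_Icc]
            have := hp.2.1.pos
            omega
          have := Finset.card_le_card h7
          rw [Nat.card_Icc] at this
          omega
  have hPinv : (∏ p ∈ P', F p) * ∏ p ∈ P', ((1 - cv χ p / p) * (1 - 1 / (p : ℝ))) = 1 := by
    rw [← Finset.prod_mul_distrib]
    apply Finset.prod_eq_one
    intro p hp
    have h6 := (hpos p (hP' p hp).1).1
    simp only [hF]
    rw [← mul_inv]
    exact inv_mul_cancel₀ h6.ne'
  have hH0 : 0 ≤ ∏ p ∈ P', ((1 - cv χ p / p) * (1 - 1 / (p : ℝ))) :=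
    Finset.prod_nonneg fun p hp => (hpos p (hP' p hp).1).1.le
  have hFP0 : 0 ≤ ∏ p ∈ P', F p := Finset.prod_nonneg fun p hp => by
    have h6 := (hpos p (hP' p hp).1).1
    simp only [hF]
    rw [← mul_inv]
    exact inv_nonneg.2 h6.le
  have hexp : (x : ℝ) ^ (1 - β) = Real.exp (4 * (1 - β) * Real.log (130 * q)) := by
    rw [Real.rpow_def_of_pos hx0, hxR, Real.log_pow]
    congr 1
    push_cast
    ring
  set Hp := ∏ p ∈ P', ((1 - cv χ p / p) * (1 - 1 / (p : ℝ)))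
  calc lam χ * Hp ≤ 3 / 2 * (1 - β) * WS (wt χ) β x * Hp := by gcongr
    _ ≤ 3 / 2 * (1 - β) * ((x : ℝ) ^ (1 - β) * ((∏ p ∈ S0, F p) * ∏ p ∈ P', F p)) * Hp := by
        have h5 : WS (wt χ) β x ≤ (x : ℝ) ^ (1 - β) * ((∏ p ∈ S0, F p) * ∏ p ∈ P', F p) :=
          hW2.trans (mul_le_mul_of_nonneg_left h4 (by linarith))
        gcongr
    _ = 3 / 2 * (1 - β) * (x : ℝ) ^ (1 - β) * (∏ p ∈ S0, F p) * ((∏ p ∈ P', F p) * Hp) := by ring
    _ = 3 / 2 * (1 - β) * (x : ℝ) ^ (1 - β) * (∏ p ∈ S0, F p) := by rw [hPinv, mul_one]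
    _ ≤ 3 / 2 * (1 - β) * (x : ℝ) ^ (1 - β) * 4 ^ z0 := by gcongr
    _ = _ := by rw [hexp]

end Pool.Agent.H534.SZ
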